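import Mathlib

/-!
# Statements of two further parts of project AV (helper91)
-/

set_option autoImplicit false

open NumberField
open scoped Classical

namespace Pool.Agent.Helper91.AV

/-- The group of the points of `y ^ 2 = x ^ 3 + a x + b` over `F`. -/
abbrev EPt {F : Type} [Field F] (a b : F) : Type :=
  (⟨0, 0, 0, a, b⟩ : WeierstrassCurve F).toAffine.Point

/-- The index of the subgroup of the doubles (zero if it is infinite). -/
noncomputable def idx2 (G : Type) [AddCommGroup G] : ℕ := (nsmulAddMonoidHom 2 : G →+ G).range.index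

/-- For curves with a point of order two the index of `2 E(F)` in `E(F)` is smaller than any power of
the height. -/
def S_RB : Prop := ∀ (F : Type) [Field F] [NumberField F] (m : ℕ), ∃ K : ℕ, ∀ (B : ℕ) (a b : 𝓞 F),
  1 ≤ B → (∀ σ : F →+* ℂ, ‖σ (a : F)‖ ≤ (B : ℝ) ^ 2) → (∀ σ : F →+* ℂ, ‖σ (b : F)‖ ≤ (B : ℝ) ^ 3) →
  4 * a ^ 3 + 27 * b ^ 2 ≠ 0 → (∃ r : F, r ^ 3 + (a : F) * r + (b : F) = 0) →
  idx2 (EPt (a : F) (b : F)) ≠ 0 ∧
  idx2 (EPt (a : F) (b : F)) ^ m ≤ K * B ^ (12 * Module.finrank ℚ F)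

/-- The rank over a quadratic extension. -/
def S_QE : Prop := ∀ (F M : Type) [Field F] [NumberField F] [Field M] [NumberField M] [Algebra F M]
  (a b d : F) (δ : M), δ ^ 2 = algebraMap F M d → IntermediateField.adjoin F {δ} = ⊤ →
  4 * a ^ 3 + 27 * b ^ 2 ≠ 0 →
  Module.finrank ℤ (EPt (algebraMap F M a) (algebraMap F M b)) ≤
    Module.finrank ℤ (EPt a b) + Module.finrank ℤ (EPt (d ^ 2 * a) (d ^ 3 * b))

end Pool.Agent.Helper91.AV
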