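import Pool.Agent.Helper91.AV.SelDef
import Pool.Agent.Helper91.AV.Def2

/-!
# The 2-Selmer groups of the curves with a point of order two: statement (helper91)
-/

set_option autoImplicit false

open NumberField
open scoped Classical

namespace Pool.Agent.Helper91.AV

/-- For curves with a point of order two the order of the 2-Selmer group is smaller than any power of
the height. -/
def S_SRB : Prop := ∀ (F : Type) [Field F] [NumberField F] (m : ℕ), ∃ K : ℕ, ∀ (B : ℕ) (a b : 𝓞 F),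
  1 ≤ B → (∀ σ : F →+* ℂ, ‖σ (a : F)‖ ≤ (B : ℝ) ^ 2) → (∀ σ : F →+* ℂ, ‖σ (b : F)‖ ≤ (B : ℝ) ^ 3) →
  4 * a ^ 3 + 27 * b ^ 2 ≠ 0 → (∃ r : F, r ^ 3 + (a : F) * r + (b : F) = 0) →
  Finite (Selmer (⟨0, 0, 0, (a : F), (b : F)⟩ : WeierstrassCurve F) 2) ∧
  Nat.card (Selmer (⟨0, 0, 0, (a : F), (b : F)⟩ : WeierstrassCurve F) 2) ^ m ≤
    K * B ^ (12 * Module.finrank ℚ F)

end Pool.Agent.Helper91.AV
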