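import Pool.Graph.R_seed8.TH841.NF.ShaN

/-!
# The Selmer groups of an elliptic curve over a number field

`Coch W` is the group of the functions on the absolute Galois group of `F` with values in the points of
`W` over an algebraic closure of `F`, `IsShaCoc W f` says that `f` is a continuous cocycle which is a
coboundary at all finite and infinite places of `F` (library).
-/

set_option autoImplicit false

open WeierstrassCurve

namespace Pool.Agent.Helper91.AV

open Pool.Agent.TH841.SH.D (Pt act Gal Coch cob)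
open Pool.Agent.TH841.NF.D (shaCoc IsShaCoc)

section

variable {F : Type} [Field F] [NumberField F] (W : WeierstrassCurve F)

/-- The cocycles with values in the points killed by `n` which are trivial in `W` at all places. -/
def selCoc (n : ℕ) : AddSubgroup (Coch W) where
  carrier := {f | f ∈ shaCoc W ∧ n • f = 0}
  zero_mem' := ⟨(shaCoc W).zero_mem, smul_zero n⟩
  add_mem' := fun hf hg => ⟨(shaCoc W).add_mem hf.1 hg.1, by rw [smul_add, hf.2, hg.2, add_zero]⟩
  neg_mem' := fun hf => ⟨(shaCoc W).neg_mem hf.1, by rw [smul_neg, hf.2, neg_zero]⟩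

/-- The coboundaries of the points killed by `n`. -/
noncomputable def cobTor (n : ℕ) : AddSubgroup (Coch W) where
  carrier := {f | ∃ P : Pt W (AlgebraicClosure F), n • P = 0 ∧
    ∀ σ : Gal F, f σ = act W σ.toAlgHom P - P}
  zero_mem' := ⟨0, smul_zero n, fun σ => by
    change (0 : Pt W (AlgebraicClosure F)) = _
    rw [map_zero, sub_zero]⟩
  add_mem' := by
    rintro f g ⟨P, hP, h⟩ ⟨Q, hQ, h'⟩
    refine ⟨P + Q, by rw [smul_add, hP, hQ, add_zero], fun σ => ?_⟩
    change f σ + g σ = _
    rw [h, h', map_add]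
    abel
  neg_mem' := by
    rintro f ⟨P, hP, h⟩
    refine ⟨-P, by rw [smul_neg, hP, neg_zero], fun σ => ?_⟩
    change -f σ = _
    rw [h, map_neg]
    abel

/-- The `n`-Selmer group of `W` over `F`. -/
def Selmer (n : ℕ) : Type := selCoc W n ⧸ (cobTor W n).addSubgroupOf (selCoc W n)

/-- The group law. -/
noncomputable instance Selmer.group (n : ℕ) : AddCommGroup (Selmer W n) :=
  @QuotientAddGroup.Quotient.addCommGroup (selCoc W n) _ ((cobTor W n).addSubgroupOf (selCoc W n))

/-- The cocycles with values in the points of 2-power order which are trivial in `W` at all places. -/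
def selCocInf : AddSubgroup (Coch W) where
  carrier := {f | f ∈ shaCoc W ∧ ∃ k : ℕ, 2 ^ k • f = 0}
  zero_mem' := ⟨(shaCoc W).zero_mem, 0, smul_zero _⟩
  add_mem' := by
    rintro f g ⟨hf, k, hk⟩ ⟨hg, l, hl⟩
    refine ⟨(shaCoc W).add_mem hf hg, k + l, ?_⟩
    have e1 : 2 ^ (k + l) • f = 0 := by rw [pow_add, mul_comm, mul_smul, hk, smul_zero]
    have e2 : 2 ^ (k + l) • g = 0 := by rw [pow_add, mul_smul, hl, smul_zero]
    rw [smul_add, e1, e2, add_zero]
  neg_mem' := by
    rintro f ⟨hf, k, hk⟩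
    exact ⟨(shaCoc W).neg_mem hf, k, by rw [smul_neg, hk, neg_zero]⟩

/-- The coboundaries of the points of 2-power order. -/
noncomputable def cobInf : AddSubgroup (Coch W) where
  carrier := {f | ∃ (P : Pt W (AlgebraicClosure F)) (k : ℕ), 2 ^ k • P = 0 ∧
    ∀ σ : Gal F, f σ = act W σ.toAlgHom P - P}
  zero_mem' := ⟨0, 0, smul_zero _, fun σ => by
    change (0 : Pt W (AlgebraicClosure F)) = _
    rw [map_zero, sub_zero]⟩
  add_mem' := by
    rintro f g ⟨P, k, hP, h⟩ ⟨Q, l, hQ, h'⟩
    refine ⟨P + Q, k + l, ?_, fun σ => ?_⟩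
    · have e1 : 2 ^ (k + l) • P = 0 := by rw [pow_add, mul_comm, mul_smul, hP, smul_zero]
      have e2 : 2 ^ (k + l) • Q = 0 := by rw [pow_add, mul_smul, hQ, smul_zero]
      rw [smul_add, e1, e2, add_zero]
    · change f σ + g σ = _
      rw [h, h', map_add]
      abel
  neg_mem' := by
    rintro f ⟨P, k, hP, h⟩
    refine ⟨-P, k, by rw [smul_neg, hP, neg_zero], fun σ => ?_⟩
    change -f σ = _
    rw [h, map_neg]
    abel

/-- The `2 ^ ∞`-Selmer group of `W` over `F`. -/
def SelmerInf : Type := selCocInf W ⧸ (cobInf W).addSubgroupOf (selCocInf W)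

/-- The group law. -/
noncomputable instance SelmerInf.group : AddCommGroup (SelmerInf W) :=
  @QuotientAddGroup.Quotient.addCommGroup (selCocInf W) _ ((cobInf W).addSubgroupOf (selCocInf W))

/-- The elements of the `2 ^ ∞`-Selmer group killed by two. -/
def SelmerInfTwo : Type := {x : SelmerInf W // 2 • x = 0}

end

/-- The Selmer groups of isomorphic curves are isomorphic. -/
def S_ISO2 : Prop := ∀ (F : Type) [Field F] [NumberField F] (a b l : F),
  4 * a ^ 3 + 27 * b ^ 2 ≠ 0 → l ≠ 0 →
  (∀ n : ℕ, Nonempty (Selmer (⟨0, 0, 0, a, b⟩ : WeierstrassCurve F) n ≃+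
    Selmer (⟨0, 0, 0, l ^ 4 * a, l ^ 6 * b⟩ : WeierstrassCurve F) n)) ∧
  Nonempty (SelmerInf (⟨0, 0, 0, a, b⟩ : WeierstrassCurve F) ≃+
    SelmerInf (⟨0, 0, 0, l ^ 4 * a, l ^ 6 * b⟩ : WeierstrassCurve F))

end Pool.Agent.Helper91.AV
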