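import Pool.Agent.Helper91.AV.Def2

/-!
# The multiquadratic extensions: statement (helper91)
-/

set_option autoImplicit false

open NumberField
open scoped Classical

namespace Pool.Agent.Helper91.AV

/-- The rank over a multiquadratic extension. -/
def S_MQ : Prop := ∀ (F M : Type) [Field F] [NumberField F] [Field M] [NumberField M] [Algebra F M]
  (k : ℕ) (d : Fin k → 𝓞 F) (δ : Fin k → M), (∀ i, d i ≠ 0) →
  (∀ i, δ i ^ 2 = algebraMap F M (d i : F)) → IntermediateField.adjoin F (Set.range δ) = ⊤ →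
  ∀ a b : 𝓞 F, 4 * a ^ 3 + 27 * b ^ 2 ≠ 0 →
  Module.finrank ℤ (EPt (algebraMap F M (a : F)) (algebraMap F M (b : F))) ≤
    ∑ I : Finset (Fin k), Module.finrank ℤ
      (EPt (((∏ i ∈ I, d i) ^ 2 * a : 𝓞 F) : F) (((∏ i ∈ I, d i) ^ 3 * b : 𝓞 F) : F))

end Pool.Agent.Helper91.AV
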