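import Pool.Agent.Helper91.AV.Def

/-!
# The 2-Selmer group and the 2-torsion of the Tate-Shafarevich group (as sets of classes of cocycles)
-/

set_option autoImplicit false
set_option linter.all false

open Polynomial IsDedekindDomain NumberField
open scoped Classical

namespace Pool.Agent.Helper91.AV

open Pool.Agent.N874.PP (sW)
open Pool.Agent.N874.QM (IsLoc)
open Pool.Agent.TH115.GD (Pt act rs IsCoc LocTriv Comp Sep)

section sel

variable {F : Type} [Field F] [NumberField F]

/-- Two cocycles of the 2-Selmer group are equivalent if they differ by the coboundary of a point of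
order two. -/
def selS (W : WeierstrassCurve F) :
    Setoid {φ : (Sep F ≃ₐ[F] Sep F) → Pt W (Sep F) // SelCoc W φ} where
  r φ ψ := Cob W φ.1 ψ.1
  iseqv := by
    refine ⟨fun φ => ⟨0, smul_zero _, fun σ => by rw [map_zero]; abel⟩, ?_, ?_⟩
    · rintro φ ψ ⟨T, h2, h⟩
      refine ⟨-T, by rw [smul_neg, h2, neg_zero], fun σ => ?_⟩
      rw [h σ, map_neg]
      abel
    · rintro φ ψ χ ⟨T, h2, h⟩ ⟨T', h2', h'⟩
      refine ⟨T + T', by rw [smul_add, h2, h2', add_zero], fun σ => ?_⟩
      rw [h σ, h' σ, map_add]
      abel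

/-- The 2-Selmer group (as a set): the classes of the cocycles with values in the group of the points
of order two of `W` over a separable closure of `F` which are trivial in `W` at all places of `F`,
modulo the coboundaries. -/
def Sel2 (W : WeierstrassCurve F) : Type := Quotient (selS W)


/-- The equivalence relation with the finite places only. -/
def selSF (W : WeierstrassCurve F) :
    Setoid {φ : (Sep F ≃ₐ[F] Sep F) → Pt W (Sep F) // SelCocF W φ} where
  r φ ψ := Cob W φ.1 ψ.1
  iseqv := by
    refine ⟨fun φ => ⟨0, smul_zero _, fun σ => by rw [map_zero]; abel⟩, ?_, ?_⟩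
    · rintro φ ψ ⟨T, h2, h⟩
      refine ⟨-T, by rw [smul_neg, h2, neg_zero], fun σ => ?_⟩
      rw [h σ, map_neg]
      abel
    · rintro φ ψ χ ⟨T, h2, h⟩ ⟨T', h2', h'⟩
      refine ⟨T + T', by rw [smul_add, h2, h2', add_zero], fun σ => ?_⟩
      rw [h σ, h' σ, map_add]
      abel

/-- The 2-Selmer group with the local conditions at the finite places only. -/
def Sel2F (W : WeierstrassCurve F) : Type := Quotient (selSF W)

/-- The cocycles which are trivial at all places and whose double is a coboundary. -/
structure ShaCoc (W : WeierstrassCurve F) (φ : (Sep F ≃ₐ[F] Sep F) → Pt W (Sep F)) : Prop where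
  coc : IsCoc W φ
  loc : IsLoc W φ
  two : ∃ Q : Pt W (Sep F), ∀ σ, (2 : ℕ) • φ σ = act W (rs F σ) Q - Q

/-- Two cocycles are equivalent if they differ by a coboundary. -/
def shaS (W : WeierstrassCurve F) :
    Setoid {φ : (Sep F ≃ₐ[F] Sep F) → Pt W (Sep F) // ShaCoc W φ} where
  r φ ψ := ∃ T : Pt W (Sep F), ∀ σ, φ.1 σ = ψ.1 σ + (act W (rs F σ) T - T)
  iseqv := by
    refine ⟨fun φ => ⟨0, fun σ => by rw [map_zero]; abel⟩, ?_, ?_⟩
    · rintro φ ψ ⟨T, h⟩
      refine ⟨-T, fun σ => ?_⟩
      rw [h σ, map_neg]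
      abel
    · rintro φ ψ χ ⟨T, h⟩ ⟨T', h'⟩
      refine ⟨T + T', fun σ => ?_⟩
      rw [h σ, h' σ, map_add]
      abel

/-- The 2-torsion of the Tate-Shafarevich group (as a set). -/
def Sha2 (W : WeierstrassCurve F) : Type := Quotient (shaS W)

end sel

end Pool.Agent.Helper91.AV
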