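import Pool.Agent.Helper91.AV.Orb
import Pool.Agent.Helper91.AV.Sel
import Pool.Graph.R_pool_sql_team_seeded_63374d34.N61.PF.Fin1

/-!
# Project AV, part AVG: the sum of the orders of the 2-Selmer groups
-/

set_option autoImplicit false
set_option linter.all false

open Polynomial IsDedekindDomain Matrix NumberField
open scoped Classical

namespace Pool.Agent.Helper91.AV

open Pool.Agent.N783.PF
open Pool.Agent.N352.PJ (Mt Typ dd)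
open Pool.Agent.N783.PQ (chp form Dist Gap Mid Deep eA eB eU uu)
open Pool.Agent.N874.PP (sW Rt)
open Pool.Agent.N874.PM (PLoc)
open Pool.Agent.N874.QM (IsLoc)
open Pool.Agent.N61.PF (pol pol_natDegree pol_monic pol_coeff0 pol_coeff1 pol_coeff2 ht_pol disc_ne)
open Pool.Agent.TH115.GD (Pt act rs IsCoc LocTriv Comp Sep)

/-- The field `F(θ)`. -/
structure LD {F : Type} [Field F] [NumberField F] (f : (𝓞 F)[X]) : Type 1 where
  L : Type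
  [fl : Field L]
  [nf : NumberField L]
  [al : Algebra F L]
  θ : L
  hG : IsGen 1 f θ

attribute [instance] LD.fl LD.nf LD.al

/-- The bound for the sum of the orders of the 2-Selmer groups. -/
def S_AVG : Prop := ∀ (F : Type) [Field F] [NumberField F], ∃ C₀ : ℕ, ∀ B : ℕ, 1 ≤ B →
  ∀ U : Finset (𝓞 F × 𝓞 F), (∀ p ∈ U, Bd (p.1 : F) ((B : ℝ) ^ 2) ∧ Bd (p.2 : F) ((B : ℝ) ^ 3) ∧
    Irreducible (X ^ 3 + C (p.1 : F) * X + C (p.2 : F) : F[X])) →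
  ∀ T : ∀ p : 𝓞 F × 𝓞 F, Finset (Sel2F (sW (p.1 : F) (p.2 : F))),
    ∑ p ∈ U, (T p).card ≤ C₀ * B ^ (5 * Module.finrank ℚ F)

section one

variable {F : Type} [Field F] [NumberField F]

theorem fF_pol (a b : 𝓞 F) : fF (pol a b) = X ^ 3 + C (a : F) * X + C (b : F) := by
  unfold pol
  simp [fF]

theorem LD.rt {a b : 𝓞 F} (D : LD (pol a b)) : Rt (a : F) (b : F) D.θ := by
  have h1 := D.hG.root
  rw [fF_pol] at h1
  unfold Rt
  simpa using h1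

theorem LD.rk {f : (𝓞 F)[X]} (D : LD f) : Module.finrank F D.L = 3 := D.hG.rank

theorem one (hLBA : S_LBA) (hLATL : S_LATL) (hLPC : S_LPC) : ∃ κ : ℕ, ∀ (a b : 𝓞 F) (B N : ℕ),
    Bd (a : F) ((B : ℝ) ^ 2) → Bd (b : F) ((B : ℝ) ^ 3) → 2 ^ κ * B ≤ 4 ^ N →
    ∀ (D : LD (pol a b)) (h : F[X]), PS (a : F) (b : F) h → ¬ IsSquare (aeval D.θ h) →
    ∃ w, (Typ 1 w ∧ Gap 1 N w ∧ Mid 1 N w) ∧ ∃ A A' : Mt 1 (𝓞 F), Box 1 N κ w A A' ∧
      chp (mF A) (mF A') = fF (pol a b) ∧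
      ∃ e : Fin (2 * 1 + 1) → D.L, LinearIndependent F e ∧ Gr D.hG (aeval D.θ h) e A A' := by
  obtain ⟨κ, hκ⟩ := hLBA 1 F le_rfl
  refine ⟨κ, fun a b B N ha hb hBN D h hPS hns => ?_⟩
  obtain ⟨h0, hn⟩ := hPS.nrm D.L D.θ D.rt D.rk
  obtain ⟨Λ, hΛ⟩ := hLATL 1 F D.L (pol a b) D.θ D.hG (aeval D.θ h) h0
    (fun w => hLPC F D.L a b (pol a b) D.θ D.hG h rfl h0 w (hPS.loc w))
  obtain ⟨w, h1, h2, h3, A, A', h4, h5, e, h6, h7⟩ :=
    hκ D.L (pol a b) D.θ B N D.hG (ht_pol ha hb) hBN (aeval D.θ h) Λ h0 hn hΛ hns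
  exact ⟨w, ⟨h1, h2, h3⟩, A, A', h4, h5, e, h6, h7⟩

/-- The number of pairs in the box. -/
theorem card_box (hPTS : S_PTS) : ∃ C₁ : ℕ, ∀ B : ℕ, 1 ≤ B → ∀ U : Finset (𝓞 F × 𝓞 F),
    (∀ p ∈ U, Bd (p.1 : F) ((B : ℝ) ^ 2) ∧ Bd (p.2 : F) ((B : ℝ) ^ 3)) →
    U.card ≤ C₁ * B ^ (5 * Module.finrank ℚ F) := by
  obtain ⟨-, C, hC, -, h2⟩ := hPTS F
  obtain ⟨d, hd⟩ : ∃ d, d = Module.finrank ℚ F := ⟨_, rfl⟩
  rw [← hd] at h2 ⊢
  refine ⟨⌈4 * C ^ 2⌉₊, fun B hB U hU => ?_⟩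
  have hB1 : (1 : ℝ) ≤ B := by exact_mod_cast hB
  obtain ⟨f1, n1⟩ := h2 ⊤ 0 ((B : ℝ) ^ 2) top_ne_bot (by positivity)
  obtain ⟨f2, n2⟩ := h2 ⊤ 0 ((B : ℝ) ^ 3) top_ne_bot (by positivity)
  rw [Ideal.absNorm_top, Nat.cast_one, div_one] at n1 n2
  have hsub : (U : Set (𝓞 F × 𝓞 F)) ⊆
      {a : 𝓞 F | a - 0 ∈ (⊤ : Ideal (𝓞 F)) ∧ Bd (a : F) ((B : ℝ) ^ 2)} ×ˢ
        {a : 𝓞 F | a - 0 ∈ (⊤ : Ideal (𝓞 F)) ∧ Bd (a : F) ((B : ℝ) ^ 3)} := by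
    intro p hp
    obtain ⟨h3, h4⟩ := hU p hp
    exact Set.mem_prod.mpr ⟨⟨Submodule.mem_top, h3⟩, ⟨Submodule.mem_top, h4⟩⟩
  have h3 := Set.ncard_le_ncard hsub (f1.prod f2)
  rw [Set.ncard_prod, Set.ncard_coe_finset] at h3
  have h4 : (U.card : ℝ) ≤
      ({a : 𝓞 F | a - 0 ∈ (⊤ : Ideal (𝓞 F)) ∧ Bd (a : F) ((B : ℝ) ^ 2)}.ncard : ℝ) *
        ({a : 𝓞 F | a - 0 ∈ (⊤ : Ideal (𝓞 F)) ∧ Bd (a : F) ((B : ℝ) ^ 3)}.ncard : ℝ) := by
    exact_mod_cast h3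
  have h5 : ((B : ℝ) ^ 2) ^ d + 1 ≤ 2 * ((B : ℝ) ^ 2) ^ d := by
    have := one_le_pow₀ (one_le_pow₀ hB1 (n := 2)) (n := d); linarith
  have h6 : ((B : ℝ) ^ 3) ^ d + 1 ≤ 2 * ((B : ℝ) ^ 3) ^ d := by
    have := one_le_pow₀ (one_le_pow₀ hB1 (n := 3)) (n := d); linarith
  have h7 : (U.card : ℝ) ≤ (⌈4 * C ^ 2⌉₊ : ℝ) * (B : ℝ) ^ (5 * d) := by
    calc (U.card : ℝ) ≤ _ := h4
      _ ≤ (C * (((B : ℝ) ^ 2) ^ d + 1)) * (C * (((B : ℝ) ^ 3) ^ d + 1)) :=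
          mul_le_mul n1 n2 (Nat.cast_nonneg _) (by positivity)
      _ ≤ (C * (2 * ((B : ℝ) ^ 2) ^ d)) * (C * (2 * ((B : ℝ) ^ 3) ^ d)) := by gcongr
      _ = (4 * C ^ 2) * (B : ℝ) ^ (5 * d) := by
          rw [← pow_mul, ← pow_mul]
          have : (5 * d) = 2 * d + 3 * d := by ring
          rw [this, pow_add]
          ring
      _ ≤ _ := mul_le_mul_of_nonneg_right (Nat.le_ceil _) (by positivity)
  exact_mod_cast h7

end one

theorem avg (hLBA : S_LBA) (hRC : S_RC) (hNUM : S_NUM) (hLATL : S_LATL) (hLPC : S_LPC)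
    (hCP : S_CP) (hGEN : S_GEN) (hPTS : S_PTS) : S_AVG := by
  intro F _ _
  obtain ⟨κ, hone⟩ := one (F := F) hLBA hLATL hLPC
  obtain ⟨C₂, N₀, hnum⟩ := hNUM F 1 κ le_rfl
  obtain ⟨C₁, hbox⟩ := card_box (F := F) hPTS
  obtain ⟨d, hd⟩ : ∃ d, d = Module.finrank ℚ F := ⟨_, rfl⟩
  rw [← hd] at hnum hbox ⊢
  refine ⟨C₂ * (4 ^ N₀ * 4 * 2 ^ κ) ^ (5 * d) + C₁, fun B hB U hU T => ?_⟩
  -- the parameter N
  obtain ⟨n, hn1, hn2⟩ : ∃ n : ℕ, 2 ^ κ * B ≤ 4 ^ n ∧ 4 ^ n ≤ 4 * (2 ^ κ * B) := by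
    refine ⟨Nat.clog 4 (2 ^ κ * B), Nat.le_pow_clog (by norm_num) _, ?_⟩
    rcases Nat.eq_zero_or_pos (Nat.clog 4 (2 ^ κ * B)) with h | h
    · rw [h, pow_zero]
      have : 1 ≤ 2 ^ κ * B := Nat.one_le_iff_ne_zero.2 (by positivity)
      omega
    · have h1 := Nat.pow_pred_clog_lt_self (b := 4) (by norm_num) (x := 2 ^ κ * B) (by
        by_contra hcon
        have h2 : 2 ^ κ * B ≤ 1 := by omega
        rw [Nat.clog_of_right_le_one h2] at h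
        exact absurd h (lt_irrefl 0))
      have h2 : 4 ^ Nat.clog 4 (2 ^ κ * B) = 4 * 4 ^ (Nat.clog 4 (2 ^ κ * B)).pred := by
        rw [← pow_succ']
        congr 1
        exact (Nat.succ_pred_eq_of_pos h).symm
      rw [h2]
      exact Nat.mul_le_mul_left _ h1.le
  obtain ⟨N, hN⟩ : ∃ N, N = N₀ + n := ⟨_, rfl⟩
  have hBN : 2 ^ κ * B ≤ 4 ^ N := by
    rw [hN, pow_add]
    exact hn1.trans (Nat.le_mul_of_pos_left _ (by positivity))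
  have h4N : 4 ^ N ≤ 4 ^ N₀ * 4 * 2 ^ κ * B := by
    rw [hN, pow_add]
    calc 4 ^ N₀ * 4 ^ n ≤ 4 ^ N₀ * (4 * (2 ^ κ * B)) := Nat.mul_le_mul_left _ hn2
      _ = _ := by ring
  -- the fields and the polynomials
  have hfld : ∀ p : ↥U, Nonempty (LD (pol p.1.1 p.1.2)) := by
    intro p
    obtain ⟨-, -, hirr⟩ := hU p.1 p.2
    obtain ⟨L, i1, i2, i3, θ, hG⟩ := hGEN F 1 (pol p.1.1 p.1.2) (pol_monic _ _)
      (pol_natDegree _ _) (by rw [fF_pol]; exact hirr)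
    exact ⟨⟨L, θ, hG⟩⟩
  let D : ∀ p : ↥U, LD (pol p.1.1 p.1.2) := fun p => (hfld p).some
  have hP : ∀ p : ↥U, ∃ H : Sel2F (sW (p.1.1 : F) (p.1.2 : F)) → F[X],
      (∀ q, PS (p.1.1 : F) (p.1.2 : F) (H q)) ∧
      ∀ q q', IsSquare (aeval (D p).θ (H q * H q')) → q = q' := by
    intro p
    obtain ⟨-, -, hirr⟩ := hU p.1 p.2
    obtain ⟨P, hP1, hP2, hP3⟩ := hCP F (p.1.1 : F) (p.1.2 : F) (disc_ne hirr) hirr
    choose H hH using fun q : Sel2F (sW (p.1.1 : F) (p.1.2 : F)) =>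
      hP1 (Quotient.out q).1 (Quotient.out q).2
    refine ⟨H, fun q => hP2 _ _ (hH q), fun q q' hsq => ?_⟩
    have h1 := hP3 _ _ _ _ (Quotient.out q).2 (Quotient.out q').2 (hH q) (hH q') (D p).L (D p).θ
      (D p).rt (D p).rk hsq
    have h2 : (selSF (sW (p.1.1 : F) (p.1.2 : F))).r (Quotient.out q) (Quotient.out q') := h1
    have h3 := Quotient.sound (s := selSF (sW (p.1.1 : F) (p.1.2 : F))) h2
    exact (Quotient.out_eq q).symm.trans (h3.trans (Quotient.out_eq q'))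
  choose H hPS hHsq using hP
  -- the index set
  let s : Finset (Σ p : ↥U, Sel2F (sW (p.1.1 : F) (p.1.2 : F))) :=
    (Finset.univ : Finset ↥U).sigma fun p =>
      (T p.1).filter fun q => ¬ IsSquare (aeval (D p).θ (H p q))
  have hs : ∀ i : ↥s, ¬ IsSquare (aeval (D i.1.1).θ (H i.1.1 i.1.2)) := by
    intro i
    exact (Finset.mem_filter.1 (Finset.mem_sigma.1 i.2).2).2
  have hmat : ∀ i : ↥s, ∃ w, (Typ 1 w ∧ Gap 1 N w ∧ Mid 1 N w) ∧ ∃ A A' : Mt 1 (𝓞 F),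
      Box 1 N κ w A A' ∧ chp (mF A) (mF A') = fF (pol i.1.1.1.1 i.1.1.1.2) ∧
      ∃ e : Fin (2 * 1 + 1) → (D i.1.1).L, LinearIndependent F e ∧
        Gr (D i.1.1).hG (aeval (D i.1.1).θ (H i.1.1 i.1.2)) e A A' := by
    intro i
    obtain ⟨ha, hb, -⟩ := hU i.1.1.1 i.1.1.2
    exact hone _ _ B N ha hb hBN (D i.1.1) (H i.1.1 i.1.2) (hPS _ _) (hs i)
  choose w hw A A' hbx hchp e he hgr using hmat
  have hcount := hnum N (by omega) ↥s w A A' hw hbx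
    (fun i => by
      rw [hchp i, fF_pol]
      exact (hU i.1.1.1 i.1.1.2).2.2)
    (by
      rintro i j hij ⟨M, hM0, hM1, hM2⟩
      apply hij
      have e1 : fF (pol i.1.1.1.1 i.1.1.1.2) = fF (pol j.1.1.1.1 j.1.1.1.2) := by
        rw [← hchp i, ← hchp j, ← hM1, ← hM2,
          Pool.Agent.N530.PQ.chp_act (isUnit_iff_ne_zero.2 hM0)]
      have e2 : pol i.1.1.1.1 i.1.1.1.2 = pol j.1.1.1.1 j.1.1.1.2 :=
        Polynomial.map_injective (algebraMap (𝓞 F) F) RingOfIntegers.coe_injective e1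
      have e3 : i.1.1 = j.1.1 := by
        apply Subtype.ext
        have t0 := congrArg (fun f : (𝓞 F)[X] => f.coeff 0) e2
        have t1 := congrArg (fun f : (𝓞 F)[X] => f.coeff 1) e2
        simp only [pol_coeff0, pol_coeff1] at t0 t1
        exact Prod.ext t1 t0
      obtain ⟨⟨p, q⟩, hi⟩ := i
      obtain ⟨⟨p', q'⟩, hj⟩ := j
      simp only at e3
      subst e3
      have e4 := hRC 1 F (D p).L _ _ (D p).hG _ _ _ _ _ _ _ _
        ((hPS p q).nrm (D p).L (D p).θ (D p).rt (D p).rk).1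
        ((hPS p q').nrm (D p).L (D p).θ (D p).rt (D p).rk).1
        (he ⟨⟨p, q⟩, hi⟩) (he ⟨⟨p, q'⟩, hj⟩) (hgr ⟨⟨p, q⟩, hi⟩) (hgr ⟨⟨p, q'⟩, hj⟩) M hM0 hM1 hM2
      have e5 : q = q' := hHsq p q q' (by rw [map_mul]; exact e4)
      subst e5
      rfl)
  rw [Nat.card_eq_fintype_card, Fintype.card_coe] at hcount
  have hs1 : s.card = ∑ p : ↥U, ((T p.1).filter fun q => ¬ IsSquare (aeval (D p).θ (H p q))).card :=
    Finset.card_sigma _ _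
  have hT : ∀ p : ↥U, (T p.1).card ≤
      ((T p.1).filter fun q => ¬ IsSquare (aeval (D p).θ (H p q))).card + 1 := by
    intro p
    have h1 := Finset.card_filter_add_card_filter_not
      (s := T p.1) (fun q => IsSquare (aeval (D p).θ (H p q)))
    have h2 : ((T p.1).filter fun q => IsSquare (aeval (D p).θ (H p q))).card ≤ 1 := by
      rw [Finset.card_le_one]
      intro q hq q' hq'
      refine hHsq p q q' ?_
      rw [map_mul]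
      exact (Finset.mem_filter.1 hq).2.mul (Finset.mem_filter.1 hq').2
    omega
  have hsum : ∑ p ∈ U, (T p).card ≤ s.card + U.card := by
    rw [← Finset.sum_coe_sort U (fun p => (T p).card), hs1]
    calc ∑ p : ↥U, (T p.1).card ≤ ∑ p : ↥U,
        (((T p.1).filter fun q => ¬ IsSquare (aeval (D p).θ (H p q))).card + 1) :=
          Finset.sum_le_sum fun p _ => hT p
      _ = _ := by
        rw [Finset.sum_add_distrib]
        simp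
  have hbx' := hbox B hB U (fun p hp => ⟨(hU p hp).1, (hU p hp).2.1⟩)
  have hdd : dd 1 = 5 := by simp [dd]
  have hpow : 2 ^ (d * (2 * N * dd 1)) = (4 ^ N) ^ (5 * d) := by
    rw [hdd, ← pow_mul, show (4 : ℕ) = 2 ^ 2 by norm_num, ← pow_mul]
    congr 1
    ring
  rw [hpow] at hcount
  calc ∑ p ∈ U, (T p).card ≤ s.card + U.card := hsum
    _ ≤ C₂ * (4 ^ N) ^ (5 * d) + C₁ * B ^ (5 * d) := Nat.add_le_add hcount hbx'
    _ ≤ C₂ * (4 ^ N₀ * 4 * 2 ^ κ * B) ^ (5 * d) + C₁ * B ^ (5 * d) :=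
        Nat.add_le_add_right (Nat.mul_le_mul_left _ (Nat.pow_le_pow_left h4N _)) _
    _ = _ := by
        rw [mul_pow (4 ^ N₀ * 4 * 2 ^ κ) B]
        ring

end Pool.Agent.Helper91.AV
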