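import Pool.Agent.Helper91.AV.Sel
import Pool.Agent.Helper91.AV.Def2

/-!
# Statements of two further parts of project AV (helper91)
-/

set_option autoImplicit false

open NumberField
open scoped Classical

namespace Pool.Agent.Helper91.AV

open Pool.Agent.N874.PP (sW)

/-- Balancing by units. -/
def S_UNIT : Prop := ∀ (F : Type) [Field F] [NumberField F], ∃ c : ℝ, 0 < c ∧
  ∀ t : (F →+* ℂ) → ℝ, (∀ σ, 0 < t σ) → (∀ σ, t (ComplexEmbedding.conjugate σ) = t σ) →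
  ∃ u : (𝓞 F)ˣ, ∀ σ : F →+* ℂ,
    ‖σ ((u : 𝓞 F) : F)‖ * t σ ≤ c * (∏ τ : F →+* ℂ, t τ) ^ ((1 : ℝ) / (Module.finrank ℚ F : ℝ))

/-- Isomorphic curves. -/
def S_ISO : Prop := ∀ (F : Type) [Field F] [NumberField F] (a b l : F),
  4 * a ^ 3 + 27 * b ^ 2 ≠ 0 → l ≠ 0 →
  Nonempty (Sel2 (sW a b) ≃ Sel2 (sW (l ^ 4 * a) (l ^ 6 * b))) ∧
  Nonempty (Sha2 (sW a b) ≃ Sha2 (sW (l ^ 4 * a) (l ^ 6 * b))) ∧
  Nonempty (EPt a b ≃+ EPt (l ^ 4 * a) (l ^ 6 * b))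

end Pool.Agent.Helper91.AV
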