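import Pool.Agent.Helper91.AV.Thk
import Pool.Agent.Helper91.AV.Def3

/-!
# Project AV: scaling by units
-/

set_option autoImplicit false
set_option linter.all false

open Polynomial IsDedekindDomain NumberField
open scoped Classical

namespace Pool.Agent.Helper91.AV

open Pool.Agent.N783.PF
open Pool.Agent.N874.PP (sW)

section

variable {F : Type} [Field F] [NumberField F]

/-- The pair of the isomorphic curve. -/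
noncomputable def scl (u : 𝓞 F) (p : 𝓞 F × 𝓞 F) : 𝓞 F × 𝓞 F := (u ^ 4 * p.1, u ^ 6 * p.2)

theorem norm_unit (u : (𝓞 F)ˣ) : ∏ σ : F →+* ℂ, ‖σ ((u : 𝓞 F) : F)‖ = 1 := by
  have h1 : (Algebra.norm ℚ ((u : 𝓞 F) : F) : ℂ) = ∏ σ : F →ₐ[ℚ] ℂ, σ ((u : 𝓞 F) : F) := by
    have := Algebra.norm_eq_prod_embeddings ℚ ℂ ((u : 𝓞 F) : F)
    simpa using this
  have h2 : ∏ σ : F →+* ℂ, σ ((u : 𝓞 F) : F) = ∏ σ : F →ₐ[ℚ] ℂ, σ ((u : 𝓞 F) : F) :=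
    Fintype.prod_equiv (RingHom.equivRatAlgHom F ℂ) (fun σ => σ ((u : 𝓞 F) : F))
      (fun σ => σ ((u : 𝓞 F) : F)) (fun σ => rfl)
  rw [← norm_prod, h2, ← h1]
  have h3 : |(Algebra.norm ℚ ((u : 𝓞 F) : F))| = 1 := by
    have h4 := (NumberField.isUnit_iff_norm).1 u.isUnit
    simpa [RingOfIntegers.coe_norm] using h4
  have h5 : ‖((Algebra.norm ℚ ((u : 𝓞 F) : F) : ℚ) : ℂ)‖ = ((|Algebra.norm ℚ ((u : 𝓞 F) : F)| : ℚ) : ℝ) := by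
    rw [Complex.norm_ratCast]; push_cast; rfl
  rw [h5, h3]
  norm_num

/-- Balancing. -/
theorem bal (hU : S_UNIT) : ∃ K : ℕ, 1 ≤ K ∧ ∀ (B : ℕ) (p : 𝓞 F × 𝓞 F), 1 ≤ B →
    4 * p.1 ^ 3 + 27 * p.2 ^ 2 ≠ 0 → prodHt p ≤ (B : ℝ) ^ (6 * Module.finrank ℚ F) →
    ∃ u : (𝓞 F)ˣ, Bd ((scl (u : 𝓞 F) p).1 : F) (((K * B : ℕ) : ℝ) ^ 2) ∧
      Bd ((scl (u : 𝓞 F) p).2 : F) (((K * B : ℕ) : ℝ) ^ 3) := by
  obtain ⟨c, hc, h⟩ := hU F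
  obtain ⟨K, hK⟩ := exists_nat_ge (c ^ 2)
  have hd0 : 0 < Module.finrank ℚ F := Module.finrank_pos
  obtain ⟨d, hd⟩ : ∃ d, d = Module.finrank ℚ F := ⟨_, rfl⟩
  rw [← hd] at h hd0 ⊢
  refine ⟨K + 1, by omega, fun B p hB hdisc hp => ?_⟩
  have hB1 : (1 : ℝ) ≤ B := by exact_mod_cast hB
  have hB0 : (0 : ℝ) < B := by linarith
  have hdr : (0 : ℝ) < d := by exact_mod_cast hd0
  -- the local sizes
  let m : (F →+* ℂ) → ℝ := fun σ => max (‖σ (p.1 : F)‖ ^ 3) (‖σ (p.2 : F)‖ ^ 2)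
  have hm0 : ∀ σ, 0 < m σ := by
    intro σ
    by_contra hcon
    rw [not_lt] at hcon
    have h1 : ‖σ (p.1 : F)‖ ^ 3 ≤ 0 := (le_max_left _ _).trans hcon
    have h2 : ‖σ (p.2 : F)‖ ^ 2 ≤ 0 := (le_max_right _ _).trans hcon
    have h3 : ‖σ (p.1 : F)‖ = 0 := pow_eq_zero_iff (n := 3) (by norm_num) |>.1
      (le_antisymm h1 (by positivity))
    have h4 : ‖σ (p.2 : F)‖ = 0 := pow_eq_zero_iff (n := 2) (by norm_num) |>.1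
      (le_antisymm h2 (by positivity))
    rw [norm_eq_zero, map_eq_zero] at h3 h4
    apply hdisc
    have e1 : p.1 = 0 := RingOfIntegers.coe_injective (h3.trans (map_zero _).symm)
    have e2 : p.2 = 0 := RingOfIntegers.coe_injective (h4.trans (map_zero _).symm)
    rw [e1, e2]; ring
  let t : (F →+* ℂ) → ℝ := fun σ => m σ ^ ((1 : ℝ) / 12)
  have ht0 : ∀ σ, 0 < t σ := fun σ => Real.rpow_pos_of_pos (hm0 σ) _
  obtain ⟨u, hu⟩ := h t ht0 (fun σ => by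
    show (max (‖(ComplexEmbedding.conjugate σ) (p.1 : F)‖ ^ 3)
      (‖(ComplexEmbedding.conjugate σ) (p.2 : F)‖ ^ 2)) ^ ((1 : ℝ) / 12) = _
    simp only [ComplexEmbedding.conjugate_coe_eq, RCLike.norm_conj]
    rfl)
  have hprod : (∏ τ : F →+* ℂ, t τ) ^ ((1 : ℝ) / (d : ℝ)) ≤ (B : ℝ) ^ ((1 : ℝ) / 2) := by
    have e1 : ∏ τ : F →+* ℂ, t τ = (prodHt p) ^ ((1 : ℝ) / 12) := by
      show ∏ τ : F →+* ℂ, m τ ^ ((1 : ℝ) / 12) = _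
      rw [Real.finsetProd_rpow _ _ (fun σ _ => (hm0 σ).le)]
      rfl
    have hp0 : 0 ≤ prodHt p := Finset.prod_nonneg fun σ _ => (hm0 σ).le
    rw [e1, ← Real.rpow_mul hp0]
    calc prodHt p ^ ((1 : ℝ) / 12 * (1 / d)) ≤ ((B : ℝ) ^ (6 * d)) ^ ((1 : ℝ) / 12 * (1 / d)) :=
          Real.rpow_le_rpow hp0 hp (by positivity)
      _ = (B : ℝ) ^ ((1 : ℝ) / 2) := by
          rw [← Real.rpow_natCast, ← Real.rpow_mul hB0.le]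
          congr 1
          push_cast
          field_simp
          norm_num
  have hu2 : ∀ σ : F →+* ℂ, (‖σ ((u : 𝓞 F) : F)‖ * t σ) ^ 2 ≤ c ^ 2 * B := by
    intro σ
    have h1 : ‖σ ((u : 𝓞 F) : F)‖ * t σ ≤ c * (B : ℝ) ^ ((1 : ℝ) / 2) :=
      (hu σ).trans (mul_le_mul_of_nonneg_left hprod hc.le)
    calc (‖σ ((u : 𝓞 F) : F)‖ * t σ) ^ 2 ≤ (c * (B : ℝ) ^ ((1 : ℝ) / 2)) ^ 2 :=
          pow_le_pow_left₀ (mul_nonneg (norm_nonneg _) (ht0 σ).le) h1 2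
      _ = c ^ 2 * B := by
          rw [mul_pow, ← Real.sqrt_eq_rpow, Real.sq_sqrt hB0.le]
  have ht12 : ∀ σ, t σ ^ 12 = m σ := fun σ => by
    show (m σ ^ ((1 : ℝ) / 12)) ^ 12 = m σ
    rw [← Real.rpow_natCast, ← Real.rpow_mul (hm0 σ).le]
    norm_num
  have hcK : c ^ 2 * B ≤ ((K + 1 : ℕ) : ℝ) * B := by
    push_cast
    nlinarith
  refine ⟨u, fun σ => ?_, fun σ => ?_⟩
  · show ‖σ (((u : 𝓞 F) ^ 4 * p.1 : 𝓞 F) : F)‖ ≤ _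
    push_cast
    rw [map_mul, map_pow, norm_mul, norm_pow]
    have h1 : ‖σ (p.1 : F)‖ ≤ t σ ^ 4 := by
      by_contra hcon
      rw [not_le] at hcon
      have h2 : (t σ ^ 4) ^ 3 < ‖σ (p.1 : F)‖ ^ 3 :=
        pow_lt_pow_left₀ hcon (pow_nonneg (ht0 σ).le 4) (by norm_num)
      rw [← pow_mul, ht12] at h2
      exact absurd h2 (not_lt.2 (le_max_left _ _))
    calc ‖σ ((u : 𝓞 F) : F)‖ ^ 4 * ‖σ (p.1 : F)‖ ≤ ‖σ ((u : 𝓞 F) : F)‖ ^ 4 * t σ ^ 4 := by gcongr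
      _ = ((‖σ ((u : 𝓞 F) : F)‖ * t σ) ^ 2) ^ 2 := by ring
      _ ≤ (((K + 1 : ℕ) : ℝ) * B) ^ 2 :=
          pow_le_pow_left₀ (by positivity) ((hu2 σ).trans hcK) 2
      _ = _ := by push_cast; ring
  · show ‖σ (((u : 𝓞 F) ^ 6 * p.2 : 𝓞 F) : F)‖ ≤ _
    push_cast
    rw [map_mul, map_pow, norm_mul, norm_pow]
    have h1 : ‖σ (p.2 : F)‖ ≤ t σ ^ 6 := by
      by_contra hcon
      rw [not_le] at hcon
      have h2 : (t σ ^ 6) ^ 2 < ‖σ (p.2 : F)‖ ^ 2 :=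
        pow_lt_pow_left₀ hcon (pow_nonneg (ht0 σ).le 6) (by norm_num)
      rw [← pow_mul, ht12] at h2
      exact absurd h2 (not_lt.2 (le_max_right _ _))
    calc ‖σ ((u : 𝓞 F) : F)‖ ^ 6 * ‖σ (p.2 : F)‖ ≤ ‖σ ((u : 𝓞 F) : F)‖ ^ 6 * t σ ^ 6 := by gcongr
      _ = ((‖σ ((u : 𝓞 F) : F)‖ * t σ) ^ 2) ^ 3 := by ring
      _ ≤ (((K + 1 : ℕ) : ℝ) * B) ^ 3 :=
          pow_le_pow_left₀ (by positivity) ((hu2 σ).trans hcK) 3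
      _ = _ := by push_cast; ring

end

end Pool.Agent.Helper91.AV
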