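import Pool.Agent.Helper91.AV.Def
import Pool.Graph.R_pool_sql_team_seeded_63374d34.N783.PF.Final

/-!
# Project AV, part CP: polynomials for the cocycles of the 2-Selmer group
-/

set_option autoImplicit false
set_option linter.all false

open Polynomial IsDedekindDomain Matrix NumberField
open scoped Classical

namespace Pool.Agent.Helper91.AV

open Pool.Agent.N874.PP (sW Rt sg IsBeta)
open Pool.Agent.N874.PM (PLoc)
open Pool.Agent.N874.QM (IsLoc)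
open Pool.Agent.TH115.GD (Pt act rs IsCoc LocTriv Comp Sep)

theorem cp (hGLF : Pool.Agent.N874.QM.S_GLF) (hFARC : Pool.Agent.N874.QM.S_FARC) : S_CP := by
  intro F _ _ a b hd hirr
  have h6 : (6 : F) ≠ 0 := by norm_num
  have gp3 := Pool.Agent.N630.PP.gp3
  have gp4 := Pool.Agent.N630.PP.gp4
  refine ⟨fun φ h => SelCocF (sW a b) φ ∧ ∃ β, IsBeta a b φ β ∧
    (∀ t : Sep F, Rt a b t → aeval t h = β t ^ 2) ∧ PS a b h, ?_, ?_, ?_⟩
  · intro φ hφ
    obtain ⟨β, hβ⟩ := Pool.Agent.N187.PP.gb gp3 gp4 F a b h6 hd hirr φ hφ.coc hφ.two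
    obtain ⟨h, hh, hn⟩ := Pool.Agent.N187.PP.gn gp3 gp4 F a b h6 hd hirr φ hφ.coc hφ.two β hβ
    refine ⟨h, hφ, β, hβ, hh, ?_, ?_⟩
    · intro L _ _ t ht hL
      exact hn L t ht hL
    · intro w
      exact hGLF F (Comp (𝓞 F) F w) a b h6 hd φ hφ.coc hφ.two β h hβ hh (hFARC F a b hd w)
        (hφ.loc w)
  · rintro φ h ⟨-, β, -, -, hPS⟩
    exact hPS
  · rintro φ ψ h k hφ hψ ⟨-, β, hβ, hh, -⟩ ⟨-, γ, hγ, hk, -⟩ L _ _ t ht hL hsq
    obtain ⟨t₁, t₂, t₃, n1, n2, n3, r1, r2, r3, -⟩ := Pool.Agent.N187.PP.exists_roots h6 hirr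
    have hmul := (gp3 F (Sep F) a b h6 hd t₁ t₂ t₃ r1 r2 r3 n1 n2 n3).2.1
    have htwo : ∀ σ, (2 : ℕ) • (φ σ - ψ σ) = 0 := fun σ => by
      rw [nsmul_sub, hφ.two, hψ.two, sub_zero]
    have hrt : ∀ (σ : Sep F ≃ₐ[F] Sep F) (s : Sep F), Rt a b s → Rt a b (σ s) := by
      intro σ s hs
      unfold Rt at hs ⊢
      have e := congrArg σ hs
      simpa only [map_add, map_mul, map_pow, map_zero, AlgEquiv.commutes] using e
    obtain ⟨T, hT2, hT⟩ := Pool.Agent.N187.PP.gt gp3 gp4 F a b h6 hd hirr (fun σ => φ σ - ψ σ)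
      (IsCoc.sub (sW a b) hφ.coc hψ.coc) htwo (fun s => β s * γ s) (h * k) (by
        intro s hs
        refine ⟨mul_ne_zero (hβ s hs).1 (hγ s hs).1, fun σ => ?_⟩
        have e1 : φ σ - ψ σ = φ σ + ψ σ := by
          have e2 : ψ σ + ψ σ = 0 := by rw [← two_nsmul]; exact hψ.two σ
          have e3 : -ψ σ = ψ σ := neg_eq_of_add_eq_zero_left e2
          rw [sub_eq_add_neg, e3]
        show σ (β s * γ s) = sg (φ σ - ψ σ) (σ s) * (β (σ s) * γ (σ s))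
        rw [map_mul, (hβ s hs).2 σ, (hγ s hs).2 σ, e1, hmul _ _ _ (hφ.two σ) (hψ.two σ) (hrt σ s hs)]
        ring) (by
        intro s hs
        rw [map_mul, hh s hs, hk s hs]
        ring) L t ht hL hsq
    refine ⟨T, hT2, fun σ => ?_⟩
    rw [← hT σ]
    abel

theorem cpT : S_CP :=
  cp (Pool.Agent.N42.QM.glf Pool.Agent.N630.PP.gp1 Pool.Agent.N630.PP.gp2 Pool.Agent.N630.PP.gp3
      Pool.Agent.N630.PP.gp4) Pool.Agent.N530.QM.farc

end Pool.Agent.Helper91.AV
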