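import Pool.Agent.Helper91.AV.Bal

/-!
# Project AV: isomorphism classes ordered by the product of the local heights
-/

set_option autoImplicit false
set_option linter.all false

open Polynomial IsDedekindDomain NumberField
open scoped Classical

namespace Pool.Agent.Helper91.AV

open Pool.Agent.N783.PF
open Pool.Agent.N874.PP (sW)
open Pool.Agent.N61.PF (exists_B)

section

variable {F : Type} [Field F] [NumberField F]

theorem isoRel_scl (u : (𝓞 F)ˣ) (p : 𝓞 F × 𝓞 F) : IsoRel p (scl (u : 𝓞 F) p) := by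
  refine ⟨((u : 𝓞 F) : F), ?_, ?_, ?_⟩
  · intro h
    exact u.ne_zero (RingOfIntegers.coe_injective (h.trans (map_zero _).symm))
  · show (((u : 𝓞 F) ^ 4 * p.1 : 𝓞 F) : F) = _
    push_cast; rfl
  · show (((u : 𝓞 F) ^ 6 * p.2 : 𝓞 F) : F) = _
    push_cast; rfl

theorem disc_iso {p q : 𝓞 F × 𝓞 F} (h : IsoRel p q) (hp : 4 * p.1 ^ 3 + 27 * p.2 ^ 2 ≠ 0) :
    4 * q.1 ^ 3 + 27 * q.2 ^ 2 ≠ 0 := by
  obtain ⟨l, hl, h1, h2⟩ := h
  intro h0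
  apply hp
  have e : (4 * (q.1 : F) ^ 3 + 27 * (q.2 : F) ^ 2) = 0 := by
    have := congrArg (algebraMap (𝓞 F) F) h0
    simpa only [map_add, map_mul, map_pow, map_ofNat, map_zero] using this
  rw [h1, h2] at e
  have e2 : l ^ 12 * (4 * (p.1 : F) ^ 3 + 27 * (p.2 : F) ^ 2) = 0 := by linear_combination e
  have e3 := (mul_eq_zero.1 e2).resolve_left (pow_ne_zero 12 hl)
  apply RingOfIntegers.coe_injective
  have : (algebraMap (𝓞 F) F) (4 * p.1 ^ 3 + 27 * p.2 ^ 2) = 4 * (p.1 : F) ^ 3 + 27 * (p.2 : F) ^ 2 := by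
    simp only [map_add, map_mul, map_pow, map_ofNat]
  exact this.trans (e3.trans (map_zero _).symm)

theorem irr3_iso {p q : 𝓞 F × 𝓞 F} (h : IsoRel p q) (hp : Irr3 p) : Irr3 q := by
  by_contra hcon
  obtain ⟨l, hl, h1, h2⟩ := h.symm
  obtain ⟨r, hr⟩ := (irr3_iff q).1 hcon
  refine absurd hp ((irr3_iff p).2 ⟨l ^ 2 * r, ?_⟩)
  rw [h1, h2]
  linear_combination l ^ 6 * hr

/-- The function `v` is bounded on average on boxes. -/
structure BoxAvg (v : 𝓞 F × 𝓞 F → ℝ) : Prop where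
  nonneg : ∀ p, 0 ≤ v p
  iso : ∀ p q : 𝓞 F × 𝓞 F, 4 * p.1 ^ 3 + 27 * p.2 ^ 2 ≠ 0 → IsoRel p q → v p = v q
  box : ∃ C : ℝ, 0 ≤ C ∧ ∀ B : ℕ, 1 ≤ B → ∀ U : Finset (𝓞 F × 𝓞 F),
    (∀ p ∈ U, Bd (p.1 : F) ((B : ℝ) ^ 2) ∧ Bd (p.2 : F) ((B : ℝ) ^ 3) ∧
      4 * p.1 ^ 3 + 27 * p.2 ^ 2 ≠ 0) →
    ∑ p ∈ U, v p ≤ C * (B : ℝ) ^ (5 * Module.finrank ℚ F)

theorem box_finite (hPTS : S_PTS) (B : ℕ) :
    {p : 𝓞 F × 𝓞 F | Bd (p.1 : F) ((B : ℝ) ^ 2) ∧ Bd (p.2 : F) ((B : ℝ) ^ 3)}.Finite := by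
  obtain ⟨-, C, hC, -, hup⟩ := hPTS F
  obtain ⟨fa, -⟩ := hup ⊤ 0 ((B : ℝ) ^ 2) top_ne_bot (by positivity)
  obtain ⟨fb, -⟩ := hup ⊤ 0 ((B : ℝ) ^ 3) top_ne_bot (by positivity)
  refine (fa.prod fb).subset fun p hp => ?_
  exact Set.mem_prod.2 ⟨⟨Submodule.mem_top, hp.1⟩, ⟨Submodule.mem_top, hp.2⟩⟩

/-- The interval of the height. -/
theorem exists_B' (e : ℕ) (he : 0 < e) (B₁ : ℕ) (Y : ℝ) (hB₁ : 1 ≤ B₁) (hY : (B₁ : ℝ) ^ e ≤ Y) :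
    ∃ B : ℕ, B₁ ≤ B ∧ (B : ℝ) ^ e ≤ Y ∧ Y < ((B : ℝ) + 1) ^ e := by
  have hex : ∃ n : ℕ, Y < ((n : ℝ) + 1) ^ e := by
    obtain ⟨n, hn⟩ := exists_nat_gt Y
    refine ⟨n, hn.trans_le ?_⟩
    have h1 : (1 : ℝ) ≤ (n : ℝ) + 1 := by
      have : (0 : ℝ) ≤ n := Nat.cast_nonneg n
      linarith
    have h2 : (n : ℝ) + 1 ≤ ((n : ℝ) + 1) ^ e := le_self_pow₀ h1 he.ne'
    linarith
  have hspec := Nat.find_spec hex
  have hmin : ∀ m < Nat.find hex, ((m : ℝ) + 1) ^ e ≤ Y := fun m hm =>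
    not_lt.mp (Nat.find_min hex hm)
  have hle : B₁ ≤ Nat.find hex := by
    by_contra hcon
    rw [not_le] at hcon
    have h1 : (((Nat.find hex : ℕ) : ℝ) + 1) ^ e ≤ (B₁ : ℝ) ^ e := by
      apply pow_le_pow_left₀ (by positivity)
      exact_mod_cast hcon
    linarith
  refine ⟨Nat.find hex, hle, ?_, hspec⟩
  have h1 := hmin (Nat.find hex - 1) (by omega)
  have h2 : (((Nat.find hex - 1 : ℕ) : ℝ) + 1) = (Nat.find hex : ℕ) := by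
    have : Nat.find hex - 1 + 1 = Nat.find hex := by omega
    exact_mod_cast this
  rwa [h2] at h1

theorem card_emb : Fintype.card (F →+* ℂ) = Module.finrank ℚ F :=
  NumberField.Embeddings.card F ℂ

/-- Classes: upper bound. -/
theorem cls_upper (hPTS : S_PTS) (hU : S_UNIT) {v : 𝓞 F × 𝓞 F → ℝ} (hv : BoxAvg v) :
    ∃ C : ℝ, 0 ≤ C ∧ ∀ B : ℕ, 1 ≤ B →
      (ClsLe F ((B : ℝ) ^ (6 * Module.finrank ℚ F))).Finite ∧
      ∀ T : Finset (Cls F), (∀ c ∈ T, c ∈ ClsLe F ((B : ℝ) ^ (6 * Module.finrank ℚ F))) →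
      ∑ c ∈ T, v c.rep ≤ C * (B : ℝ) ^ (5 * Module.finrank ℚ F) := by
  obtain ⟨K, hK, hbal⟩ := bal (F := F) hU
  obtain ⟨C, hC, hbox⟩ := hv.box
  refine ⟨C * (K : ℝ) ^ (5 * Module.finrank ℚ F), by positivity, fun B hB => ?_⟩
  have hKB : 1 ≤ K * B := Nat.mul_pos hK hB
  have hex : ∀ c ∈ ClsLe F ((B : ℝ) ^ (6 * Module.finrank ℚ F)), ∃ p : 𝓞 F × 𝓞 F,
      Bd (p.1 : F) (((K * B : ℕ) : ℝ) ^ 2) ∧ Bd (p.2 : F) (((K * B : ℕ) : ℝ) ^ 3) ∧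
      ∃ hp : 4 * p.1 ^ 3 + 27 * p.2 ^ 2 ≠ 0, Quotient.mk (clsS F) ⟨p, hp⟩ = c := by
    rintro c ⟨p, rfl, hp⟩
    obtain ⟨u, h1, h2⟩ := hbal B p.1 hB p.2 hp
    refine ⟨scl (u : 𝓞 F) p.1, h1, h2, disc_iso (isoRel_scl u p.1) p.2, ?_⟩
    refine Quotient.sound ?_
    exact (isoRel_scl u p.1).symm
  choose! ρ hρ1 hρ2 hρ3 hρ4 using hex
  have hinj : Set.InjOn ρ (ClsLe F ((B : ℝ) ^ (6 * Module.finrank ℚ F))) := by
    intro c hc c' hc' h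
    rw [← hρ4 c hc, ← hρ4 c' hc']
    congr 1
    exact Subtype.ext h
  constructor
  · refine Set.Finite.of_finite_image (f := ρ) ((box_finite hPTS (K * B)).subset ?_) hinj
    rintro _ ⟨c, hc, rfl⟩
    exact ⟨hρ1 c hc, hρ2 c hc⟩
  · intro T hT
    have h1 : ∑ c ∈ T, v c.rep = ∑ p ∈ T.image ρ, v p := by
      rw [Finset.sum_image (fun c hc c' hc' h => hinj (hT c hc) (hT c' hc') h)]
      refine Finset.sum_congr rfl fun c hc => ?_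
      have h2 : IsoRel c.rep (ρ c) := by
        have h3 : Quotient.mk (clsS F) (Quotient.out c) =
            Quotient.mk (clsS F) ⟨ρ c, hρ3 c (hT c hc)⟩ :=
          (Quotient.out_eq (s := clsS F) c).trans (hρ4 c (hT c hc)).symm
        exact Quotient.exact h3
      exact hv.iso _ _ (Quotient.out c).2 h2
    rw [h1]
    refine (hbox (K * B) hKB (T.image ρ) ?_).trans (le_of_eq ?_)
    · intro p hp
      obtain ⟨c, hc, rfl⟩ := Finset.mem_image.1 hp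
      exact ⟨hρ1 c (hT c hc), hρ2 c (hT c hc), hρ3 c (hT c hc)⟩
    · push_cast
      rw [mul_pow]
      ring

/-- Classes: lower bound. -/
theorem cls_lower (hPTS : S_PTS) (hMAIN : S_MAIN) : ∃ c : ℝ, 0 < c ∧ ∃ B₀ : ℕ, 1 ≤ B₀ ∧
    ∀ B : ℕ, B₀ ≤ B → ∀ X : ℝ, (B : ℝ) ^ (6 * Module.finrank ℚ F) ≤ X → (ClsLe F X).Finite →
      c * (B : ℝ) ^ (5 * Module.finrank ℚ F) ≤ ((ClsLe F X).ncard : ℝ) := by
  obtain ⟨c, hc, B₀, hB₀, h⟩ := thick (F := F) hPTS hMAIN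
  refine ⟨c, hc, B₀, hB₀, fun B hB X hX hfin => ?_⟩
  obtain ⟨U, hU1, hU2, hU3⟩ := h B hB
  have hB1 : (1 : ℝ) ≤ B := by exact_mod_cast hB₀.trans hB
  have hdisc : ∀ p ∈ U, 4 * p.1 ^ 3 + 27 * p.2 ^ 2 ≠ 0 := by
    intro p hp h0
    have h1 := Pool.Agent.N61.PF.disc_ne (hU1 p hp).2.2.1
    apply h1
    have := congrArg (algebraMap (𝓞 F) F) h0
    simpa only [map_add, map_mul, map_pow, map_ofNat, map_zero] using this
  have h1 := Set.ncard_le_ncard_of_injOn (fun p : ↥U => Quotient.mk (clsS F) ⟨p.1, hdisc p.1 p.2⟩)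
    (s := Set.univ) (t := ClsLe F X) (by
      rintro p -
      refine ⟨⟨p.1, hdisc p.1 p.2⟩, rfl, le_trans ?_ hX⟩
      obtain ⟨h2, h3, -⟩ := hU1 p.1 p.2
      show prodHt p.1 ≤ _
      unfold prodHt
      calc ∏ σ : F →+* ℂ, max (‖σ (p.1.1 : F)‖ ^ 3) (‖σ (p.1.2 : F)‖ ^ 2)
          ≤ ∏ σ : F →+* ℂ, (B : ℝ) ^ 6 := by
            refine Finset.prod_le_prod (fun σ _ => by positivity) fun σ _ => max_le ?_ ?_
            · calc ‖σ (p.1.1 : F)‖ ^ 3 ≤ ((B : ℝ) ^ 2) ^ 3 :=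
                    pow_le_pow_left₀ (norm_nonneg _) (h2 σ) 3
                _ = (B : ℝ) ^ 6 := by ring
            · calc ‖σ (p.1.2 : F)‖ ^ 2 ≤ ((B : ℝ) ^ 3) ^ 2 :=
                    pow_le_pow_left₀ (norm_nonneg _) (h3 σ) 2
                _ = (B : ℝ) ^ 6 := by ring
        _ = _ := by
            rw [Finset.prod_const, Finset.card_univ, card_emb, ← pow_mul])
    (by
      intro p _ q _ h
      exact Subtype.ext (hU2 p.1 p.2 q.1 q.2 (Quotient.exact h)))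
    hfin
  rw [Set.ncard_univ, Nat.card_eq_fintype_card, Fintype.card_coe] at h1
  calc c * (B : ℝ) ^ (5 * Module.finrank ℚ F) ≤ (U.card : ℝ) := hU3
    _ ≤ _ := by exact_mod_cast h1

/-- **Averages over the isomorphism classes.** -/
theorem cls_avg (hPTS : S_PTS) (hMAIN : S_MAIN) (hU : S_UNIT) {v : 𝓞 F × 𝓞 F → ℝ}
    (hv : BoxAvg v) : ∃ C : ℝ, 0 < C ∧ ∀ X : ℝ, (ClsLe F X).Finite ∧
      ∀ T : Finset (Cls F), (∀ c ∈ T, c ∈ ClsLe F X) →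
      ∑ c ∈ T, v c.rep ≤ C * ((ClsLe F X).ncard : ℝ) := by
  obtain ⟨C, hC, hup⟩ := cls_upper (F := F) hPTS hU hv
  obtain ⟨c, hc, B₀, hB₀, hlow⟩ := cls_lower (F := F) hPTS hMAIN
  have hd0 : 0 < Module.finrank ℚ F := Module.finrank_pos
  obtain ⟨d, hd⟩ : ∃ d, d = Module.finrank ℚ F := ⟨_, rfl⟩
  rw [← hd] at hup hlow hd0
  have hmono : ∀ X Y : ℝ, X ≤ Y → ClsLe F X ⊆ ClsLe F Y := by
    rintro X Y h c ⟨p, hp, hX⟩
    exact ⟨p, hp, hX.trans h⟩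
  have hB₀r : (1 : ℝ) ≤ B₀ := by exact_mod_cast hB₀
  refine ⟨C * 2 ^ (5 * d) / c + C * (B₀ : ℝ) ^ (5 * d) + 1, by positivity, fun X => ?_⟩
  rcases lt_or_ge X ((B₀ : ℝ) ^ (6 * d)) with hX | hX
  · obtain ⟨f0, s0⟩ := hup B₀ hB₀
    have hfin := f0.subset (hmono _ _ hX.le)
    refine ⟨hfin, fun T hT => ?_⟩
    rcases T.eq_empty_or_nonempty with hT0 | ⟨q, hq⟩
    · rw [hT0, Finset.sum_empty]
      positivity
    · have h1 := s0 T (fun c hc => hmono _ _ hX.le (hT c hc))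
      have h2 : 1 ≤ ((ClsLe F X).ncard : ℝ) := by
        exact_mod_cast (Set.ncard_pos hfin).2 ⟨q, hT q hq⟩
      have h3 : 0 ≤ C * 2 ^ (5 * d) / c := by positivity
      have h4 : 0 ≤ C * (B₀ : ℝ) ^ (5 * d) := by positivity
      nlinarith
  · obtain ⟨B, hB, hBX, hXB⟩ := exists_B' (6 * d) (by omega) B₀ X hB₀ hX
    have hB1 : 1 ≤ B := hB₀.trans hB
    have hBr : (1 : ℝ) ≤ B := by exact_mod_cast hB1
    have hX2 : X ≤ ((2 * B : ℕ) : ℝ) ^ (6 * d) := by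
      refine hXB.le.trans (pow_le_pow_left₀ (by positivity) ?_ _)
      push_cast; linarith
    obtain ⟨f1, s1⟩ := hup (2 * B) (by omega)
    have hfin := f1.subset (hmono _ _ hX2)
    refine ⟨hfin, fun T hT => ?_⟩
    have h1 := s1 T (fun c hc => hmono _ _ hX2 (hT c hc))
    have h2 := hlow B hB X hBX hfin
    have h3 : C * ((2 * B : ℕ) : ℝ) ^ (5 * d) = C * 2 ^ (5 * d) / c * (c * (B : ℝ) ^ (5 * d)) := by
      push_cast
      rw [mul_pow]; field_simp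
    have h4 : C * 2 ^ (5 * d) / c * (c * (B : ℝ) ^ (5 * d)) ≤
        C * 2 ^ (5 * d) / c * ((ClsLe F X).ncard : ℝ) :=
      mul_le_mul_of_nonneg_left h2 (by positivity)
    have h5 : 0 ≤ (C * (B₀ : ℝ) ^ (5 * d) + 1) * ((ClsLe F X).ncard : ℝ) := by positivity
    rw [h3] at h1
    linarith

end

end Pool.Agent.Helper91.AV
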