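import Mathlib

/-!
# The isomorphism classes of elliptic curves over a number field

Every elliptic curve over `F` has an equation `y ^ 2 = x ^ 3 + a x + b` with integers `a`, `b` of `F`, and
two equations define isomorphic curves if and only if `a' = l ^ 4 a`, `b' = l ^ 6 b` for an `l ≠ 0` in `F`.
-/

set_option autoImplicit false
set_option linter.all false

open NumberField
open scoped Classical

namespace Pool.Agent.Helper91.AV

section

variable {F : Type} [Field F] [NumberField F]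

/-- The curves are isomorphic over `F`. -/
def IsoRel (p q : 𝓞 F × 𝓞 F) : Prop :=
  ∃ l : F, l ≠ 0 ∧ (q.1 : F) = l ^ 4 * (p.1 : F) ∧ (q.2 : F) = l ^ 6 * (p.2 : F)

theorem IsoRel.symm {p q : 𝓞 F × 𝓞 F} (h : IsoRel p q) : IsoRel q p := by
  obtain ⟨l, hl, h1, h2⟩ := h
  refine ⟨l⁻¹, inv_ne_zero hl, ?_, ?_⟩
  · rw [h1]; field_simp
  · rw [h2]; field_simp

theorem IsoRel.trans {p q r : 𝓞 F × 𝓞 F} (h : IsoRel p q) (h' : IsoRel q r) : IsoRel p r := by
  obtain ⟨l, hl, h1, h2⟩ := h
  obtain ⟨m, hm, h3, h4⟩ := h'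
  refine ⟨m * l, mul_ne_zero hm hl, ?_, ?_⟩
  · rw [h3, h1]; ring
  · rw [h4, h2]; ring

theorem IsoRel.refl (p : 𝓞 F × 𝓞 F) : IsoRel p p := ⟨1, one_ne_zero, by ring, by ring⟩

/-- The product of the local heights. -/
noncomputable def prodHt (p : 𝓞 F × 𝓞 F) : ℝ :=
  ∏ σ : F →+* ℂ, max (‖σ (p.1 : F)‖ ^ 3) (‖σ (p.2 : F)‖ ^ 2)

/-- Isomorphism of the curves with integral equations. -/
def clsS (F : Type) [Field F] [NumberField F] :
    Setoid {p : 𝓞 F × 𝓞 F // 4 * p.1 ^ 3 + 27 * p.2 ^ 2 ≠ 0} where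
  r p q := IsoRel p.1 q.1
  iseqv := ⟨fun p => IsoRel.refl p.1, fun h => h.symm, fun h h' => h.trans h'⟩

/-- The isomorphism classes of elliptic curves over `F`. -/
def Cls (F : Type) [Field F] [NumberField F] : Type := Quotient (clsS F)

/-- A representative. -/
noncomputable def Cls.rep (c : Cls F) : 𝓞 F × 𝓞 F := (Quotient.out c).1

/-- The classes with an integral equation such that the product of the local heights is at most `X`. -/
def ClsLe (F : Type) [Field F] [NumberField F] (X : ℝ) : Set (Cls F) :=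
  {c | ∃ p, Quotient.mk (clsS F) p = c ∧ prodHt p.1 ≤ X}

end

end Pool.Agent.Helper91.AV
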