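import Pool.Graph.R_pool_sql_team_seeded_63374d34.N783.PF.Fin

/-!
# The average order of the 2-Selmer groups over a number field: statements of the parts

Project AV (helper91). `IsGen`, `Lat`, `Gr` are in `N783/PF/Lat.lean`, `Ht`, `Bd`, `Box`, `fF`, `mF` in
`N783/PF/Def.lean`, `Typ`, `Mt`, `dd` in `N352/PJ/Def.lean`, `chp`, `Gap`, `Mid`, `eA`, `eU` in
`N783/PQ/Def.lean`, `PLoc` in `N874/PM/Stm.lean`.
-/

set_option autoImplicit false
set_option linter.all false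

open Polynomial IsDedekindDomain Matrix NumberField
open scoped Classical

namespace Pool.Agent.Helper91.AV

open Pool.Agent.N783.PF
open Pool.Agent.N352.PJ (Mt Typ dd)
open Pool.Agent.N783.PQ (chp form Dist Gap Mid Deep eA eB eU uu)
open Pool.Agent.N874.PP (Ev Sq1 U0 sW)
open Pool.Agent.N874.PM (PLoc)
open Pool.Agent.N874.QM (IsLoc)
open Pool.Agent.TH115.GD (Pt act rs IsCoc LocTriv Comp Sep)

/-! ### From lattices to pairs of matrices -/

/-- A lattice for a class `α` which is not a square gives a pair of symmetric matrices, the Gram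
matrices of linearly independent vectors. -/
def S_LBA : Prop := ∀ (g : ℕ) (F : Type) [Field F] [NumberField F], 1 ≤ g → ∃ κ : ℕ,
  ∀ (L : Type) [Field L] [NumberField L] [Algebra F L] (f : (𝓞 F)[X]) (θ : L) (B N : ℕ),
  ∀ hG : IsGen g f θ, Ht g B f → 2 ^ κ * B ≤ 4 ^ N →
  ∀ (α : L) (Λ : Submodule (𝓞 F) L), α ≠ 0 → IsSquare (Algebra.norm F α) → Lat hG α Λ →
  ¬ IsSquare α → ∃ w, Typ g w ∧ Gap g N w ∧ Mid g N w ∧
    ∃ A A' : Mt g (𝓞 F), Box g N κ w A A' ∧ chp (mF A) (mF A') = fF f ∧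
    ∃ e : Fin (2 * g + 1) → L, LinearIndependent F e ∧ Gr hG α e A A'

/-- The pairs of matrices determine the class up to squares. -/
def S_RC : Prop := ∀ (g : ℕ) (F L : Type) [Field F] [NumberField F] [Field L] [NumberField L]
  [Algebra F L] (f : (𝓞 F)[X]) (θ : L) (hG : IsGen g f θ) (α α' : L)
  (e e' : Fin (2 * g + 1) → L) (A A' B B' : Mt g (𝓞 F)), α ≠ 0 → α' ≠ 0 →
  LinearIndependent F e → LinearIndependent F e' → Gr hG α e A A' → Gr hG α' e' B B' →
  ∀ T : Mt g F, T.det ≠ 0 → Tᵀ * mF A * T = mF B → Tᵀ * mF A' * T = mF B' → IsSquare (α * α')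

/-! ### Counting -/

/-- The pairs are not equivalent over `F`. -/
def Neq {F : Type} [Field F] [NumberField F] {g : ℕ} (A A' B B' : Mt g (𝓞 F)) : Prop :=
  ¬ ∃ T : Mt g F, T.det ≠ 0 ∧ Tᵀ * mF A * T = mF B ∧ Tᵀ * mF A' * T = mF B'

/-- Every class gives many pairs. -/
def S_ORBA : Prop := ∀ (F : Type) [Field F] [NumberField F] (g : ℕ), ∃ κ C : ℕ, ∀ (c N : ℕ)
  (w : Fin (2 * g + 1) → ℤ), Typ g w →
  {p : Mt g (𝓞 F) × Mt g (𝓞 F) | Box g (N + κ) (c + κ) w p.1 p.2}.Finite →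
  ∀ (ι : Type) [Finite ι] (A A' : ι → Mt g (𝓞 F)), (∀ i, Box g N c w (A i) (A' i)) →
  (∀ i, Irreducible (chp (mF (A i)) (mF (A' i)))) →
  (∀ i j, i ≠ j → Neq (A i) (A' i) (A j) (A' j)) →
  Nat.card ι * 2 ^ (Module.finrank ℚ F * eU g w) ≤
    C * {p : Mt g (𝓞 F) × Mt g (𝓞 F) | Box g (N + κ) (c + κ) w p.1 p.2}.ncard

/-- The number of the classes of pairs. -/
def S_NUM : Prop := ∀ (F : Type) [Field F] [NumberField F] (g c : ℕ), 1 ≤ g → ∃ C N₀ : ℕ,
  ∀ N ≥ N₀, ∀ (ι : Type) [Finite ι] (w : ι → Fin (2 * g + 1) → ℤ) (A A' : ι → Mt g (𝓞 F)),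
  (∀ i, Typ g (w i) ∧ Gap g N (w i) ∧ Mid g N (w i)) → (∀ i, Box g N c (w i) (A i) (A' i)) →
  (∀ i, Irreducible (chp (mF (A i)) (mF (A' i)))) →
  (∀ i j, i ≠ j → Neq (A i) (A' i) (A j) (A' j)) →
  Nat.card ι ≤ C * 2 ^ (Module.finrank ℚ F * (2 * N * dd g))

/-! ### Local lattices -/

section loc

variable {F L : Type} [Field F] [NumberField F] [Field L] [NumberField L] [Algebra F L]
  {g : ℕ} {f : (𝓞 F)[X]} {θ : L}

/-- All coordinates of `z` with respect to `1`, `θ`, ..., `θ ^ (2 g)` are integral at `w`. -/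
def RI (w : HeightOneSpectrum (𝓞 F)) (hG : IsGen g f θ) (z : L) : Prop :=
  ∀ i, w.valuation F (hG.basis.repr z i) ≤ 1

/-- `α` is up to squares and units at `w` equal to `1` or to `x - θ`, where `x` is integral at `w` and
`f(x)` is of even valuation. -/
def LP (w : HeightOneSpectrum (𝓞 F)) (hG : IsGen g f θ) (α : L) : Prop :=
  ∃ s ε : L, s ≠ 0 ∧ ε ≠ 0 ∧ RI w hG ε ∧ RI w hG ε⁻¹ ∧
    (α = ε * s ^ 2 ∨ ∃ x y : F, w.valuation F x ≤ 1 ∧ y ≠ 0 ∧
      w.valuation F (eval x (fF f)) = w.valuation F y ^ 2 ∧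
      α = ε * (algebraMap F L x - θ) * s ^ 2)

end loc

/-- A global lattice from the local conditions. -/
def S_LATL : Prop := ∀ (g : ℕ) (F L : Type) [Field F] [NumberField F] [Field L] [NumberField L]
  [Algebra F L] (f : (𝓞 F)[X]) (θ : L) (hG : IsGen g f θ) (α : L), α ≠ 0 →
  (∀ w : HeightOneSpectrum (𝓞 F), LP w hG α) → ∃ Λ : Submodule (𝓞 F) L, Lat hG α Λ

/-- From points over the completions to the local conditions. -/
def S_LPC : Prop := ∀ (F L : Type) [Field F] [NumberField F] [Field L] [NumberField L]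
  [Algebra F L] (a b : 𝓞 F) (f : (𝓞 F)[X]) (θ : L) (hG : IsGen 1 f θ) (h : F[X]),
  f = X ^ 3 + C a * X + C b → aeval θ h ≠ 0 →
  ∀ w : HeightOneSpectrum (𝓞 F), PLoc (w.adicCompletion F) (a : F) (b : F) h →
    LP w hG (aeval θ h)

/-! ### The 2-Selmer group -/

section sel

variable {F : Type} [Field F] [NumberField F]

/-- The cocycles with values in the group of the points of order two which are trivial at all places. -/
structure SelCoc (W : WeierstrassCurve F) (φ : (Sep F ≃ₐ[F] Sep F) → Pt W (Sep F)) : Prop where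
  coc : IsCoc W φ
  two : ∀ σ, (2 : ℕ) • φ σ = 0
  loc : IsLoc W φ

/-- The same with the finite places only. -/
structure SelCocF (W : WeierstrassCurve F) (φ : (Sep F ≃ₐ[F] Sep F) → Pt W (Sep F)) : Prop where
  coc : IsCoc W φ
  two : ∀ σ, (2 : ℕ) • φ σ = 0
  loc : ∀ w : HeightOneSpectrum (𝓞 F), LocTriv W (Comp (𝓞 F) F w) (Sep (Comp (𝓞 F) F w)) φ

/-- Two cocycles differ by a coboundary. -/
def Cob (W : WeierstrassCurve F) (φ ψ : (Sep F ≃ₐ[F] Sep F) → Pt W (Sep F)) : Prop :=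
  ∃ T : Pt W (Sep F), (2 : ℕ) • T = 0 ∧ ∀ σ, φ σ = ψ σ + (act W (rs F σ) T - T)

/-- The polynomial `h` describes a class of the 2-Selmer group. -/
structure PS (a b : F) (h : F[X]) : Prop where
  nrm : ∀ (L : Type) [Field L] [Algebra F L] (t : L), Pool.Agent.N874.PP.Rt a b t →
    Module.finrank F L = 3 → aeval t h ≠ 0 ∧ IsSquare (Algebra.norm F (aeval t h))
  loc : ∀ w : HeightOneSpectrum (𝓞 F), PLoc (w.adicCompletion F) a b h

/-- Every cocycle of the 2-Selmer group has a polynomial; cocycles whose polynomials have a product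
which is a square modulo `X ^ 3 + a X + b` differ by a coboundary. -/
def S_CP : Prop := ∀ (F : Type) [Field F] [NumberField F] (a b : F), 4 * a ^ 3 + 27 * b ^ 2 ≠ 0 →
  Irreducible (X ^ 3 + C a * X + C b : F[X]) →
  ∃ P : ((Sep F ≃ₐ[F] Sep F) → Pt (sW a b) (Sep F)) → F[X] → Prop,
    (∀ φ, SelCocF (sW a b) φ → ∃ h, P φ h) ∧ (∀ φ h, P φ h → PS a b h) ∧
    ∀ φ ψ h k, SelCocF (sW a b) φ → SelCocF (sW a b) ψ → P φ h → P ψ k →
      ∀ (L : Type) [Field L] [Algebra F L] (t : L), Pool.Agent.N874.PP.Rt a b t →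
      Module.finrank F L = 3 → IsSquare (aeval t (h * k)) → Cob (sW a b) φ ψ

end sel

end Pool.Agent.Helper91.AV
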