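import Pool.Agent.Helper91.AV.Sel
import Pool.Agent.Helper91.AV.SelDef

/-!
# Comparison of the two definitions of the Selmer group: statement (helper91)
-/

set_option autoImplicit false

open NumberField

namespace Pool.Agent.Helper91.AV

/-- Comparison. -/
def S_CMP : Prop := ∀ (F : Type) [Field F] [NumberField F] (W : WeierstrassCurve F),
  ∃ Φ : Pool.Agent.TH841.SH.D.Coch W →
    (Pool.Agent.TH115.GD.Sep F ≃ₐ[F] Pool.Agent.TH115.GD.Sep F) →
    Pool.Agent.TH115.GD.Pt W (Pool.Agent.TH115.GD.Sep F),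
    (∀ f ∈ selCoc W 2, SelCocF W (Φ f)) ∧ ∀ f g, Cob W (Φ f) (Φ g) → f - g ∈ cobTor W 2

end Pool.Agent.Helper91.AV
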