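import Pool.Agent.Helper91.AV.SelDef
import Pool.Agent.Helper91.AV.Def2

/-!
# The exact sequence of the 2-Selmer group: statement (helper91)
-/

set_option autoImplicit false

open NumberField
open scoped Classical

namespace Pool.Agent.Helper91.AV

/-- The elements of the Tate-Shafarevich group killed by two. -/
def ShaTwo {F : Type} [Field F] [NumberField F] (W : WeierstrassCurve F) : Type :=
  {x : Pool.Agent.TH841.NF.D.Sha W // 2 • x = 0}

/-- The exact sequence. -/
def S_KUM : Prop := ∀ (F : Type) [Field F] [NumberField F] (a b : F),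
  4 * a ^ 3 + 27 * b ^ 2 ≠ 0 → Finite (Selmer (⟨0, 0, 0, a, b⟩ : WeierstrassCurve F) 2) →
  Finite (ShaTwo (⟨0, 0, 0, a, b⟩ : WeierstrassCurve F)) ∧
  idx2 (EPt a b) * Nat.card (ShaTwo (⟨0, 0, 0, a, b⟩ : WeierstrassCurve F)) =
    Nat.card (Selmer (⟨0, 0, 0, a, b⟩ : WeierstrassCurve F) 2)

end Pool.Agent.Helper91.AV
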