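import Pool.Agent.Helper91.AV.Kum

/-!
# Project AV: sums over the family of all curves
-/

set_option autoImplicit false
set_option linter.all false

open Polynomial IsDedekindDomain NumberField
open scoped Classical

namespace Pool.Agent.Helper91.AV

open Pool.Agent.N783.PF
open Pool.Agent.N874.PP (sW)
open Pool.Agent.N61.PF (crv_finite crv_upper ht_lower crv_of_ht exists_B eq_pol)

section

variable {F : Type} [Field F] [NumberField F]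

/-- The polynomial `X ^ 3 + a X + b` is irreducible, in other words: there is no point of order two. -/
def Irr3 (p : 𝓞 F × 𝓞 F) : Prop := Irreducible (X ^ 3 + C (p.1 : F) * X + C (p.2 : F) : F[X])

theorem exists_bd (x : F) : ∃ R : ℕ, Bd x (R : ℝ) := by
  obtain ⟨R, hR⟩ := exists_nat_ge (∑ σ : F →+* ℂ, ‖σ x‖)
  refine ⟨R, fun σ => ?_⟩
  exact (Finset.single_le_sum (f := fun σ : F →+* ℂ => ‖σ x‖) (fun _ _ => norm_nonneg _)
    (Finset.mem_univ σ)).trans hR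

theorem sel_finite (h : S_AVG) (p : 𝓞 F × 𝓞 F) (hp : Irr3 p) :
    Finite (Sel2F (sW (p.1 : F) (p.2 : F))) := by
  obtain ⟨C₀, h0⟩ := h F
  obtain ⟨R₁, h1⟩ := exists_bd (p.1 : F)
  obtain ⟨R₂, h2⟩ := exists_bd (p.2 : F)
  obtain ⟨B, hB⟩ : ∃ B : ℕ, B = R₁ + R₂ + 1 := ⟨_, rfl⟩
  have hB1 : 1 ≤ B := by omega
  have hr1 : (R₁ : ℝ) ≤ (B : ℝ) ^ 2 := by
    have e1 : (R₁ : ℝ) ≤ B := by exact_mod_cast (by omega : R₁ ≤ B)
    have e2 : (B : ℝ) ≤ (B : ℝ) ^ 2 := le_self_pow₀ (by exact_mod_cast hB1) (by norm_num)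
    linarith
  have hr2 : (R₂ : ℝ) ≤ (B : ℝ) ^ 3 := by
    have e1 : (R₂ : ℝ) ≤ B := by exact_mod_cast (by omega : R₂ ≤ B)
    have e2 : (B : ℝ) ≤ (B : ℝ) ^ 3 := le_self_pow₀ (by exact_mod_cast hB1) (by norm_num)
    linarith
  by_contra hcon
  rw [not_finite_iff_infinite] at hcon
  obtain ⟨T, hT⟩ := Infinite.exists_subset_card_eq (Sel2F (sW (p.1 : F) (p.2 : F)))
    (C₀ * B ^ (5 * Module.finrank ℚ F) + 1)
  have h3 := h0 B hB1 {p} (by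
    intro q hq
    rw [Finset.mem_singleton] at hq
    subst hq
    exact ⟨fun σ => (h1 σ).trans hr1, fun σ => (h2 σ).trans hr2, hp⟩)
    (fun q => if hq : q = p then hq ▸ T else ∅)
  rw [Finset.sum_singleton] at h3
  simp only [dite_true] at h3
  omega

theorem sum_sel (h : S_AVG) : ∃ C₀ : ℕ, ∀ B : ℕ, 1 ≤ B → ∀ U : Finset (𝓞 F × 𝓞 F),
    (∀ p ∈ U, Bd (p.1 : F) ((B : ℝ) ^ 2) ∧ Bd (p.2 : F) ((B : ℝ) ^ 3) ∧ Irr3 p) →
    ∑ p ∈ U, Nat.card (Sel2F (sW (p.1 : F) (p.2 : F))) ≤ C₀ * B ^ (5 * Module.finrank ℚ F) := by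
  obtain ⟨C₀, h0⟩ := h F
  refine ⟨C₀, fun B hB U hU => ?_⟩
  have hT : ∀ p : 𝓞 F × 𝓞 F, ∃ T : Finset (Sel2F (sW (p.1 : F) (p.2 : F))),
      Irr3 p → T.card = Nat.card (Sel2F (sW (p.1 : F) (p.2 : F))) := by
    intro p
    by_cases hp : Irr3 p
    · haveI := sel_finite h p hp
      letI := Fintype.ofFinite (Sel2F (sW (p.1 : F) (p.2 : F)))
      exact ⟨Finset.univ, fun _ => by rw [Nat.card_eq_fintype_card, Finset.card_univ]⟩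
    · exact ⟨∅, fun h => absurd h hp⟩
  choose T hT using hT
  have h1 := h0 B hB U hU T
  refine le_trans (le_of_eq (Finset.sum_congr rfl fun p hp => ?_)) h1
  exact (hT p (hU p hp).2.2).symm

/-- The lower bound for the number of curves. -/
theorem crv_lower (hPTS : S_PTS) (hMAIN : S_MAIN) : ∃ c : ℝ, 0 < c ∧ ∃ B₀ : ℕ, 1 ≤ B₀ ∧
    ∀ B : ℕ, B₀ ≤ B → ∀ Y : ℝ, 27 * (B : ℝ) ^ 6 ≤ Y →
      c * (B : ℝ) ^ (5 * Module.finrank ℚ F) ≤ ({p : 𝓞 F × 𝓞 F | Crv Y p}.ncard : ℝ) := by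
  obtain ⟨-, C, hC, hlow, hup⟩ := hPTS F
  obtain ⟨c, hc, B₀, hmain⟩ := hMAIN 1 F le_rfl
  refine ⟨c / C ^ 2, by positivity, max B₀ 1, le_max_right _ _, fun B hB Y hY => ?_⟩
  have hfin := crv_finite (F := F) hPTS Y
  have hB1 : 1 ≤ B := (le_max_right _ _).trans hB
  obtain ⟨hfinH, hprop⟩ := hmain B ((le_max_left _ _).trans hB)
  have hl := ht_lower hC hlow hB1 hfinH
  have h5 : ({f : (𝓞 F)[X] | Ht 1 B f ∧ Irreducible (fF f) ∧ SelZero f ∧ Min 1 f}.ncard : ℝ) ≤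
      ({p : 𝓞 F × 𝓞 F | Crv Y p}.ncard : ℝ) := by
    have h6 := Set.ncard_le_ncard_of_injOn (fun f : (𝓞 F)[X] => (f.coeff 1, f.coeff 0))
      (s := {f : (𝓞 F)[X] | Ht 1 B f ∧ Irreducible (fF f) ∧ SelZero f ∧ Min 1 f})
      (t := {p : 𝓞 F × 𝓞 F | Crv Y p})
      (fun f hf => crv_of_ht hf.1 hf.2.1 hf.2.2.2 hY)
      (by
        intro f hf f' hf' h
        have e := Prod.mk.injEq .. ▸ h
        rw [eq_pol hf.1, eq_pol hf'.1, e.1, e.2])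
      hfin
    exact_mod_cast h6
  have hC2 : 0 < C ^ 2 := by positivity
  calc c / C ^ 2 * (B : ℝ) ^ (5 * Module.finrank ℚ F)
      ≤ c / C ^ 2 * (C ^ 2 * ({f : (𝓞 F)[X] | Ht 1 B f}.ncard : ℝ)) :=
        mul_le_mul_of_nonneg_left hl (by positivity)
    _ = c * ({f : (𝓞 F)[X] | Ht 1 B f}.ncard : ℝ) := by field_simp
    _ ≤ _ := hprop.trans h5

/-- A bound for the sums over boxes gives a bound for the sums over the family. -/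
theorem fam_of_box (hPTS : S_PTS) (hMAIN : S_MAIN) (P : 𝓞 F × 𝓞 F → Prop) (v : 𝓞 F × 𝓞 F → ℝ)
    (hv : ∀ p, 0 ≤ v p) (C₀ : ℝ) (hC₀ : 0 ≤ C₀)
    (h : ∀ B : ℕ, 1 ≤ B → ∀ U : Finset (𝓞 F × 𝓞 F),
      (∀ p ∈ U, Bd (p.1 : F) ((B : ℝ) ^ 2) ∧ Bd (p.2 : F) ((B : ℝ) ^ 3) ∧
        4 * p.1 ^ 3 + 27 * p.2 ^ 2 ≠ 0 ∧ P p) →
      ∑ p ∈ U, v p ≤ C₀ * (B : ℝ) ^ (5 * Module.finrank ℚ F)) :
    ∃ C : ℝ, 0 < C ∧ ∀ (Y : ℝ) (U : Finset (𝓞 F × 𝓞 F)), (∀ p ∈ U, Crv Y p ∧ P p) →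
      ∑ p ∈ U, v p ≤ C * ({p : 𝓞 F × 𝓞 F | Crv Y p}.ncard : ℝ) := by
  obtain ⟨c, hc, B₀, hB₀, hlow⟩ := crv_lower (F := F) hPTS hMAIN
  obtain ⟨d, hd⟩ : ∃ d, d = 5 * Module.finrank ℚ F := ⟨_, rfl⟩
  rw [← hd] at hlow h
  -- the box
  have hbox : ∀ B : ℕ, 1 ≤ B → ∀ Y : ℝ, Y < 27 * ((B : ℝ) + 1) ^ 6 → ∀ U : Finset (𝓞 F × 𝓞 F),
      (∀ p ∈ U, Crv Y p ∧ P p) → ∑ p ∈ U, v p ≤ C₀ * (3 * (B : ℝ)) ^ d := by
    intro B hB Y hY U hU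
    have hB1 : (1 : ℝ) ≤ B := by exact_mod_cast hB
    have h1 := h (3 * B) (by omega) U (fun p hp => ?_)
    · push_cast at h1
      exact h1
    · obtain ⟨hc, hP⟩ := hU p hp
      have hBB : (B : ℝ) + 1 ≤ 2 * B := by linarith
      have h6 : 0 < ((B : ℝ) + 1) ^ 6 := by positivity
      refine ⟨fun σ => ?_, fun σ => ?_, hc.disc, hP⟩
      · have h3 := (hc.ht σ).1
        push_cast
        by_contra hcon
        rw [not_le] at hcon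
        have h4 : ((3 * (B : ℝ)) ^ 2) ^ 3 < ‖σ (p.1 : F)‖ ^ 3 :=
          pow_lt_pow_left₀ hcon (by positivity) (by norm_num)
        have h5 : ((B : ℝ) + 1) ^ 6 ≤ (2 * (B : ℝ)) ^ 6 := pow_le_pow_left₀ (by linarith) hBB 6
        have h7 : ((3 * (B : ℝ)) ^ 2) ^ 3 = 729 * (B : ℝ) ^ 6 := by ring
        have h8 : (2 * (B : ℝ)) ^ 6 = 64 * (B : ℝ) ^ 6 := by ring
        have h9 : 0 < (B : ℝ) ^ 6 := by positivity
        nlinarith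
      · have h3 := (hc.ht σ).2
        push_cast
        by_contra hcon
        rw [not_le] at hcon
        have h4 : ((3 * (B : ℝ)) ^ 3) ^ 2 < ‖σ (p.2 : F)‖ ^ 2 :=
          pow_lt_pow_left₀ hcon (by positivity) (by norm_num)
        have h5 : ((B : ℝ) + 1) ^ 6 ≤ (2 * (B : ℝ)) ^ 6 := pow_le_pow_left₀ (by linarith) hBB 6
        have h7 : ((3 * (B : ℝ)) ^ 3) ^ 2 = 729 * (B : ℝ) ^ 6 := by ring
        have h8 : (2 * (B : ℝ)) ^ 6 = 64 * (B : ℝ) ^ 6 := by ring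
        have h9 : 0 < (B : ℝ) ^ 6 := by positivity
        nlinarith
  have hB₀r : (1 : ℝ) ≤ B₀ := by exact_mod_cast hB₀
  refine ⟨C₀ * 3 ^ d / c + C₀ * (3 * (B₀ : ℝ)) ^ d + 1, by positivity, fun Y U hU => ?_⟩
  have hfin := crv_finite (F := F) hPTS Y
  rcases lt_or_ge Y (27 * (B₀ : ℝ) ^ 6) with hY | hY
  · -- small heights
    rcases U.eq_empty_or_nonempty with hU0 | ⟨q, hq⟩
    · rw [hU0, Finset.sum_empty]
      positivity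
    · have h1 := hbox B₀ hB₀ Y (hY.trans_le (by gcongr; linarith)) U hU
      have h2 : 1 ≤ ({p : 𝓞 F × 𝓞 F | Crv Y p}.ncard : ℝ) := by
        exact_mod_cast (Set.ncard_pos hfin).2 ⟨q, (hU q hq).1⟩
      have h3 : 0 ≤ C₀ * 3 ^ d / c := by positivity
      have h4 : 0 ≤ C₀ * (3 * (B₀ : ℝ)) ^ d := by positivity
      nlinarith
  · obtain ⟨B, hB, hBY, hYB⟩ := exists_B B₀ Y hB₀ hY
    have h1 := hbox B (hB₀.trans hB) Y hYB U hU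
    have h2 := hlow B hB Y hBY
    have h3 : C₀ * (3 * (B : ℝ)) ^ d = C₀ * 3 ^ d / c * (c * (B : ℝ) ^ d) := by
      rw [mul_pow]; field_simp
    have h4 : C₀ * 3 ^ d / c * (c * (B : ℝ) ^ d) ≤
        C₀ * 3 ^ d / c * ({p : 𝓞 F × 𝓞 F | Crv Y p}.ncard : ℝ) :=
      mul_le_mul_of_nonneg_left h2 (by positivity)
    have h5 : 0 ≤ (C₀ * (3 * (B₀ : ℝ)) ^ d + 1) * ({p : 𝓞 F × 𝓞 F | Crv Y p}.ncard : ℝ) := by
      positivity
    rw [h3] at h1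
    linarith

end

end Pool.Agent.Helper91.AV
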