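import Pool.Agent.Helper91.AV.Top

/-!
# Project AV: the indices of `2 E(F)` over the family
-/

set_option autoImplicit false
set_option linter.all false

open Polynomial IsDedekindDomain NumberField
open scoped Classical

namespace Pool.Agent.Helper91.AV

open Pool.Agent.N783.PF

/-- The bound for the family of the minimal equations. -/
theorem fam_idx (hRB : S_RB) (F : Type) [Field F] [NumberField F] :
    ∃ C : ℝ, 0 < C ∧ ∀ (Y : ℝ) (U : Finset (𝓞 F × 𝓞 F)), (∀ p ∈ U, Crv Y p) →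
      ∑ p ∈ U, (idx2 (EPt (p.1 : F) (p.2 : F)) : ℝ) ≤
        C * ({p : 𝓞 F × 𝓞 F | Crv Y p}.ncard : ℝ) := by
  obtain ⟨C₀, hC₀, h⟩ := sum_idx (F := F) avgT hRB Pool.Agent.N490.PF.pts
  obtain ⟨C, hC, h1⟩ := fam_of_box (F := F) Pool.Agent.N490.PF.pts main (fun _ => True)
    (fun p => (idx2 (EPt (p.1 : F) (p.2 : F)) : ℝ)) (fun p => Nat.cast_nonneg _) C₀ hC₀
    (fun B hB U hU => h B hB U fun p hp => ⟨(hU p hp).1, (hU p hp).2.1, (hU p hp).2.2.1⟩)
  exact ⟨C, hC, fun Y U hU => h1 Y U fun p hp => ⟨hU p hp, trivial⟩⟩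

end Pool.Agent.Helper91.AV
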