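import Pool.Agent.Helper91.AV.Def2

/-!
# Project AV: finitely generated abelian groups modulo two
-/

set_option autoImplicit false
set_option linter.all false

namespace Pool.Agent.Helper91.AV

open scoped Classical

section

variable {G : Type} [AddCommGroup G]

theorem finite_two (h : Module.Finite ℤ G) :
    Finite (G ⧸ (nsmulAddMonoidHom 2 : G →+ G).range) := by
  have hfg : AddGroup.FG G := by
    rw [← Module.Finite.iff_addGroup_fg]; exact h
  have h1 : AddGroup.FG (G ⧸ (nsmulAddMonoidHom 2 : G →+ G).range) := inferInstance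
  refine AddCommGroup.finite_of_fg_torsion _ ?_
  intro x
  rw [isOfFinAddOrder_iff_nsmul_eq_zero]
  refine ⟨2, by norm_num, ?_⟩
  obtain ⟨y, rfl⟩ := QuotientAddGroup.mk_surjective x
  rw [← QuotientAddGroup.mk_nsmul, QuotientAddGroup.eq_zero_iff]
  exact ⟨y, rfl⟩

theorem idx2_ne (h : Module.Finite ℤ G) : idx2 G ≠ 0 := by
  have := finite_two h
  unfold idx2
  exact AddSubgroup.index_ne_zero_of_finite

theorem rank_idx (h : Module.Finite ℤ G) : 2 ^ Module.finrank ℤ G ≤ idx2 G := by
  have hT : Module.finrank ℤ (G ⧸ Submodule.torsion ℤ G) = Module.finrank ℤ G := by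
    unfold Module.finrank
    rw [rank_quotient_eq_of_le_torsion le_rfl]
  have h1 : Module.Finite ℤ (G ⧸ Submodule.torsion ℤ G) := inferInstance
  have h2 : Module.Free ℤ (G ⧸ Submodule.torsion ℤ G) := inferInstance
  obtain ⟨r, hr⟩ : ∃ r, r = Module.finrank ℤ G := ⟨_, rfl⟩
  let b : Module.Basis (Fin r) ℤ (G ⧸ Submodule.torsion ℤ G) :=
    (Module.finBasis ℤ (G ⧸ Submodule.torsion ℤ G)).reindex (finCongr (hT.trans hr.symm))
  let f : G →+ (Fin r → ZMod 2) :=
    { toFun := fun x i => ((b.repr (Submodule.Quotient.mk x) i : ℤ) : ZMod 2)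
      map_zero' := by ext i; simp
      map_add' := by intro x y; ext i; simp }
  have hf : Function.Surjective f := by
    intro v
    obtain ⟨x, hx⟩ := Submodule.Quotient.mk_surjective (Submodule.torsion ℤ G)
      (b.equivFun.symm fun i => ((v i).val : ℤ))
    refine ⟨x, ?_⟩
    ext i
    show ((b.repr (Submodule.Quotient.mk x) i : ℤ) : ZMod 2) = v i
    rw [hx]
    have : b.repr (b.equivFun.symm fun i => ((v i).val : ℤ)) i = ((v i).val : ℤ) := by
      rw [← Module.Basis.equivFun_apply, LinearEquiv.apply_symm_apply]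
    rw [this]
    simp
  have hker : (nsmulAddMonoidHom 2 : G →+ G).range ≤ f.ker := by
    rintro _ ⟨y, rfl⟩
    rw [AddMonoidHom.mem_ker, nsmulAddMonoidHom_apply, map_nsmul]
    ext i
    rw [Pi.smul_apply, Pi.zero_apply, two_nsmul]
    exact CharTwo.add_self_eq_zero _
  have hidx : f.ker.index = 2 ^ r := by
    rw [AddSubgroup.index_ker, AddMonoidHom.range_eq_top.2 hf]
    simp [Nat.card_eq_fintype_card]
  rw [← hr, ← hidx]
  exact Nat.le_of_dvd (Nat.pos_of_ne_zero (idx2_ne h)) (AddSubgroup.index_dvd_of_le hker)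

end

end Pool.Agent.Helper91.AV
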