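import Mathlib

/-!
# Limit laws of integer valued functions with bounded exponential moment
-/

set_option autoImplicit false
set_option linter.all false

open Filter Topology
open scoped Classical

namespace Pool.Agent.Helper91.AV

section

variable {α : Type} {S : Set α}

/-- The proportion of the members of `S` with `r p = n`. -/
noncomputable def prop (S : Set α) (r : α → ℕ) (n : ℕ) : ℝ :=
  ({p ∈ S | r p = n}.ncard : ℝ) / (S.ncard : ℝ)

theorem prop_nonneg (S : Set α) (r : α → ℕ) (n : ℕ) : 0 ≤ prop S r n :=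
  div_nonneg (Nat.cast_nonneg _) (Nat.cast_nonneg _)

theorem prop_le_one (hS : S.Finite) (r : α → ℕ) (n : ℕ) : prop S r n ≤ 1 := by
  refine div_le_one_of_le₀ ?_ (Nat.cast_nonneg _)
  exact_mod_cast Set.ncard_le_ncard (s := {p ∈ S | r p = n}) (fun p hp => hp.1) hS

theorem ncard_filter (hS : S.Finite) (P : α → Prop) [DecidablePred P] :
    {p ∈ S | P p}.ncard = (hS.toFinset.filter P).card := by
  rw [← Set.ncard_coe_finset]
  congr 1
  ext p
  simp

theorem sum_prop (hS : S.Finite) (r : α → ℕ) (g : ℕ → ℝ) (N : ℕ) :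
    ∑ n ∈ Finset.range N, g n * prop S r n =
      (∑ p ∈ hS.toFinset.filter (fun p => r p < N), g (r p)) / (S.ncard : ℝ) := by
  have h1 : ∀ n ∈ Finset.range N, g n * prop S r n =
      (∑ p ∈ hS.toFinset.filter (fun p => r p = n), g (r p)) / (S.ncard : ℝ) := by
    intro n _
    unfold prop
    rw [ncard_filter hS, mul_div_assoc']
    congr 1
    rw [Finset.sum_congr rfl (g := fun _ => g n) (fun p hp => by rw [(Finset.mem_filter.1 hp).2]),
      Finset.sum_const, nsmul_eq_mul, mul_comm]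
  rw [Finset.sum_congr rfl h1, ← Finset.sum_div]
  congr 1
  have h2 := Finset.sum_fiberwise_of_maps_to (s := hS.toFinset.filter (fun p => r p < N))
    (t := Finset.range N) (g := r) (fun p hp => Finset.mem_range.2 (Finset.mem_filter.1 hp).2)
    (fun p => g (r p))
  rw [← h2]
  refine Finset.sum_congr rfl fun n hn => ?_
  refine Finset.sum_congr ?_ fun _ _ => rfl
  ext p
  simp only [Finset.mem_filter]
  constructor
  · rintro ⟨h3, h4⟩
    exact ⟨⟨h3, h4 ▸ Finset.mem_range.1 hn⟩, h4⟩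
  · rintro ⟨⟨h3, -⟩, h4⟩
    exact ⟨h3, h4⟩

theorem markov (hS : S.Finite) (r : α → ℕ) (C : ℝ)
    (h : ∑ p ∈ hS.toFinset, (2 : ℝ) ^ r p ≤ C * (S.ncard : ℝ)) (N : ℕ) :
    (2 : ℝ) ^ N * ({p ∈ S | N ≤ r p}.ncard : ℝ) ≤ C * (S.ncard : ℝ) := by
  rw [ncard_filter hS]
  calc (2 : ℝ) ^ N * ((hS.toFinset.filter fun p => N ≤ r p).card : ℝ)
      = ∑ p ∈ hS.toFinset.filter (fun p => N ≤ r p), (2 : ℝ) ^ N := by
        rw [Finset.sum_const, nsmul_eq_mul, mul_comm]
    _ ≤ ∑ p ∈ hS.toFinset.filter (fun p => N ≤ r p), (2 : ℝ) ^ r p :=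
        Finset.sum_le_sum fun p hp =>
          pow_le_pow_right₀ (by norm_num) (Finset.mem_filter.1 hp).2
    _ ≤ ∑ p ∈ hS.toFinset, (2 : ℝ) ^ r p :=
        Finset.sum_le_sum_of_subset_of_nonneg (Finset.filter_subset _ _) fun _ _ _ => by positivity
    _ ≤ _ := h

end

/-- **Limit laws.** -/
theorem limit_law {α : Type} (S : ℕ → Set α) (hS : ∀ n, (S n).Finite) (hne : ∀ n, 0 < (S n).ncard)
    (r : α → ℕ) (C : ℝ)
    (h : ∀ n, ∑ p ∈ (hS n).toFinset, (2 : ℝ) ^ r p ≤ C * ((S n).ncard : ℝ)) :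
    ∃ (φ : ℕ → ℕ) (μ : ℕ → ℝ), StrictMono φ ∧
      (∀ k, Tendsto (fun n => prop (S (φ n)) r k) atTop (𝓝 (μ k))) ∧ (∀ k, 0 ≤ μ k) ∧ HasSum μ 1 ∧
      Summable (fun k => (2 : ℝ) ^ k * μ k) ∧ ∑' k, (2 : ℝ) ^ k * μ k ≤ C := by
  have hcomp : IsCompact (Set.pi Set.univ (fun _ : ℕ => Set.Icc (0 : ℝ) 1)) :=
    isCompact_univ_pi fun _ => isCompact_Icc
  obtain ⟨μ, hμ, φ, hφ, hlim⟩ := hcomp.tendsto_subseq (x := fun n => fun k => prop (S n) r k)
    (fun n k _ => ⟨prop_nonneg _ _ _, prop_le_one (hS n) _ _⟩)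
  rw [tendsto_pi_nhds] at hlim
  have hμ0 : ∀ k, 0 ≤ μ k := fun k => (hμ k (Set.mem_univ _)).1
  have hpos : ∀ n, (0 : ℝ) < ((S n).ncard : ℝ) := fun n => by exact_mod_cast hne n
  -- the partial sums
  have hpart : ∀ N, Tendsto (fun n => ∑ k ∈ Finset.range N, prop (S (φ n)) r k) atTop
      (𝓝 (∑ k ∈ Finset.range N, μ k)) := fun N => tendsto_finsetSum _ fun k _ => hlim k
  have hpart2 : ∀ N, Tendsto (fun n => ∑ k ∈ Finset.range N, (2 : ℝ) ^ k * prop (S (φ n)) r k) atTop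
      (𝓝 (∑ k ∈ Finset.range N, (2 : ℝ) ^ k * μ k)) := fun N =>
    tendsto_finsetSum _ fun k _ => (hlim k).const_mul _
  have h1 : ∀ n N, ∑ k ∈ Finset.range N, prop (S n) r k ≤ 1 := by
    intro n N
    have e := sum_prop (hS n) r (fun _ => 1) N
    simp only [one_mul] at e
    rw [e, div_le_one (hpos n), Finset.sum_const, nsmul_eq_mul, mul_one]
    have e2 : (S n).ncard = (hS n).toFinset.card := Set.ncard_eq_toFinset_card _ (hS n)
    rw [e2]
    exact_mod_cast Finset.card_filter_le _ _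
  have h2 : ∀ n N, 1 - C / 2 ^ N ≤ ∑ k ∈ Finset.range N, prop (S n) r k := by
    intro n N
    have e := sum_prop (hS n) r (fun _ => 1) N
    simp only [one_mul] at e
    rw [e, Finset.sum_const, nsmul_eq_mul, mul_one]
    have e2 : (S n).ncard = (hS n).toFinset.card := Set.ncard_eq_toFinset_card _ (hS n)
    have e3 := Finset.card_filter_add_card_filter_not (s := (hS n).toFinset) (fun p => r p < N)
    have e4 : ((hS n).toFinset.filter fun p => ¬ r p < N) =
        (hS n).toFinset.filter fun p => N ≤ r p := by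
      refine Finset.filter_congr fun p _ => not_lt
    rw [e4] at e3
    have e5 := markov (hS n) r C (h n) N
    rw [ncard_filter (hS n)] at e5
    have e6 : (((hS n).toFinset.filter fun p => r p < N).card : ℝ) +
        (((hS n).toFinset.filter fun p => N ≤ r p).card : ℝ) = ((S n).ncard : ℝ) := by
      rw [e2]; exact_mod_cast e3
    rw [le_div_iff₀ (hpos n), sub_mul, one_mul, div_mul_eq_mul_div]
    have h2N : (0 : ℝ) < 2 ^ N := by positivity
    have e7 : (((hS n).toFinset.filter fun p => N ≤ r p).card : ℝ) ≤ C * ((S n).ncard : ℝ) / 2 ^ N := by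
      rw [le_div_iff₀ h2N]; linarith
    linarith
  have h3 : ∀ n N, ∑ k ∈ Finset.range N, (2 : ℝ) ^ k * prop (S n) r k ≤ C := by
    intro n N
    rw [sum_prop (hS n) r (fun k => (2 : ℝ) ^ k) N, div_le_iff₀ (hpos n)]
    exact (Finset.sum_le_sum_of_subset_of_nonneg (Finset.filter_subset _ _)
      fun _ _ _ => by positivity).trans (h n)
  have g1 : ∀ N, ∑ k ∈ Finset.range N, μ k ≤ 1 := fun N =>
    le_of_tendsto (hpart N) (Eventually.of_forall fun n => h1 _ _)
  have g2 : ∀ N, 1 - C / 2 ^ N ≤ ∑ k ∈ Finset.range N, μ k := fun N =>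
    ge_of_tendsto (hpart N) (Eventually.of_forall fun n => h2 _ _)
  have g3 : ∀ N, ∑ k ∈ Finset.range N, (2 : ℝ) ^ k * μ k ≤ C := fun N =>
    le_of_tendsto (hpart2 N) (Eventually.of_forall fun n => h3 _ _)
  have hsum : Summable μ := summable_of_sum_range_le hμ0 g1
  have hsum2 : Summable (fun k => (2 : ℝ) ^ k * μ k) :=
    summable_of_sum_range_le (fun k => mul_nonneg (by positivity) (hμ0 k)) g3
  refine ⟨φ, μ, hφ, hlim, hμ0, ?_, hsum2, hsum2.tsum_le_of_sum_range_le g3⟩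
  have ht := hsum.hasSum.tendsto_sum_nat
  have hlow : Tendsto (fun N : ℕ => 1 - C / 2 ^ N) atTop (𝓝 (1 - C * 0)) := by
    refine tendsto_const_nhds.sub ?_
    have := (tendsto_inv_atTop_zero.comp (tendsto_pow_atTop_atTop_of_one_lt
      (show (1 : ℝ) < 2 by norm_num))).const_mul C
    refine this.congr fun N => ?_
    simp [div_eq_mul_inv]
  rw [mul_zero, sub_zero] at hlow
  have e1 : (1 : ℝ) ≤ ∑' k, μ k := le_of_tendsto_of_tendsto' hlow ht g2
  have e2 : ∑' k, μ k ≤ 1 := hsum.tsum_le_of_sum_range_le g1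
  have e3 : ∑' k, μ k = 1 := le_antisymm e2 e1
  rw [← e3]
  exact hsum.hasSum

end Pool.Agent.Helper91.AV
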