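import Pool.Agent.Helper91.AV.Orb
import Pool.Graph.R_pool_sql_team_seeded_63374d34.N850.PQ.Bad
import Pool.Graph.R_pool_sql_team_seeded_63374d34.N747.PQ.Exp

/-!
# Project AV, part NUM: the number of the classes of pairs

Adapted from `Pool.Agent.N134.PF.bad` of helper134.
-/

set_option autoImplicit false
set_option linter.all false

open Polynomial IsDedekindDomain Matrix NumberField
open scoped Classical

namespace Pool.Agent.Helper91.AV

open Pool.Agent.N783.PF
open Pool.Agent.N352.PJ (Mt Typ dd)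
open Pool.Agent.N783.PQ (chp form Dist Gap Mid Deep eA eB eU uu)
open Pool.Agent.N270.PJ (typ_mid typ_nonpos idx idx_inj min_le_sum geo growth ncard_biUnion_le)
open Pool.Agent.N850.PQ (gap_bd sum_idx_le_uu)

theorem num (h1 : S_PB) (h2 : S_PB0) (h3 : S_ORBA) : S_NUM := by
  intro F _ _ g c hg
  have h4 := Pool.Agent.N747.PQ.ide
  have h5 := Pool.Agent.N747.PQ.exp1
  obtain ⟨D, hD⟩ : ∃ D : ℕ, D = Module.finrank ℚ F := ⟨_, rfl⟩
  have hD1 : 1 ≤ D := by
    rw [hD]
    exact Module.finrank_pos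
  obtain ⟨κ, C2, hκ⟩ := h3 F g
  obtain ⟨C1, K, hC1⟩ := h1 F g (c + κ) hg
  obtain ⟨C0, hC0⟩ := h2 F g (c + κ) hg
  rw [← hD] at hκ hC1 hC0
  obtain ⟨N₀, hN₀⟩ := growth 1 g c
  refine ⟨C2 * (C1 + C0) * 2 ^ (D * (2 * κ * dd g)) * 2 ^ (g + 1), N₀,
    fun N hN ι _ wt A A' hwt hB hirr hneq => ?_⟩
  rw [← hD]
  obtain ⟨M, hM⟩ : ∃ M : ℕ, M = N + κ := ⟨_, rfl⟩
  obtain ⟨E, hE⟩ : ∃ E : ℕ, E = 2 * M * dd g := ⟨_, rfl⟩
  let P : (Fin (2 * g + 1) → ℤ) → Set ι := fun w => {i | wt i = w}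
  let X : (Fin (2 * g + 1) → ℤ) → Set (Mt g (𝓞 F) × Mt g (𝓞 F)) := fun w =>
    {p : Mt g (𝓞 F) × Mt g (𝓞 F) | Box g M (c + κ) w p.1 p.2}
  have hXe : ∀ w, {p : Mt g (𝓞 F) × Mt g (𝓞 F) |
      Xset g M (c + κ) w ∅ (fun _ => ⊥) (fun _ => 0) p.1 p.2} = X w := by
    intro w
    ext p
    exact xset_iff
  have hXfin : ∀ w, Typ g w → (X w).Finite := fun w hw => by
    rw [← hXe]
    exact (hC0 ∅ _ _ M w hw).1
  -- the types
  let T : Set (Fin (2 * g + 1) → ℤ) := {w | Typ g w ∧ Gap g N w ∧ Mid g N w}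
  have hidx : ∀ w ∈ T, idx w ∈ Fintype.piFinset fun _ : Fin g => Finset.range (2 * g * N + 1) := by
    intro w hw
    rw [Fintype.mem_piFinset]
    intro i
    rw [Finset.mem_range]
    have h5 := gap_bd hw.1 hw.2.1 (g - i) ⟨i, by omega⟩
      (by show (i : ℕ) + (g - i) = g; omega)
    have h6 : (2 : ℤ) * N * ((g - i : ℕ) : ℤ) ≤ 2 * N * g := by
      refine mul_le_mul_of_nonneg_left ?_ (by positivity)
      omega
    have h7 : (2 : ℤ) * N * g = ((2 * g * N : ℕ) : ℤ) := by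
      push_cast
      ring
    have h8 := h5.trans (h6.trans_eq h7)
    unfold idx
    omega
  have hinj : Set.InjOn (idx (g := g)) T := fun w hw w' hw' hww =>
    idx_inj hw.1 hw'.1 hww
  have hTfin : T.Finite := by
    refine Set.Finite.of_finite_image ?_ hinj
    refine (Finset.finite_toSet
      (Fintype.piFinset fun _ : Fin g => Finset.range (2 * g * N + 1))).subset ?_
    rintro _ ⟨w, hw, rfl⟩
    exact hidx w hw
  obtain ⟨V, hV⟩ : ∃ V : Finset (Fin (2 * g + 1) → ℤ), V = hTfin.toFinset := ⟨_, rfl⟩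
  have hVm : ∀ w, w ∈ V ↔ w ∈ T := fun w => by rw [hV, Set.Finite.mem_toFinset]
  have hsub : (Set.univ : Set ι) ⊆ ⋃ w ∈ V, P w := by
    intro i _
    rw [Set.mem_iUnion₂]
    exact ⟨wt i, (hVm _).2 (hwt i), rfl⟩
  have hle : Nat.card ι ≤ ∑ w ∈ V, (P w).ncard := by
    rw [← Set.ncard_univ]
    exact (Set.ncard_le_ncard hsub (Set.toFinite _)).trans (ncard_biUnion_le P V)
  obtain ⟨C, hC⟩ : ∃ C : ℕ, C = C2 * (C1 + C0) := ⟨_, rfl⟩
  have hC21 : C2 * C1 ≤ C := by
    rw [hC]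
    exact Nat.mul_le_mul_left _ (by omega)
  have hC20 : C2 * C0 ≤ C := by
    rw [hC]
    exact Nat.mul_le_mul_left _ (by omega)
  -- each term
  have hterm : ∀ w ∈ V, ((P w).ncard : ℝ) ≤
      (C * 2 ^ (D * E) : ℝ) *
        (∏ i, (1 / 2 : ℝ) ^ idx w i + 1 / ((2 * g * N + 1 : ℕ) : ℝ) ^ g) := by
    intro w hwV
    have hw := (hVm w).1 hwV
    have ho : (P w).ncard * 2 ^ (D * eU g w) ≤ C2 * (X w).ncard := by
      have := hκ c N w hw.1 (by rw [← hM]; exact hXfin w hw.1) (P w) (fun i => A i.1)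
        (fun i => A' i.1) (fun i => by
          have := hB i.1
          rwa [show wt i.1 = w from i.2] at this) (fun i => hirr i.1)
        (fun i j hij => hneq i.1 j.1 fun h => hij (Subtype.ext h))
      rw [← hM, Nat.card_coe_set_eq] at this
      exact this
    have hide := h4 g w hw.1
    have hE0 : (0 : ℝ) ≤ (C * 2 ^ (D * E) : ℝ) := by positivity
    have hgapM : Gap g M w := fun i j hij => (hw.2.1 i j hij).trans (by rw [hM]; push_cast; omega)
    by_cases hc : (1 : ℝ) ≤ (2 : ℝ) ^ (2 * (M : ℤ) + 2 * w 0)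
    · have hb := hC1 K ∅ (fun _ => ⊥) (fun _ => 0) (fun _ => 0) le_rfl
        (fun q hq => absurd hq (Finset.notMem_empty q)) M w hw.1 (by simpa using hc)
      rw [← hE, hXe] at hb
      simp only [Finset.card_empty, pow_zero, Finset.prod_empty, one_pow, one_mul] at hb
      have key : (P w).ncard * 2 ^ (∑ i, idx w i) ≤ C * 2 ^ (D * E) := by
        have hk1 : (P w).ncard * 2 ^ (D * uu g w) * 2 ^ (D * eA g w) ≤
            C2 * C1 * 2 ^ (D * E) * 2 ^ (D * eA g w) := by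
          calc (P w).ncard * 2 ^ (D * uu g w) * 2 ^ (D * eA g w)
              = (P w).ncard * 2 ^ (D * eU g w) := by
                rw [hide, mul_add, pow_add]; ring
            _ ≤ C2 * (X w).ncard := ho
            _ ≤ C2 * (C1 * 2 ^ (D * (eA g w + E))) := Nat.mul_le_mul_left _ hb
            _ = _ := by rw [mul_add, pow_add]; ring
        have hk2 : (P w).ncard * 2 ^ (D * uu g w) ≤ C2 * C1 * 2 ^ (D * E) :=
          Nat.le_of_mul_le_mul_right hk1 (by positivity)
        have hk3 : ∑ i, idx w i ≤ D * uu g w :=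
          (sum_idx_le_uu hw.1).trans (Nat.le_mul_of_pos_left _ hD1)
        calc (P w).ncard * 2 ^ (∑ i, idx w i) ≤ (P w).ncard * 2 ^ (D * uu g w) :=
              Nat.mul_le_mul_left _ (Nat.pow_le_pow_right (by omega) hk3)
          _ ≤ C2 * C1 * 2 ^ (D * E) := hk2
          _ ≤ C * 2 ^ (D * E) := Nat.mul_le_mul_right _ hC21
      have key' : ((P w).ncard : ℝ) * 2 ^ (∑ i, idx w i) ≤ C * (2 : ℝ) ^ (D * E) := by
        exact_mod_cast key
      have h8 : ∏ i, (1 / 2 : ℝ) ^ idx w i = 1 / 2 ^ (∑ i, idx w i) := by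
        rw [Finset.prod_pow_eq_pow_sum, _root_.one_div_pow]
      rw [h8]
      have h9 : ((P w).ncard : ℝ) ≤
          (C * 2 ^ (D * E) : ℝ) * (1 / 2 ^ (∑ i, idx w i)) := by
        rw [mul_one_div, le_div_iff₀ (by positivity)]
        exact key'
      refine h9.trans (mul_le_mul_of_nonneg_left ?_ hE0)
      have : (0 : ℝ) ≤ 1 / ((2 * g * N + 1 : ℕ) : ℝ) ^ g := by positivity
      linarith
    · have hb := (hC0 ∅ (fun _ => ⊥) (fun _ => 0) M w hw.1).2
      rw [hXe] at hb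
      have h50 : w 0 ≤ 0 := typ_nonpos hw.1 0 (by simp)
      -- the depth of the first step
      have hdep : (M : ℤ) ≤ - w 0 := by
        by_contra hcon
        push Not at hcon
        apply hc
        exact one_le_zpow₀ (by norm_num) (by omega)
      -- the exponent
      have hexp : eB g M w + (N - c) ≤ 2 * M + E + uu g w := by
        have hE7 : (E : ℤ) = 2 * M * dd g := by rw [hE]; push_cast; ring
        have hMN : (M : ℤ) = N + κ := by rw [hM]; push_cast; ring
        have hmid : Mid g M w := fun i hi => (hw.2.2 i hi).trans (by rw [hM]; push_cast; omega)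
        have he := h5 g M w hg hw.1 hgapM hmid
        have hm := min_le_sum M hg hw.1
        have h55 : ((N - c : ℕ) : ℤ) ≤ min (- w 0) M := by
          refine le_min ?_ ?_ <;> omega
        omega
      have h7 : (P w).ncard * 2 ^ (D * (N - c)) ≤ C * 2 ^ (D * E) := by
        have h8 : (P w).ncard * 2 ^ (D * (N - c)) * 2 ^ (D * (2 * M + eA g w + uu g w)) ≤
            C * 2 ^ (D * E) * 2 ^ (D * (2 * M + eA g w + uu g w)) := by
          calc (P w).ncard * 2 ^ (D * (N - c)) * 2 ^ (D * (2 * M + eA g w + uu g w))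
              = 2 ^ (D * (N - c)) * (2 ^ (D * (2 * M)) * ((P w).ncard * 2 ^ (D * eU g w))) := by
                rw [hide, mul_add, mul_add, mul_add, pow_add, pow_add, pow_add]; ring
            _ ≤ 2 ^ (D * (N - c)) * (2 ^ (D * (2 * M)) * (C2 * (X w).ncard)) :=
                Nat.mul_le_mul_left _ (Nat.mul_le_mul_left _ ho)
            _ = C2 * (2 ^ (D * (N - c)) * (2 ^ (D * (2 * M)) * (X w).ncard)) := by ring
            _ ≤ C2 * (2 ^ (D * (N - c)) * (C0 * 2 ^ (D * (eA g w + eB g M w)))) :=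
                Nat.mul_le_mul_left _ (Nat.mul_le_mul_left _ hb)
            _ = C2 * C0 * (2 ^ (D * eA g w) * 2 ^ (D * (eB g M w + (N - c)))) := by
                rw [mul_add, mul_add, pow_add, pow_add]; ring
            _ ≤ C2 * C0 * (2 ^ (D * eA g w) * 2 ^ (D * (2 * M + E + uu g w))) :=
                Nat.mul_le_mul_left _ (Nat.mul_le_mul_left _
                  (Nat.pow_le_pow_right (by omega) (Nat.mul_le_mul_left _ hexp)))
            _ = C2 * C0 * 2 ^ (D * E) * 2 ^ (D * (2 * M + eA g w + uu g w)) := by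
                rw [mul_add, mul_add, mul_add, mul_add, pow_add, pow_add, pow_add, pow_add]; ring
            _ ≤ C * 2 ^ (D * E) * 2 ^ (D * (2 * M + eA g w + uu g w)) :=
                Nat.mul_le_mul_right _ (Nat.mul_le_mul_right _ hC20)
        exact Nat.le_of_mul_le_mul_right h8 (by positivity)
      have key : (P w).ncard * (2 * g * N + 1) ^ g ≤ C * 2 ^ (D * E) := by
        calc (P w).ncard * (2 * g * N + 1) ^ g = (P w).ncard * (1 * (2 * g * N + 1) ^ g) := by
              ring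
          _ ≤ (P w).ncard * 2 ^ (N - c) := Nat.mul_le_mul_left _ (hN₀ N hN)
          _ ≤ (P w).ncard * 2 ^ (D * (N - c)) := Nat.mul_le_mul_left _
              (Nat.pow_le_pow_right (by omega) (Nat.le_mul_of_pos_left _ hD1))
          _ ≤ C * 2 ^ (D * E) := h7
      have key' : ((P w).ncard : ℝ) * ((2 * g * N + 1 : ℕ) : ℝ) ^ g ≤
          C * (2 : ℝ) ^ (D * E) := by
        exact_mod_cast key
      have h9 : ((P w).ncard : ℝ) ≤
          (C * 2 ^ (D * E) : ℝ) * (1 / ((2 * g * N + 1 : ℕ) : ℝ) ^ g) := by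
        rw [mul_one_div, le_div_iff₀ (by positivity)]
        exact key'
      refine h9.trans (mul_le_mul_of_nonneg_left ?_ hE0)
      have : (0 : ℝ) ≤ ∏ i, (1 / 2 : ℝ) ^ idx w i := Finset.prod_nonneg fun i _ => by positivity
      linarith
  -- the sum
  have hs1 : ∑ w ∈ V, ∏ i, (1 / 2 : ℝ) ^ idx w i ≤ 2 ^ g := by
    have hVi : Set.InjOn (idx (g := g)) (V : Set _) := fun w hw w' hw' hww =>
      hinj ((hVm w).1 (Finset.mem_coe.1 hw)) ((hVm w').1 (Finset.mem_coe.1 hw')) hww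
    calc ∑ w ∈ V, ∏ i, (1 / 2 : ℝ) ^ idx w i =
        ∑ s ∈ V.image idx, ∏ i, (1 / 2 : ℝ) ^ s i := by rw [Finset.sum_image hVi]
      _ ≤ ∑ s ∈ Fintype.piFinset fun _ : Fin g => Finset.range (2 * g * N + 1),
          ∏ i, (1 / 2 : ℝ) ^ s i := by
        refine Finset.sum_le_sum_of_subset_of_nonneg ?_ fun s _ _ =>
          Finset.prod_nonneg fun i _ => by positivity
        intro s hs
        rw [Finset.mem_image] at hs
        obtain ⟨w, hw, rfl⟩ := hs
        exact hidx w ((hVm w).1 hw)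
      _ = ∏ i : Fin g, ∑ m ∈ Finset.range (2 * g * N + 1), (1 / 2 : ℝ) ^ m := by
        rw [Finset.prod_univ_sum]
      _ ≤ ∏ i : Fin g, (2 : ℝ) := Finset.prod_le_prod
          (fun i _ => Finset.sum_nonneg fun m _ => by positivity) fun i _ => geo _
      _ = 2 ^ g := by simp
  have hs2 : ∑ w ∈ V, 1 / ((2 * g * N + 1 : ℕ) : ℝ) ^ g ≤ 1 := by
    have hcard : V.card ≤ (2 * g * N + 1) ^ g := by
      have h5 := Finset.card_le_card_of_injOn (s := V)
        (t := Fintype.piFinset fun _ : Fin g => Finset.range (2 * g * N + 1)) idx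
        (fun w hw => hidx w ((hVm w).1 (Finset.mem_coe.1 hw)))
        (fun w hw w' hw' hww =>
          hinj ((hVm w).1 (Finset.mem_coe.1 hw)) ((hVm w').1 (Finset.mem_coe.1 hw')) hww)
      refine h5.trans_eq ?_
      rw [Fintype.card_piFinset]
      simp
    rw [Finset.sum_const, nsmul_eq_mul, mul_one_div, div_le_one (by positivity)]
    exact_mod_cast hcard
  have hsum : (Nat.card ι : ℝ) ≤ C * 2 ^ (g + 1) * (2 : ℝ) ^ (D * E) := by
    have h5 : (Nat.card ι : ℝ) ≤ ∑ w ∈ V, ((P w).ncard : ℝ) := by exact_mod_cast hle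
    have h10 : (1 : ℝ) ≤ 2 ^ g := one_le_pow₀ (by norm_num)
    calc (Nat.card ι : ℝ) ≤ ∑ w ∈ V, ((P w).ncard : ℝ) := h5
      _ ≤ ∑ w ∈ V, (C * 2 ^ (D * E) : ℝ) *
          (∏ i, (1 / 2 : ℝ) ^ idx w i + 1 / ((2 * g * N + 1 : ℕ) : ℝ) ^ g) :=
          Finset.sum_le_sum hterm
      _ = (C * 2 ^ (D * E) : ℝ) * (∑ w ∈ V, ∏ i, (1 / 2 : ℝ) ^ idx w i +
            ∑ w ∈ V, 1 / ((2 * g * N + 1 : ℕ) : ℝ) ^ g) := by
          rw [← Finset.mul_sum, Finset.sum_add_distrib]
      _ ≤ (C * 2 ^ (D * E) : ℝ) * (2 ^ g + 1) :=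
          mul_le_mul_of_nonneg_left (add_le_add hs1 hs2) (by positivity)
      _ ≤ (C * 2 ^ (D * E) : ℝ) * (2 ^ g + 2 ^ g) :=
          mul_le_mul_of_nonneg_left (by linarith) (by positivity)
      _ = _ := by ring
  have hsum' : Nat.card ι ≤ C * 2 ^ (g + 1) * 2 ^ (D * E) := by
    exact_mod_cast hsum
  refine hsum'.trans (le_of_eq ?_)
  have hE8 : D * E = D * (2 * κ * dd g) + D * (2 * N * dd g) := by rw [hE, hM]; ring
  rw [hE8, pow_add, hC]
  ring

end Pool.Agent.Helper91.AV
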