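import Pool.Agent.Helper91.AV.Def
import Pool.Graph.R_pool_sql_team_seeded_63374d34.N438.PF.LB

/-!
# Project AV, part RC: the pairs of matrices determine the class up to squares
-/

set_option autoImplicit false
set_option linter.all false

open Polynomial IsDedekindDomain Matrix NumberField
open scoped Classical

namespace Pool.Agent.Helper91.AV

open Pool.Agent.N783.PF
open Pool.Agent.N352.PJ (Mt Typ dd)
open Pool.Agent.N438.PF

section rc

variable {F L : Type} [Field F] [NumberField F] [Field L] [NumberField L] [Algebra F L]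
  {g : ℕ} {f : (𝓞 F)[X]} {θ : L}

/-- The form is nondegenerate. -/
theorem top_nd (hG : IsGen g f θ) (y : L) (hy : ∀ z : L, hG.top (z * y) = 0) : y = 0 := by
  have h1 := const_of_top hG y fun m _ => hy _
  rw [hy, map_zero] at h1
  exact h1

/-- An `F`-linear map which commutes with `θ` is a multiplication. -/
theorem lin_mul (hG : IsGen g f θ) (φ : L →ₗ[F] L) (h : ∀ x, φ (θ * x) = θ * φ x) (x : L) :
    φ x = φ 1 * x := by
  have h1 : ∀ n : ℕ, φ (θ ^ n) = φ 1 * θ ^ n := by
    intro n
    induction n with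
    | zero => rw [pow_zero, mul_one]
    | succ n ih => rw [pow_succ', h, ih]; ring
  obtain ⟨c, rfl⟩ := hG.gen x
  rw [map_sum, Finset.mul_sum]
  refine Finset.sum_congr rfl fun i _ => ?_
  rw [← Algebra.smul_def, map_smul, h1, Algebra.smul_def, Algebra.smul_def]
  ring

theorem gram_sum (hG : IsGen g f θ) (γ : L) (e : Fin (2 * g + 1) → L) (M T : Mt g F)
    (hM : ∀ i j, M i j = hG.top (γ * (e i * e j))) (i j : Fin (2 * g + 1)) :
    (Tᵀ * M * T) i j = hG.top (γ * ((∑ k, T k i • e k) * ∑ l, T l j • e l)) := by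
  rw [Finset.sum_mul_sum, Finset.mul_sum, map_sum, Matrix.mul_apply]
  rw [Finset.sum_congr rfl fun l _ => by rw [Matrix.mul_apply, Finset.sum_mul]]
  rw [Finset.sum_comm]
  refine Finset.sum_congr rfl fun k _ => ?_
  rw [Finset.mul_sum, map_sum]
  refine Finset.sum_congr rfl fun l _ => ?_
  rw [Matrix.transpose_apply, hM, smul_mul_smul_comm, mul_smul_comm, map_smul, smul_eq_mul]
  ring

end rc

theorem rc : S_RC := by
  intro g F L _ _ _ _ _ f θ hG α α' e e' A A' B B' hα hα' he he' hA hB T hT hTA hTA'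
  have hfd : FiniteDimensional F L := Module.finite_of_finrank_pos (by rw [hG.rank]; omega)
  have hcard : Fintype.card (Fin (2 * g + 1)) = Module.finrank F L := by
    rw [Fintype.card_fin, hG.rank]
  -- the bases
  obtain ⟨b', hb'⟩ : ∃ b' : Module.Basis (Fin (2 * g + 1)) F L, ∀ i, b' i = e' i :=
    ⟨basisOfLinearIndependentOfCardEqFinrank he' hcard, fun i => by
      rw [coe_basisOfLinearIndependentOfCardEqFinrank]⟩
  obtain ⟨b, hb⟩ : ∃ b : Module.Basis (Fin (2 * g + 1)) F L, ∀ i, b i = e i :=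
    ⟨basisOfLinearIndependentOfCardEqFinrank he hcard, fun i => by
      rw [coe_basisOfLinearIndependentOfCardEqFinrank]⟩
  let e2 : Fin (2 * g + 1) → L := fun j => ∑ k, T k j • e k
  have he2 : LinearIndependent F e2 := by
    rw [Fintype.linearIndependent_iff]
    intro c hc
    have h1 : ∑ k, (∑ j, T k j * c j) • e k = 0 := by
      rw [← hc]
      simp only [e2, Finset.smul_sum, smul_smul, Finset.sum_smul]
      rw [Finset.sum_comm]
      refine Finset.sum_congr rfl fun j _ => Finset.sum_congr rfl fun k _ => ?_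
      rw [mul_comm]
    have h2 := Fintype.linearIndependent_iff.1 he _ h1
    have h3 : T.mulVec c = 0 := by
      funext k
      exact h2 k
    have h4 := Matrix.eq_zero_of_mulVec_eq_zero hT h3
    exact fun i => congrFun h4 i
  obtain ⟨b2, hb2⟩ : ∃ b2 : Module.Basis (Fin (2 * g + 1)) F L, ∀ i, b2 i = e2 i :=
    ⟨basisOfLinearIndependentOfCardEqFinrank he2 hcard, fun i => by
      rw [coe_basisOfLinearIndependentOfCardEqFinrank]⟩
  let φ : L →ₗ[F] L := b2.constr F e'
  have hφ : ∀ i, φ (e2 i) = e' i := fun i => by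
    rw [← hb2 i]
    exact b2.constr_basis F e' i
  -- the map respects the forms
  have hf0 : ∀ i j, hG.top (α⁻¹ * (e2 i * e2 j)) = hG.top (α'⁻¹ * (e' i * e' j)) := by
    intro i j
    have h1 := gram_sum hG α⁻¹ e (mF A) T (fun i j => by
      change ((A i j : 𝓞 F) : F) = _
      rw [hA.gA]; congr 1; ring) i j
    rw [← h1, hTA]
    change ((B i j : 𝓞 F) : F) = _
    rw [hB.gA]; congr 1; ring
  have hf1 : ∀ i j, hG.top (θ * α⁻¹ * (e2 i * e2 j)) = hG.top (θ * α'⁻¹ * (e' i * e' j)) := by
    intro i j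
    have h1 := gram_sum hG (θ * α⁻¹) e (mF A') T (fun i j => by
      change ((A' i j : 𝓞 F) : F) = _
      rw [hA.gB]; congr 1; ring) i j
    rw [← h1, hTA']
    change ((B' i j : 𝓞 F) : F) = _
    rw [hB.gB]; congr 1; ring
  have hbil : ∀ γ γ' : L, (∀ i j, hG.top (γ * (e2 i * e2 j)) = hG.top (γ' * (e' i * e' j))) →
      ∀ x y : L, hG.top (γ * (x * y)) = hG.top (γ' * (φ x * φ y)) := by
    intro γ γ' h x y
    have hx := b2.sum_repr x
    have hy := b2.sum_repr y
    have hx' : φ x = ∑ i, b2.repr x i • e' i := by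
      conv_lhs => rw [← hx]
      rw [map_sum]
      refine Finset.sum_congr rfl fun i _ => ?_
      rw [map_smul, hb2, hφ]
    have hy' : φ y = ∑ i, b2.repr y i • e' i := by
      conv_lhs => rw [← hy]
      rw [map_sum]
      refine Finset.sum_congr rfl fun i _ => ?_
      rw [map_smul, hb2, hφ]
    rw [hx', hy']
    conv_lhs => rw [← hx, ← hy]
    rw [Finset.sum_mul_sum, Finset.sum_mul_sum, Finset.mul_sum, Finset.mul_sum, map_sum, map_sum]
    refine Finset.sum_congr rfl fun i _ => ?_
    rw [Finset.mul_sum, Finset.mul_sum, map_sum, map_sum]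
    refine Finset.sum_congr rfl fun j _ => ?_
    rw [smul_mul_smul_comm, mul_smul_comm, map_smul, smul_mul_smul_comm, mul_smul_comm, map_smul,
      hb2, hb2, h i j]
  have h0 := hbil _ _ hf0
  have h1 := hbil _ _ hf1
  have hsurj : Function.Surjective φ := by
    have hr : LinearMap.range φ = ⊤ := by
      rw [eq_top_iff, ← b'.span_eq, Submodule.span_le]
      rintro _ ⟨i, rfl⟩
      exact ⟨e2 i, by rw [hφ, hb']⟩
    exact LinearMap.range_eq_top.1 hr
  have hcomm : ∀ x, φ (θ * x) = θ * φ x := by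
    intro x
    have h2 : ∀ y, hG.top (α'⁻¹ * ((φ (θ * x) - θ * φ x) * φ y)) = 0 := by
      intro y
      have h3 := h0 (θ * x) y
      have h4 := h1 x y
      have h5 : α'⁻¹ * ((φ (θ * x) - θ * φ x) * φ y) =
          α'⁻¹ * (φ (θ * x) * φ y) - θ * α'⁻¹ * (φ x * φ y) := by ring
      rw [h5, map_sub, ← h3, ← h4, sub_eq_zero]
      congr 1
      ring
    have h6 : α'⁻¹ * (φ (θ * x) - θ * φ x) = 0 := by
      refine top_nd hG _ fun z => ?_
      obtain ⟨y, rfl⟩ := hsurj z
      rw [← h2 y]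
      congr 1
      ring
    have h7 := (mul_eq_zero.1 h6).resolve_left (inv_ne_zero hα')
    exact sub_eq_zero.1 h7
  have ht := lin_mul hG φ hcomm
  have hkey : α⁻¹ - φ 1 ^ 2 * α'⁻¹ = 0 := by
    refine top_nd hG _ fun z => ?_
    have h2 := h0 z 1
    rw [ht z] at h2
    have h3 : z * (α⁻¹ - φ 1 ^ 2 * α'⁻¹) = α⁻¹ * (z * 1) - α'⁻¹ * (φ 1 * z * φ 1) := by ring
    rw [h3, map_sub, h2, sub_self]
  refine ⟨α * φ 1, ?_⟩
  have h8 : α' = φ 1 ^ 2 * α := by
    have h9 := sub_eq_zero.1 hkey
    field_simp at h9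
    rw [h9]
    ring
  rw [h8]
  ring

end Pool.Agent.Helper91.AV
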