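import Pool.Agent.Helper91.AV.Red
import Pool.Agent.Helper91.AV.CP
import Pool.Agent.Helper91.AV.LBA
import Pool.Agent.Helper91.AV.RC
import Pool.Agent.Helper91.AV.Num
import Pool.Agent.Helper21.AV.LatL
import Pool.Agent.Helper60.AV.LPC

/-!
# Project AV: assembly
-/

set_option autoImplicit false

namespace Pool.Agent.Helper91.AV

open Pool.Agent.N783.PF

theorem lbaT : S_LBA := lba typ Pool.Agent.N707.PF.MAJ.maj Pool.Agent.N614.PF.chi Pool.Agent.N482.PF.sq

theorem orbT : S_ORBA := orba Pool.Agent.N490.PF.pts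

theorem numT : S_NUM :=
  num (Pool.Agent.N456.PF.pb Pool.Agent.N490.PF.pts Pool.Agent.N42.PF.cqa Pool.Agent.N42.PF.cqb)
    (Pool.Agent.N456.PF.pb0 Pool.Agent.N490.PF.pts) orbT

theorem avgT : S_AVG :=
  avg lbaT rc numT Pool.Agent.Helper21.AV.latl Pool.Agent.Helper60.AV.lpc cpT
    Pool.Agent.N667.PF.gen Pool.Agent.N490.PF.pts

end Pool.Agent.Helper91.AV
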