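import Pool.Agent.Helper91.AV.Cls
import Pool.Agent.Helper91.AV.Top
import Pool.Agent.Helper91.AV.Lim
import Pool.Agent.Helper91.AV.Def5
import Pool.Agent.Helper21.AV.Iso2
import Pool.Agent.Helper60.AV.Rb
import Pool.Agent.Helper48.AV.Unit

/-!
# Project AV: the 2-Selmer groups (group level) over the isomorphism classes
-/

set_option autoImplicit false
set_option linter.all false

open Polynomial IsDedekindDomain NumberField Filter Topology
open scoped Classical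

namespace Pool.Agent.Helper91.AV

open Pool.Agent.N783.PF
open Pool.Agent.N874.PP (sW)

theorem unitT : S_UNIT := Pool.Agent.Helper48.AV.unit

section

variable {F : Type} [Field F] [NumberField F]

/-- The curve of a pair. -/
def crvP (p : 𝓞 F × 𝓞 F) : WeierstrassCurve F := ⟨0, 0, 0, (p.1 : F), (p.2 : F)⟩

/-- The injection. -/
theorem sel_inj (hCMP : S_CMP) (W : WeierstrassCurve F) :
    ∃ Ψ : Selmer W 2 → Sel2F W, Function.Injective Ψ := by
  obtain ⟨Φ, h1, h2⟩ := hCMP F W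
  refine ⟨fun x => Quotient.mk (selSF W) ⟨Φ (QuotientAddGroup.mk_surjective x).choose.1,
    h1 _ (QuotientAddGroup.mk_surjective x).choose.2⟩, ?_⟩
  intro x y h
  have h3 := h2 _ _ (Quotient.exact h)
  have ex := (QuotientAddGroup.mk_surjective x).choose_spec
  have ey := (QuotientAddGroup.mk_surjective y).choose_spec
  rw [← ex, ← ey]
  refine QuotientAddGroup.eq.2 ?_
  rw [AddSubgroup.mem_addSubgroupOf]
  have h4 := (cobTor W 2).neg_mem h3
  rw [neg_sub] at h4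
  have e : ((-(QuotientAddGroup.mk_surjective x).choose + (QuotientAddGroup.mk_surjective y).choose :
      selCoc W 2) : Pool.Agent.TH841.SH.D.Coch W) =
      ((QuotientAddGroup.mk_surjective y).choose : Pool.Agent.TH841.SH.D.Coch W) -
      ((QuotientAddGroup.mk_surjective x).choose : Pool.Agent.TH841.SH.D.Coch W) := by
    rw [AddSubgroup.coe_add, AddSubgroup.coe_neg]
    abel
  rw [e]
  exact h4

theorem selmer_finite (hCMP : S_CMP) (p : 𝓞 F × 𝓞 F) (hp : Irr3 p) :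
    Finite (Selmer (crvP p) 2) := by
  obtain ⟨Ψ, hΨ⟩ := sel_inj hCMP (crvP p)
  have : Finite (Sel2F (crvP p)) := sel_finite avgT p hp
  exact Finite.of_injective Ψ hΨ

theorem selmer_le (hCMP : S_CMP) (p : 𝓞 F × 𝓞 F) (hp : Irr3 p) :
    Nat.card (Selmer (crvP p) 2) ≤ Nat.card (Sel2F (sW (p.1 : F) (p.2 : F))) := by
  obtain ⟨Ψ, hΨ⟩ := sel_inj hCMP (crvP p)
  have : Finite (Sel2F (sW (p.1 : F) (p.2 : F))) := sel_finite avgT p hp
  exact Nat.card_le_card_of_injective Ψ hΨ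

/-- Every element of the 2-Selmer group is killed by two. -/
theorem selmer_two (W : WeierstrassCurve F) (x : Selmer W 2) : 2 • x = 0 := by
  obtain ⟨f, rfl⟩ := QuotientAddGroup.mk_surjective x
  have h1 : (2 • (QuotientAddGroup.mk f : selCoc W 2 ⧸ (cobTor W 2).addSubgroupOf (selCoc W 2))) =
      QuotientAddGroup.mk (2 • f) := (QuotientAddGroup.mk_nsmul _ _ _).symm
  refine h1.trans ?_
  have h2 : 2 • f = 0 := Subtype.ext f.2.2
  rw [h2]
  rfl

/-- The order is a power of two. -/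
theorem selmer_pow (W : WeierstrassCurve F) (h : Finite (Selmer W 2)) :
    ∃ s : ℕ, Nat.card (Selmer W 2) = 2 ^ s := by
  have hp : IsPGroup 2 (Multiplicative (Selmer W 2)) := by
    intro x
    refine ⟨1, ?_⟩
    rw [pow_one]
    have := selmer_two W (Multiplicative.toAdd x)
    exact congrArg Multiplicative.ofAdd this
  have : Finite (Multiplicative (Selmer W 2)) := h
  obtain ⟨s, hs⟩ := IsPGroup.iff_card.1 hp
  exact ⟨s, hs⟩

theorem irr3_iso_iff {p q : 𝓞 F × 𝓞 F} (h : IsoRel p q) : Irr3 p ↔ Irr3 q :=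
  ⟨irr3_iso h, irr3_iso h.symm⟩

theorem discF {p : 𝓞 F × 𝓞 F} (hp : 4 * p.1 ^ 3 + 27 * p.2 ^ 2 ≠ 0) :
    4 * (p.1 : F) ^ 3 + 27 * (p.2 : F) ^ 2 ≠ 0 := by
  intro h0
  apply hp
  apply RingOfIntegers.coe_injective
  have e : (algebraMap (𝓞 F) F) (4 * p.1 ^ 3 + 27 * p.2 ^ 2) =
      4 * (p.1 : F) ^ 3 + 27 * (p.2 : F) ^ 2 := by
    simp only [map_add, map_mul, map_pow, map_ofNat]
  exact e.trans (h0.trans (map_zero _).symm)

theorem selmer_iso {p q : 𝓞 F × 𝓞 F} (hp : 4 * p.1 ^ 3 + 27 * p.2 ^ 2 ≠ 0) (h : IsoRel p q) :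
    Nonempty (Selmer (crvP p) 2 ≃+ Selmer (crvP q) 2) := by
  obtain ⟨l, hl, h1, h2⟩ := h
  have := (Pool.Agent.Helper21.AV.iso2 F (p.1 : F) (p.2 : F) l (discF hp) hl).1 2
  unfold crvP
  rw [h1, h2]
  exact this

/-- The function `#Sel_2` on the curves without points of order two. -/
theorem box_sel (hCMP : S_CMP) : BoxAvg (F := F) (fun p =>
    if Irr3 p then (Nat.card (Selmer (crvP p) 2) : ℝ) else 0) := by
  refine ⟨fun p => ?_, fun p q hp h => ?_, ?_⟩
  · split_ifs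
    · exact Nat.cast_nonneg _
    · exact le_rfl
  · simp only [irr3_iso_iff h]
    split_ifs with h1
    · obtain ⟨e⟩ := selmer_iso hp h
      rw [Nat.card_congr e.toEquiv]
    · rfl
  · obtain ⟨C₀, h0⟩ := sum_sel (F := F) avgT
    refine ⟨C₀, Nat.cast_nonneg _, fun B hB U hU => ?_⟩
    rw [← Finset.sum_filter]
    have h1 := h0 B hB (U.filter fun p => Irr3 p) (fun p hp => by
      obtain ⟨hp1, hp2⟩ := Finset.mem_filter.1 hp
      exact ⟨(hU p hp1).1, (hU p hp1).2.1, hp2⟩)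
    have h2 : ∑ p ∈ U.filter (fun p => Irr3 p), (Nat.card (Selmer (crvP p) 2) : ℝ) ≤
        ∑ p ∈ U.filter (fun p => Irr3 p), (Nat.card (Sel2F (sW (p.1 : F) (p.2 : F))) : ℝ) := by
      refine Finset.sum_le_sum fun p hp => ?_
      exact_mod_cast selmer_le hCMP p (Finset.mem_filter.1 hp).2
    exact h2.trans (by exact_mod_cast h1)

/-- The reducible classes are rare. -/
theorem red_cls (hU : S_UNIT) : ∃ C : ℝ, 0 ≤ C ∧ ∀ B : ℕ, 1 ≤ B →
    ∀ T : Finset (Cls F), (∀ c ∈ T, c ∈ ClsLe F ((B : ℝ) ^ (6 * Module.finrank ℚ F)) ∧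
      ¬ Irr3 c.rep) → (T.card : ℝ) ≤ C * (B : ℝ) ^ (3 * Module.finrank ℚ F) := by
  obtain ⟨K, hK, hbal⟩ := bal (F := F) hU
  obtain ⟨C, hC, hred⟩ := red_count (F := F) Pool.Agent.N490.PF.pts
  refine ⟨C * (K : ℝ) ^ (3 * Module.finrank ℚ F), by positivity, fun B hB T hT => ?_⟩
  have hKB : 1 ≤ K * B := Nat.mul_pos hK hB
  have hex : ∀ c ∈ T, ∃ p : 𝓞 F × 𝓞 F,
      Bd (p.1 : F) (((K * B : ℕ) : ℝ) ^ 2) ∧ Bd (p.2 : F) (((K * B : ℕ) : ℝ) ^ 3) ∧
      ∃ hp : 4 * p.1 ^ 3 + 27 * p.2 ^ 2 ≠ 0, Quotient.mk (clsS F) ⟨p, hp⟩ = c := by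
    intro c hc
    obtain ⟨⟨p, rfl, hp⟩, -⟩ := hT c hc
    obtain ⟨u, h1, h2⟩ := hbal B p.1 hB p.2 hp
    refine ⟨Pool.Agent.Helper91.AV.scl (u : 𝓞 F) p.1, h1, h2, disc_iso (isoRel_scl u p.1) p.2, ?_⟩
    refine Quotient.sound ?_
    exact (isoRel_scl u p.1).symm
  choose! ρ hρ1 hρ2 hρ3 hρ4 using hex
  have hinj : Set.InjOn ρ (T : Set (Cls F)) := by
    intro c hc c' hc' h
    rw [← hρ4 c hc, ← hρ4 c' hc']
    congr 1
    exact Subtype.ext h
  have h1 := hred (K * B) hKB (T.image ρ) (by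
    intro p hp
    obtain ⟨c, hc, rfl⟩ := Finset.mem_image.1 hp
    refine ⟨hρ1 c hc, hρ2 c hc, fun hirr => (hT c hc).2 ?_⟩
    have h3 : Quotient.mk (clsS F) (Quotient.out c) = Quotient.mk (clsS F) ⟨ρ c, hρ3 c hc⟩ :=
      (Quotient.out_eq (s := clsS F) c).trans (hρ4 c hc).symm
    have h4 : IsoRel c.rep (ρ c) := Quotient.exact h3
    exact irr3_iso h4.symm hirr)
  rw [Finset.card_image_of_injOn hinj] at h1
  refine h1.trans (le_of_eq ?_)
  push_cast
  rw [mul_pow]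
  ring

end

end Pool.Agent.Helper91.AV
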