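import Pool.Agent.Helper91.AV.Avg
import Pool.Agent.Helper91.AV.Grp
import Pool.Graph.R_pool_sql_team_seeded_63374d34.N713.QM.GFC
import Pool.Graph.R_seed8.TH942.FG

/-!
# Project AV: the group of the points modulo two and the 2-Selmer group
-/

set_option autoImplicit false
set_option linter.all false

open Polynomial IsDedekindDomain NumberField
open scoped Classical

namespace Pool.Agent.Helper91.AV

open Pool.Agent.N874.PP (sW)
open Pool.Agent.N874.QM (IsLoc)
open Pool.Agent.N721.PP (half)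
open Pool.Agent.N713.QM (isLoc_cob isLoc_sub)
open Pool.Agent.TH115.GD

section

variable {F : Type} [Field F] [NumberField F]

variable {a b : F}

/-- The map. -/
theorem kum_inj (hd : 4 * a ^ 3 + 27 * b ^ 2 ≠ 0) :
    ∃ Φ : (Pt (sW a b) F ⧸ (nsmulAddMonoidHom 2 : Pt (sW a b) F →+ Pt (sW a b) F).range) ×
      Sha2 (sW a b) → Sel2F (sW a b), Function.Injective Φ := by
  have h6 : (6 : F) ≠ 0 := by norm_num
  haveI : Algebra.IsSeparable F (Sep F) := IsSepClosure.separable
  haveI : IsGalois F (Sep F) := inferInstance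
  choose H hH using fun P : Pt (sW a b) F => half h6 hd (act (sW a b) (incl F F (Sep F)) P)
  have hfix : ∀ (P : Pt (sW a b) F) (σ : Sep F ≃ₐ[F] Sep F),
      act (sW a b) (rs F σ) (H P + H P) = H P + H P := fun P σ => by
    rw [hH]; exact rs_act_incl _ σ P
  choose Q hQ using fun s : Sha2 (sW a b) => (Quotient.out s).2.two
  choose S hS using fun s : Sha2 (sW a b) => half h6 hd (Q s)
  let φ : Pt (sW a b) F → Sha2 (sW a b) → (Sep F ≃ₐ[F] Sep F) → Pt (sW a b) (Sep F) :=
    fun P s σ => (Quotient.out s).1 σ - (act (sW a b) (rs F σ) (S s - H P) - (S s - H P))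
  have hφ : ∀ P s, SelCocF (sW a b) (φ P s) := by
    intro P s
    refine ⟨(Quotient.out s).2.coc.sub _ (cob_isCoc _ _), ?_, (isLoc_sub (Quotient.out s).2.loc _).fin⟩
    intro σ
    show (2 : ℕ) • ((Quotient.out s).1 σ - (act (sW a b) (rs F σ) (S s - H P) - (S s - H P))) = 0
    have e1 := hQ s σ
    have e2 := hfix P σ
    rw [← hS s] at e1
    rw [map_add] at e1 e2
    rw [smul_sub, e1, two_nsmul, map_sub]
    have e3 : act (sW a b) (rs F σ) (S s) + act (sW a b) (rs F σ) (S s) - (S s + S s) -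
        (act (sW a b) (rs F σ) (S s) - act (sW a b) (rs F σ) (H P) - (S s - H P) +
        (act (sW a b) (rs F σ) (S s) - act (sW a b) (rs F σ) (H P) - (S s - H P))) =
        (act (sW a b) (rs F σ) (H P) + act (sW a b) (rs F σ) (H P)) - (H P + H P) := by abel
    rw [e3, e2, sub_self]
  refine ⟨fun q => Quotient.mk (selSF (sW a b)) ⟨φ (Quotient.out q.1) q.2, hφ _ _⟩, ?_⟩
  rintro ⟨p, s⟩ ⟨p', s'⟩ h
  have h1 := Quotient.exact h
  obtain ⟨T, hT2, hT⟩ := h1
  simp only at hT
  have hss : s = s' := by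
    rw [← Quotient.out_eq s, ← Quotient.out_eq s']
    refine Quotient.sound ?_
    refine ⟨T + (S s - H (Quotient.out p)) - (S s' - H (Quotient.out p')), fun σ => ?_⟩
    have e := hT σ
    show (Quotient.out s).1 σ = (Quotient.out s').1 σ + _
    have e1 : (Quotient.out s).1 σ - (act (sW a b) (rs F σ) (S s - H (Quotient.out p)) -
        (S s - H (Quotient.out p))) = (Quotient.out s').1 σ -
        (act (sW a b) (rs F σ) (S s' - H (Quotient.out p')) - (S s' - H (Quotient.out p'))) +
        (act (sW a b) (rs F σ) T - T) := e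
    rw [sub_eq_iff_eq_add] at e1
    rw [e1, map_sub (act (sW a b) (rs F σ)) (T + _), map_add]
    abel
  subst hss
  refine Prod.ext ?_ rfl
  show p = p'
  obtain ⟨R, hR⟩ := fixed_point (K := F) (F := F) (sW a b)
    (H (Quotient.out p) - H (Quotient.out p') - T) (fun σ => by
      have e1 : (Quotient.out s).1 σ - (act (sW a b) (rs F σ) (S s - H (Quotient.out p)) -
        (S s - H (Quotient.out p))) = (Quotient.out s).1 σ -
        (act (sW a b) (rs F σ) (S s - H (Quotient.out p')) - (S s - H (Quotient.out p'))) +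
        (act (sW a b) (rs F σ) T - T) := hT σ
      rw [map_sub (act (sW a b) (rs F σ)) (S s), map_sub (act (sW a b) (rs F σ)) (S s)] at e1
      rw [map_sub, map_sub]
      have e2 : act (sW a b) (rs F σ) (H (Quotient.out p)) - act (sW a b) (rs F σ)
          (H (Quotient.out p')) - act (sW a b) (rs F σ) T -
          (H (Quotient.out p) - H (Quotient.out p') - T) =
          ((Quotient.out s).1 σ - (act (sW a b) (rs F σ) (S s) - act (sW a b) (rs F σ)
            (H (Quotient.out p)) - (S s - H (Quotient.out p)))) -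
          ((Quotient.out s).1 σ - (act (sW a b) (rs F σ) (S s) - act (sW a b) (rs F σ)
            (H (Quotient.out p')) - (S s - H (Quotient.out p'))) +
            (act (sW a b) (rs F σ) T - T)) := by abel
      rw [← sub_eq_zero, e2, e1, sub_self])
  have h2 : Quotient.out p - Quotient.out p' = (2 : ℕ) • R := by
    apply act_inj (sW a b) (incl F F (Sep F))
    rw [map_nsmul, hR, map_sub, ← hH, ← hH, smul_sub, hT2, sub_zero, two_nsmul]
    abel
  rw [← Quotient.out_eq p, ← Quotient.out_eq p']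
  refine QuotientAddGroup.eq.2 ?_
  refine ⟨-R, ?_⟩
  show (2 : ℕ) • (-R) = _
  rw [smul_neg, ← h2]
  abel

theorem kum (hd : 4 * a ^ 3 + 27 * b ^ 2 ≠ 0) (hfin : Finite (Sel2F (sW a b))) :
    Finite (Sha2 (sW a b)) ∧
      idx2 (Pt (sW a b) F) * Nat.card (Sha2 (sW a b)) ≤ Nat.card (Sel2F (sW a b)) := by
  obtain ⟨Φ, hΦ⟩ := kum_inj hd
  constructor
  · refine Finite.of_injective (fun s => Φ (0, s)) fun s s' h => ?_
    have := hΦ h
    exact congrArg Prod.snd this
  · have h1 := Nat.card_le_card_of_injective Φ hΦ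
    rw [Nat.card_prod] at h1
    exact h1

theorem bc_self (a b : F) : (sW a b).baseChange F = ⟨0, 0, 0, a, b⟩ := by
  unfold sW
  ext <;> simp [WeierstrassCurve.baseChange, WeierstrassCurve.map]

theorem idx2_congr {W W' : WeierstrassCurve F} (h : W = W') :
    idx2 W.toAffine.Point = idx2 W'.toAffine.Point := by
  subst h; rfl

theorem idx2_pt (a b : F) : idx2 (Pt (sW a b) F) = idx2 (EPt a b) := idx2_congr (bc_self a b)

theorem ept_fg (hd : 4 * a ^ 3 + 27 * b ^ 2 ≠ 0) : Module.Finite ℤ (EPt a b) := by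
  rw [Module.Finite.iff_addGroup_fg]
  have h1 := Pool.Agent.TH942.sfg hd
  exact Pool.Agent.TH942.fg_of_eq (W := (Pool.Agent.TH942.sw a b).toAffine) rfl h1

theorem rank_sel (hd : 4 * a ^ 3 + 27 * b ^ 2 ≠ 0) (hfin : Finite (Sel2F (sW a b))) :
    Finite (Sha2 (sW a b)) ∧ idx2 (EPt a b) ≠ 0 ∧
      idx2 (EPt a b) * Nat.card (Sha2 (sW a b)) ≤ Nat.card (Sel2F (sW a b)) ∧
      2 ^ Module.finrank ℤ (EPt a b) ≤ idx2 (EPt a b) := by
  obtain ⟨h1, h2⟩ := kum hd hfin
  rw [idx2_pt] at h2
  exact ⟨h1, idx2_ne (ept_fg hd), h2, rank_idx (ept_fg hd)⟩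

end

end Pool.Agent.Helper91.AV
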