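import Pool.Agent.Helper91.AV.Sz

/-!
# Project AV: laws of the 2-Selmer ranks over the isomorphism classes
-/

set_option autoImplicit false
set_option linter.all false

open Polynomial IsDedekindDomain NumberField Filter Topology
open scoped Classical

namespace Pool.Agent.Helper91.AV

open Pool.Agent.N783.PF
open Pool.Agent.N874.PP (sW)

/-- Bounded averages of `2 ^ n`, and limit laws of `n`, over the finite sets `S X`. -/
structure Law {α : Type} (S : ℝ → Set α) (n : α → ℕ) (C : ℝ) : Prop where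
  /-- the sets are finite -/
  finite : ∀ X : ℝ, (S X).Finite
  /-- the average of `2 ^ n` over `S X` is at most `C` -/
  average : ∀ X : ℝ, (∑ᶠ c ∈ S X, (2 : ℝ) ^ n c) / ((S X).ncard : ℝ) ≤ C
  /-- the proportion of the elements with `n ≥ k` is at most `C / 2 ^ k` -/
  tail : ∀ (X : ℝ) (k : ℕ), ({c ∈ S X | k ≤ n c}.ncard : ℝ) ≤ C / 2 ^ k * ((S X).ncard : ℝ)
  /-- every sequence tending to infinity has a subsequence along which the proportions of the elements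
  with `n = k` converge for all `k`, to a probability law `μ` with `μ 0 > 0` and `∑ 2 ^ k μ k ≤ C` -/
  limits : ∀ x : ℕ → ℝ, Tendsto x atTop atTop → ∃ (φ : ℕ → ℕ) (μ : ℕ → ℝ), StrictMono φ ∧
    (∀ k, Tendsto (fun i => ({c ∈ S (x (φ i)) | n c = k}.ncard : ℝ) / ((S (x (φ i))).ncard : ℝ))
      atTop (𝓝 (μ k))) ∧ 0 < μ 0 ∧ (∀ k, 0 ≤ μ k) ∧ HasSum μ 1 ∧
    Summable (fun k => (2 : ℝ) ^ k * μ k) ∧ ∑' k, (2 : ℝ) ^ k * μ k ≤ C

theorem law_of {α : Type} {S : ℝ → Set α} {n : α → ℕ} {C : ℝ} (hC : 0 ≤ C)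
    (hfin : ∀ X : ℝ, (S X).Finite)
    (hsum : ∀ X : ℝ, ∑ c ∈ (hfin X).toFinset, (2 : ℝ) ^ n c ≤ C * ((S X).ncard : ℝ))
    (hpos : ∃ c : ℝ, 0 < c ∧ ∀ᶠ X : ℝ in atTop, 0 < (S X).ncard ∧
      c * ((S X).ncard : ℝ) ≤ ({q ∈ S X | n q = 0}.ncard : ℝ)) : Law S n C := by
  refine ⟨hfin, fun X => ?_, fun X r => ?_, fun x hx => ?_⟩
  · rw [finsum_mem_eq_finite_toFinset_sum _ (hfin X)]
    rcases Nat.eq_zero_or_pos (S X).ncard with h0 | h0
    · rw [h0, Nat.cast_zero, div_zero]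
      exact hC
    · rw [div_le_iff₀ (by exact_mod_cast h0)]
      exact hsum X
  · have h1 := markov (hfin X) n C (hsum X) r
    have h2 : (0 : ℝ) < 2 ^ r := by positivity
    rw [div_mul_eq_mul_div, le_div_iff₀ h2]
    linarith
  · obtain ⟨c, hc, hev⟩ := hpos
    obtain ⟨N, hN⟩ := eventually_atTop.1 (hx.eventually hev)
    obtain ⟨φ, μ, hφ, h1, h2, h3, h4, h5⟩ := limit_law (fun i => S (x (i + N)))
      (fun i => hfin _) (fun i => (hN (i + N) (by omega)).1) n C (fun i => hsum _)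
    refine ⟨fun i => φ i + N, μ, fun a b hab => by have := hφ hab; simp only; omega, h1, ?_, h2, h3,
      h4, h5⟩
    have h6 : c ≤ μ 0 := ge_of_tendsto (h1 0) (Eventually.of_forall fun i => by
      obtain ⟨h7, h8⟩ := hN (φ i + N) (by omega)
      unfold prop
      rw [le_div_iff₀ (by exact_mod_cast h7)]
      exact h8)
    linarith

section

variable {F : Type} [Field F] [NumberField F]

/-- The 2-Selmer rank. -/
noncomputable def selRank (W : WeierstrassCurve F) : ℕ := Nat.log 2 (Nat.card (Selmer W 2))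

theorem selRank_eq (W : WeierstrassCurve F) (h : Finite (Selmer W 2)) :
    Nat.card (Selmer W 2) = 2 ^ selRank W := by
  obtain ⟨s, hs⟩ := selmer_pow W h
  unfold selRank
  rw [hs, Nat.log_pow (by norm_num)]

/-- The 2-Selmer groups are finite. -/
theorem selmer_finA (hSRB : S_SRB) (p : 𝓞 F × 𝓞 F) (hp : 4 * p.1 ^ 3 + 27 * p.2 ^ 2 ≠ 0) :
    Finite (Selmer (crvP p) 2) := by
  by_cases h : Irr3 p
  · exact selmer_finite Pool.Agent.Helper45.AV.cmp p h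
  · obtain ⟨K, hK⟩ := hSRB F 1
    obtain ⟨R₁, h1⟩ := exists_bd (p.1 : F)
    obtain ⟨R₂, h2⟩ := exists_bd (p.2 : F)
    have g1 : (0 : ℝ) ≤ R₁ := Nat.cast_nonneg _
    have g2 : (0 : ℝ) ≤ R₂ := Nat.cast_nonneg _
    obtain ⟨B, hB⟩ : ∃ B : ℕ, B = R₁ + R₂ + 1 := ⟨_, rfl⟩
    have hB1 : (1 : ℝ) ≤ B := by rw [hB]; push_cast; linarith
    have e1 : (R₁ : ℝ) ≤ B := by rw [hB]; push_cast; linarith
    have e2 : (R₂ : ℝ) ≤ B := by rw [hB]; push_cast; linarith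
    have h3 : (B : ℝ) ≤ (B : ℝ) ^ 2 := le_self_pow₀ hB1 (by norm_num)
    have h4 : (B : ℝ) ≤ (B : ℝ) ^ 3 := le_self_pow₀ hB1 (by norm_num)
    have h5 : ∀ σ : F →+* ℂ, ‖σ (p.1 : F)‖ ≤ (B : ℝ) ^ 2 := fun σ => (h1 σ).trans (e1.trans h3)
    have h6 : ∀ σ : F →+* ℂ, ‖σ (p.2 : F)‖ ≤ (B : ℝ) ^ 3 := fun σ => (h2 σ).trans (e2.trans h4)
    exact (hK B p.1 p.2 (by omega) h5 h6 hp ((irr3_iff p).1 h)).1

/-- The sum of the orders of the 2-Selmer groups over all curves in a box. -/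
theorem box_selA (hSRB : S_SRB) : BoxAvg (F := F) (fun p =>
    (Nat.card (Selmer (crvP p) 2) : ℝ)) := by
  refine ⟨fun p => Nat.cast_nonneg _, fun p q hp h => ?_, ?_⟩
  · obtain ⟨e⟩ := selmer_iso hp h
    rw [Nat.card_congr e.toEquiv]
  · obtain ⟨C₀, hC₀, h0⟩ := (box_sel (F := F) Pool.Agent.Helper45.AV.cmp).box
    obtain ⟨C₁, hC₁, h1⟩ := red_count (F := F) Pool.Agent.N490.PF.pts
    obtain ⟨K, hK⟩ := hSRB F 12
    obtain ⟨d, hd⟩ : ∃ d, d = Module.finrank ℚ F := ⟨_, rfl⟩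
    rw [← hd] at h0 h1 hK ⊢
    refine ⟨C₀ + C₁ * (K + 1), by positivity, fun B hB U hU => ?_⟩
    have hB1 : (1 : ℝ) ≤ B := by exact_mod_cast hB
    rw [← Finset.sum_filter_add_sum_filter_not U (fun p => Irr3 p)]
    have hA : ∑ p ∈ U.filter (fun p => Irr3 p), (Nat.card (Selmer (crvP p) 2) : ℝ) ≤
        C₀ * (B : ℝ) ^ (5 * d) := by
      have h2 := h0 B hB U hU
      rw [Finset.sum_filter]
      exact h2
    have hB' : ∑ p ∈ U.filter (fun p => ¬ Irr3 p), (Nat.card (Selmer (crvP p) 2) : ℝ) ≤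
        C₁ * (K + 1) * (B : ℝ) ^ (5 * d) := by
      have h2 := h1 B hB (U.filter fun p => ¬ Irr3 p) (fun p hp => by
        obtain ⟨hp1, hp2⟩ := Finset.mem_filter.1 hp
        exact ⟨(hU p hp1).1, (hU p hp1).2.1, hp2⟩)
      have h3 : ∀ p ∈ U.filter (fun p => ¬ Irr3 p), (Nat.card (Selmer (crvP p) 2) : ℝ) ≤
          (K + 1) * (B : ℝ) ^ d := by
        intro p hp
        obtain ⟨hp1, hp2⟩ := Finset.mem_filter.1 hp
        obtain ⟨-, h4⟩ := hK B p.1 p.2 hB (hU p hp1).1 (hU p hp1).2.1 (hU p hp1).2.2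
          ((irr3_iff p).1 hp2)
        have h5 : ((Nat.card (Selmer (crvP p) 2) : ℝ)) ^ 12 ≤ ((K + 1) * (B : ℝ) ^ d) ^ 12 := by
          calc ((Nat.card (Selmer (crvP p) 2) : ℝ)) ^ 12 ≤ K * (B : ℝ) ^ (12 * d) := by
                exact_mod_cast h4
            _ ≤ (K + 1) ^ 12 * (B : ℝ) ^ (12 * d) := by
                gcongr
                have : (K : ℝ) + 1 ≤ ((K : ℝ) + 1) ^ 12 := le_self_pow₀ (by
                  have : (0 : ℝ) ≤ K := Nat.cast_nonneg K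
                  linarith) (by norm_num)
                linarith
            _ = _ := by rw [mul_pow, ← pow_mul]; ring_nf
        exact le_of_pow_le_pow_left₀ (by norm_num) (by positivity) h5
      calc ∑ p ∈ U.filter (fun p => ¬ Irr3 p), (Nat.card (Selmer (crvP p) 2) : ℝ)
          ≤ ∑ p ∈ U.filter (fun p => ¬ Irr3 p), (K + 1) * (B : ℝ) ^ d := Finset.sum_le_sum h3
        _ = ((U.filter fun p => ¬ Irr3 p).card : ℝ) * ((K + 1) * (B : ℝ) ^ d) := by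
            rw [Finset.sum_const, nsmul_eq_mul]
        _ ≤ (C₁ * (B : ℝ) ^ (3 * d)) * ((K + 1) * (B : ℝ) ^ d) :=
            mul_le_mul_of_nonneg_right h2 (by positivity)
        _ = C₁ * (K + 1) * (B : ℝ) ^ (4 * d) := by
            rw [show 4 * d = 3 * d + d by ring, pow_add]; ring
        _ ≤ C₁ * (K + 1) * (B : ℝ) ^ (5 * d) := by
            gcongr
            · norm_num
    calc _ ≤ C₀ * (B : ℝ) ^ (5 * d) + C₁ * (K + 1) * (B : ℝ) ^ (5 * d) := add_le_add hA hB'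
      _ = _ := by ring

/-- Isomorphic curves have isomorphic groups of points. -/
theorem ept_iso (a b l : F) (hl : l ≠ 0) : Nonempty (EPt a b ≃+ EPt (l ^ 4 * a) (l ^ 6 * b)) := by
  let h : Pool.Agent.Helper21.AV.Sc (⟨0, 0, 0, a, b⟩ : WeierstrassCurve F)
      (⟨0, 0, 0, l ^ 4 * a, l ^ 6 * b⟩ : WeierstrassCurve F) l :=
    ⟨hl, by simp, by simp, by simp, rfl, rfl⟩
  exact ⟨h.equiv⟩

theorem rank_iso {p q : 𝓞 F × 𝓞 F} (h : IsoRel p q) :
    Module.finrank ℤ (EPt (p.1 : F) (p.2 : F)) = Module.finrank ℤ (EPt (q.1 : F) (q.2 : F)) := by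
  obtain ⟨l, hl, h1, h2⟩ := h
  obtain ⟨e⟩ := ept_iso (p.1 : F) (p.2 : F) l hl
  rw [h1, h2]
  exact e.toIntLinearEquiv.finrank_eq

theorem selRank_iso {p q : 𝓞 F × 𝓞 F} (hp : 4 * p.1 ^ 3 + 27 * p.2 ^ 2 ≠ 0) (h : IsoRel p q) :
    selRank (crvP p) = selRank (crvP q) := by
  obtain ⟨e⟩ := selmer_iso hp h
  unfold selRank
  rw [Nat.card_congr e.toEquiv]

/-- The sum of `2 ^ rank` over all curves in a box. -/
theorem box_rank : BoxAvg (F := F) (fun p =>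
    (2 : ℝ) ^ Module.finrank ℤ (EPt (p.1 : F) (p.2 : F))) := by
  refine ⟨fun p => by positivity, fun p q hp h => by rw [rank_iso h], ?_⟩
  obtain ⟨C₀, hC₀, h0⟩ := sum_idx (F := F) avgT Pool.Agent.Helper60.AV.rb Pool.Agent.N490.PF.pts
  refine ⟨C₀, hC₀, fun B hB U hU => (Finset.sum_le_sum fun p hp => ?_).trans (h0 B hB U hU)⟩
  exact_mod_cast rank_idx (ept_fg (discF (hU p hp).2.2))

/-- The number of the curves in a box. -/
theorem box_one : BoxAvg (F := F) (fun _ => 1) := by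
  refine ⟨fun p => zero_le_one, fun p q hp h => rfl, ?_⟩
  obtain ⟨-, C, hC, -, hup⟩ := Pool.Agent.N490.PF.pts F
  obtain ⟨d, hd⟩ : ∃ d, d = Module.finrank ℚ F := ⟨_, rfl⟩
  rw [← hd] at hup ⊢
  refine ⟨4 * C ^ 2, by positivity, fun B hB U hU => ?_⟩
  have hBr : (1 : ℝ) ≤ B := by exact_mod_cast hB
  obtain ⟨fa, na⟩ := hup ⊤ 0 ((B : ℝ) ^ 2) top_ne_bot (by positivity)
  obtain ⟨fb, nb⟩ := hup ⊤ 0 ((B : ℝ) ^ 3) top_ne_bot (by positivity)
  rw [Ideal.absNorm_top, Nat.cast_one, div_one] at na nb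
  have h7 : (U : Set (𝓞 F × 𝓞 F)) ⊆
      {a : 𝓞 F | a - 0 ∈ (⊤ : Ideal (𝓞 F)) ∧ Bd (a : F) ((B : ℝ) ^ 2)} ×ˢ
      {a : 𝓞 F | a - 0 ∈ (⊤ : Ideal (𝓞 F)) ∧ Bd (a : F) ((B : ℝ) ^ 3)} := by
    intro p hp
    obtain ⟨h8, h9, -⟩ := hU p (Finset.mem_coe.1 hp)
    exact Set.mem_prod.2 ⟨⟨Submodule.mem_top, h8⟩, ⟨Submodule.mem_top, h9⟩⟩
  have h8 := Set.ncard_le_ncard h7 (fa.prod fb)
  rw [Set.ncard_prod, Set.ncard_coe_finset] at h8
  have h5 : ((B : ℝ) ^ 2) ^ d + 1 ≤ 2 * ((B : ℝ) ^ 2) ^ d := by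
    have := one_le_pow₀ (one_le_pow₀ hBr (n := 2)) (n := d); linarith
  have h9 : ((B : ℝ) ^ 3) ^ d + 1 ≤ 2 * ((B : ℝ) ^ 3) ^ d := by
    have := one_le_pow₀ (one_le_pow₀ hBr (n := 3)) (n := d); linarith
  have h8' : (U.card : ℝ) ≤
      ({a : 𝓞 F | a - 0 ∈ (⊤ : Ideal (𝓞 F)) ∧ Bd (a : F) ((B : ℝ) ^ 2)}.ncard : ℝ) *
      ({a : 𝓞 F | a - 0 ∈ (⊤ : Ideal (𝓞 F)) ∧ Bd (a : F) ((B : ℝ) ^ 3)}.ncard : ℝ) := by
    exact_mod_cast h8
  calc ∑ p ∈ U, (1 : ℝ) = U.card := by simp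
    _ ≤ _ := h8'
    _ ≤ (C * (((B : ℝ) ^ 2) ^ d + 1)) * (C * (((B : ℝ) ^ 3) ^ d + 1)) :=
        mul_le_mul na nb (Nat.cast_nonneg _) (by positivity)
    _ ≤ (C * (2 * ((B : ℝ) ^ 2) ^ d)) * (C * (2 * ((B : ℝ) ^ 3) ^ d)) := by gcongr
    _ = _ := by
        rw [← pow_mul, ← pow_mul, show 5 * d = 2 * d + 3 * d by ring, pow_add]
        ring

theorem clsLe_mono {X Y : ℝ} (h : X ≤ Y) : ClsLe F X ⊆ ClsLe F Y := by
  rintro c ⟨p, hp, hX⟩
  exact ⟨p, hp, hX.trans h⟩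

/-- A positive proportion of the isomorphism classes has trivial 2-Selmer group. -/
theorem cls_pos : ∃ c : ℝ, 0 < c ∧ ∀ᶠ X : ℝ in atTop, 0 < (ClsLe F X).ncard ∧
    c * ((ClsLe F X).ncard : ℝ) ≤
      ({q ∈ ClsLe F X | Nat.card (Selmer (crvP q.rep) 2) = 1}.ncard : ℝ) := by
  obtain ⟨c, hc, B₀, hB₀, h⟩ := thick0 (F := F) Pool.Agent.N490.PF.pts main
  obtain ⟨C, hC, hup⟩ := cls_upper (F := F) Pool.Agent.N490.PF.pts unitT box_one
  have hd0 : 0 < Module.finrank ℚ F := Module.finrank_pos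
  obtain ⟨d, hd⟩ : ∃ d, d = Module.finrank ℚ F := ⟨_, rfl⟩
  have hd1 := hd0
  rw [← hd] at hd1
  rw [← hd] at h hup
  refine ⟨c / (C * 2 ^ (5 * d) + 1), by positivity, ?_⟩
  filter_upwards [eventually_ge_atTop ((B₀ : ℝ) ^ (6 * d))] with X hX
  obtain ⟨B, hB, hBX, hXB⟩ := exists_B' (6 * d) (by omega) B₀ X hB₀ hX
  have hB1 : 1 ≤ B := hB₀.trans hB
  have hBr : (1 : ℝ) ≤ B := by exact_mod_cast hB1
  have hX2 : X ≤ ((2 * B : ℕ) : ℝ) ^ (6 * d) := by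
    refine hXB.le.trans (pow_le_pow_left₀ (by positivity) ?_ _)
    push_cast; linarith
  obtain ⟨f1, s1⟩ := hup (2 * B) (by omega)
  have hfin := f1.subset (clsLe_mono hX2)
  obtain ⟨U, hU1, hU2, hU3⟩ := h B hB
  have hdisc : ∀ p ∈ U, 4 * p.1 ^ 3 + 27 * p.2 ^ 2 ≠ 0 := by
    intro p hp h0
    have h1 := Pool.Agent.N61.PF.disc_ne (hU1 p hp).2.2.1
    apply h1
    have := congrArg (algebraMap (𝓞 F) F) h0
    simpa only [map_add, map_mul, map_pow, map_ofNat, map_zero] using this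
  have h1 := Set.ncard_le_ncard_of_injOn (fun p : ↥U => Quotient.mk (clsS F) ⟨p.1, hdisc p.1 p.2⟩)
    (s := Set.univ) (t := {q ∈ ClsLe F X | Nat.card (Selmer (crvP q.rep) 2) = 1}) (by
      rintro p -
      obtain ⟨h2, h3, h4, -, h5⟩ := hU1 p.1 p.2
      refine ⟨⟨⟨p.1, hdisc p.1 p.2⟩, rfl, le_trans ?_ hBX⟩, ?_⟩
      · show prodHt p.1 ≤ _
        unfold prodHt
        calc ∏ σ : F →+* ℂ, max (‖σ (p.1.1 : F)‖ ^ 3) (‖σ (p.1.2 : F)‖ ^ 2)
            ≤ ∏ σ : F →+* ℂ, (B : ℝ) ^ 6 := by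
              refine Finset.prod_le_prod (fun σ _ => by positivity) fun σ _ => max_le ?_ ?_
              · calc ‖σ (p.1.1 : F)‖ ^ 3 ≤ ((B : ℝ) ^ 2) ^ 3 :=
                      pow_le_pow_left₀ (norm_nonneg _) (h2 σ) 3
                  _ = (B : ℝ) ^ 6 := by ring
              · calc ‖σ (p.1.2 : F)‖ ^ 2 ≤ ((B : ℝ) ^ 3) ^ 2 :=
                      pow_le_pow_left₀ (norm_nonneg _) (h3 σ) 2
                  _ = (B : ℝ) ^ 6 := by ring
          _ = _ := by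
              rw [Finset.prod_const, Finset.card_univ, card_emb, ← pow_mul, ← hd]
      · show Nat.card (Selmer (crvP (Cls.rep (Quotient.mk (clsS F) ⟨p.1, hdisc p.1 p.2⟩))) 2) = 1
        have h6 : IsoRel p.1 (Cls.rep (Quotient.mk (clsS F) ⟨p.1, hdisc p.1 p.2⟩)) := by
          have h7 : Quotient.mk (clsS F) (Quotient.out (Quotient.mk (clsS F) ⟨p.1, hdisc p.1 p.2⟩)) =
              Quotient.mk (clsS F) ⟨p.1, hdisc p.1 p.2⟩ := Quotient.out_eq _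
          exact (show IsoRel (Cls.rep (Quotient.mk (clsS F) ⟨p.1, hdisc p.1 p.2⟩)) p.1 from
            Quotient.exact h7).symm
        obtain ⟨e⟩ := selmer_iso (hdisc p.1 p.2) h6
        rw [← Nat.card_congr e.toEquiv]
        exact selmer_triv p.1 h4 h5)
    (by
      intro p _ q _ h
      exact Subtype.ext (hU2 p.1 p.2 q.1 q.2 (Quotient.exact h)))
    (hfin.subset fun q hq => hq.1)
  rw [Set.ncard_univ, Nat.card_eq_fintype_card, Fintype.card_coe] at h1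
  have h2 : c * (B : ℝ) ^ (5 * d) ≤
      ({q ∈ ClsLe F X | Nat.card (Selmer (crvP q.rep) 2) = 1}.ncard : ℝ) :=
    hU3.trans (by exact_mod_cast h1)
  have h3 : 0 < ({q ∈ ClsLe F X | Nat.card (Selmer (crvP q.rep) 2) = 1}.ncard : ℝ) :=
    lt_of_lt_of_le (by positivity) h2
  have h4 : {q ∈ ClsLe F X | Nat.card (Selmer (crvP q.rep) 2) = 1}.ncard ≤ (ClsLe F X).ncard :=
    Set.ncard_le_ncard (fun q hq => hq.1) hfin
  have h5 : ((ClsLe F X).ncard : ℝ) ≤ C * 2 ^ (5 * d) * (B : ℝ) ^ (5 * d) := by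
    have h6 := s1 hfin.toFinset (fun c hc => clsLe_mono hX2 (hfin.mem_toFinset.1 hc))
    have h7 : ∑ c ∈ hfin.toFinset, (1 : ℝ) = ((ClsLe F X).ncard : ℝ) := by
      rw [Set.ncard_eq_toFinset_card _ hfin]
      simp
    rw [h7] at h6
    refine h6.trans (le_of_eq ?_)
    push_cast
    rw [mul_pow]; ring
  refine ⟨?_, ?_⟩
  · have : 0 < {q ∈ ClsLe F X | Nat.card (Selmer (crvP q.rep) 2) = 1}.ncard := by exact_mod_cast h3
    omega
  · rw [div_mul_eq_mul_div, div_le_iff₀ (by positivity)]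
    have hB5 : (0 : ℝ) < (B : ℝ) ^ (5 * d) := by positivity
    calc c * ((ClsLe F X).ncard : ℝ) ≤ c * (C * 2 ^ (5 * d) * (B : ℝ) ^ (5 * d)) := by gcongr
      _ = C * 2 ^ (5 * d) * (c * (B : ℝ) ^ (5 * d)) := by ring
      _ ≤ (C * 2 ^ (5 * d) + 1) * (c * (B : ℝ) ^ (5 * d)) := by
          gcongr; linarith
      _ ≤ _ := by
          rw [mul_comm]
          exact mul_le_mul_of_nonneg_right h2 (by positivity)

/-- A positive proportion of the family has trivial 2-Selmer group. -/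
theorem fam_pos : ∃ c : ℝ, 0 < c ∧ ∀ᶠ X : ℝ in atTop,
    0 < {p : 𝓞 F × 𝓞 F | Crv X p}.ncard ∧ c * ({p : 𝓞 F × 𝓞 F | Crv X p}.ncard : ℝ) ≤
      ({p ∈ {p : 𝓞 F × 𝓞 F | Crv X p} | Nat.card (Selmer (crvP p) 2) = 1}.ncard : ℝ) := by
  obtain ⟨c, hc, Y₀, h⟩ := Pool.Agent.N783.PF.fin1 F
  refine ⟨c, hc, ?_⟩
  filter_upwards [eventually_ge_atTop Y₀] with X hX
  obtain ⟨h1, h2⟩ := (h X).2 hX
  refine ⟨h1, h2.trans ?_⟩
  have h4 := Set.ncard_le_ncard (s := {p : 𝓞 F × 𝓞 F | Crv X p ∧ Good p})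
    (t := {p ∈ {p : 𝓞 F × 𝓞 F | Crv X p} | Nat.card (Selmer (crvP p) 2) = 1})
    (fun p hp => ⟨hp.1, selmer_one hp.2.sel⟩) ((h X).1.subset fun p hp => hp.1)
  exact_mod_cast h4

end

end Pool.Agent.Helper91.AV
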