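import Pool.Agent.Helper91.AV.Law

/-!
# Project AV: the three laws
-/

set_option autoImplicit false
set_option linter.all false

open Polynomial IsDedekindDomain NumberField Filter Topology
open scoped Classical

namespace Pool.Agent.Helper91.AV

open Pool.Agent.N783.PF
open Pool.Agent.N874.PP (sW)

theorem Law.mono {α : Type} {S : ℝ → Set α} {n : α → ℕ} {C C' : ℝ} (h : Law S n C) (hC : C ≤ C') :
    Law S n C' := by
  refine ⟨h.finite, fun X => (h.average X).trans hC, fun X k => (h.tail X k).trans ?_, fun x hx => ?_⟩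
  · gcongr
  · obtain ⟨φ, μ, h1, h2, h3, h4, h5, h6, h7⟩ := h.limits x hx
    exact ⟨φ, μ, h1, h2, h3, h4, h5, h6, h7.trans hC⟩

section

variable {F : Type} [Field F] [NumberField F]

theorem selRank_zero {W : WeierstrassCurve F} (h : Nat.card (Selmer W 2) = 1) : selRank W = 0 := by
  unfold selRank
  rw [h]
  simp

theorem rank_le_selRank (hSRB : S_SRB) (p : 𝓞 F × 𝓞 F) (hp : 4 * p.1 ^ 3 + 27 * p.2 ^ 2 ≠ 0) :
    Finite (ShaTwo (crvP p)) ∧
    idx2 (EPt (p.1 : F) (p.2 : F)) * Nat.card (ShaTwo (crvP p)) = 2 ^ selRank (crvP p) ∧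
    2 ^ Module.finrank ℤ (EPt (p.1 : F) (p.2 : F)) ≤ idx2 (EPt (p.1 : F) (p.2 : F)) := by
  have hf := selmer_finA hSRB p hp
  obtain ⟨h1, h2⟩ := Pool.Agent.Helper28.AV.kum F (p.1 : F) (p.2 : F) (discF hp) hf
  exact ⟨h1, h2.trans (selRank_eq _ hf), rank_idx (ept_fg (discF hp))⟩

theorem law_fam (hSRB : S_SRB) (F : Type) [Field F] [NumberField F] :
    ∃ C : ℝ, Law (fun X => {p : 𝓞 F × 𝓞 F | Crv X p}) (fun p => selRank (crvP p)) C := by
  obtain ⟨C₀, hC₀, h⟩ := (box_selA (F := F) hSRB).box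
  obtain ⟨C, hC, h1⟩ := fam_of_box (F := F) Pool.Agent.N490.PF.pts main (fun _ => True)
    (fun p => (Nat.card (Selmer (crvP p) 2) : ℝ)) (fun p => Nat.cast_nonneg _) C₀ hC₀
    (fun B hB U hU => h B hB U fun p hp => ⟨(hU p hp).1, (hU p hp).2.1, (hU p hp).2.2.1⟩)
  have hfin : ∀ X : ℝ, {p : 𝓞 F × 𝓞 F | Crv X p}.Finite := fun X =>
    Pool.Agent.N61.PF.crv_finite Pool.Agent.N490.PF.pts X
  refine ⟨C, law_of hC.le hfin (fun X => ?_) ?_⟩
  · have h2 := h1 X (hfin X).toFinset fun p hp => ⟨(hfin X).mem_toFinset.1 hp, trivial⟩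
    refine le_trans (le_of_eq (Finset.sum_congr rfl fun p hp => ?_)) h2
    have h3 : Crv X p := (hfin X).mem_toFinset.1 hp
    rw [selRank_eq _ (selmer_finA hSRB p h3.disc)]
    push_cast
    rfl
  · obtain ⟨c, hc, hev⟩ := fam_pos (F := F)
    refine ⟨c, hc, hev.mono fun X hX => ⟨hX.1, hX.2.trans ?_⟩⟩
    have h4 := Set.ncard_le_ncard
      (s := {p ∈ {p : 𝓞 F × 𝓞 F | Crv X p} | Nat.card (Selmer (crvP p) 2) = 1})
      (t := {p ∈ {p : 𝓞 F × 𝓞 F | Crv X p} | selRank (crvP p) = 0})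
      (fun p hp => ⟨hp.1, selRank_zero hp.2⟩) ((hfin X).subset fun p hp => hp.1)
    exact_mod_cast h4

theorem rep_disc (c : Cls F) : 4 * c.rep.1 ^ 3 + 27 * c.rep.2 ^ 2 ≠ 0 := (Quotient.out c).2

theorem law_cls (hSRB : S_SRB) (F : Type) [Field F] [NumberField F] :
    ∃ C : ℝ, Law (ClsLe F) (fun c => selRank (crvP c.rep)) C := by
  obtain ⟨C, hC, h1⟩ := cls_avg (F := F) Pool.Agent.N490.PF.pts main unitT (box_selA hSRB)
  have hfin : ∀ X : ℝ, (ClsLe F X).Finite := fun X => (h1 X).1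
  refine ⟨C, law_of hC.le hfin (fun X => ?_) ?_⟩
  · have h2 := (h1 X).2 (hfin X).toFinset fun p hp => (hfin X).mem_toFinset.1 hp
    refine le_trans (le_of_eq (Finset.sum_congr rfl fun c hc => ?_)) h2
    rw [selRank_eq _ (selmer_finA hSRB c.rep (rep_disc c))]
    push_cast
    rfl
  · obtain ⟨c, hc, hev⟩ := cls_pos (F := F)
    refine ⟨c, hc, hev.mono fun X hX => ⟨hX.1, hX.2.trans ?_⟩⟩
    have h4 := Set.ncard_le_ncard
      (s := {q ∈ ClsLe F X | Nat.card (Selmer (crvP q.rep) 2) = 1})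
      (t := {q ∈ ClsLe F X | selRank (crvP q.rep) = 0})
      (fun p hp => ⟨hp.1, selRank_zero hp.2⟩) ((hfin X).subset fun p hp => hp.1)
    exact_mod_cast h4

theorem rank_zero_of (p : 𝓞 F × 𝓞 F) (hp : 4 * p.1 ^ 3 + 27 * p.2 ^ 2 ≠ 0)
    (h : Nat.card (Selmer (crvP p) 2) = 1) :
    Module.finrank ℤ (EPt (p.1 : F) (p.2 : F)) = 0 := by
  have hf : Finite (Selmer (crvP p) 2) := Nat.finite_of_card_ne_zero (by rw [h]; norm_num)
  obtain ⟨h1, h2⟩ := Pool.Agent.Helper28.AV.kum F (p.1 : F) (p.2 : F) (discF hp) hf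
  have h3 := rank_idx (ept_fg (discF hp))
  have h2' : idx2 (EPt (p.1 : F) (p.2 : F)) * Nat.card (ShaTwo (crvP p)) = 1 := h2.trans h
  have h4 : idx2 (EPt (p.1 : F) (p.2 : F)) = 1 := Nat.eq_one_of_mul_eq_one_right h2'
  rw [h4] at h3
  by_contra hcon
  have h5 : 2 ^ 1 ≤ 2 ^ Module.finrank ℤ (EPt (p.1 : F) (p.2 : F)) :=
    Nat.pow_le_pow_right (by norm_num) (by omega)
  omega

theorem law_rank (F : Type) [Field F] [NumberField F] :
    ∃ C : ℝ, Law (ClsLe F) (fun c => Module.finrank ℤ (EPt (c.rep.1 : F) (c.rep.2 : F))) C := by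
  obtain ⟨C, hC, h1⟩ := cls_avg (F := F) Pool.Agent.N490.PF.pts main unitT box_rank
  have hfin : ∀ X : ℝ, (ClsLe F X).Finite := fun X => (h1 X).1
  refine ⟨C, law_of hC.le hfin (fun X => ?_) ?_⟩
  · exact (h1 X).2 (hfin X).toFinset fun p hp => (hfin X).mem_toFinset.1 hp
  · obtain ⟨c, hc, hev⟩ := cls_pos (F := F)
    refine ⟨c, hc, hev.mono fun X hX => ⟨hX.1, hX.2.trans ?_⟩⟩
    have h4 := Set.ncard_le_ncard
      (s := {q ∈ ClsLe F X | Nat.card (Selmer (crvP q.rep) 2) = 1})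
      (t := {q ∈ ClsLe F X | Module.finrank ℤ (EPt (q.rep.1 : F) (q.rep.2 : F)) = 0})
      (fun p hp => ⟨hp.1, rank_zero_of _ (rep_disc p) hp.2⟩) ((hfin X).subset fun p hp => hp.1)
    exact_mod_cast h4

end

end Pool.Agent.Helper91.AV
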