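import Pool.Agent.Helper91.AV.Def
import Pool.Graph.R_pool_sql_team_seeded_63374d34.N999.PF.Orb

/-!
# Project AV, part ORBA: every class of pairs contains many pairs

Adapted from `Pool.Agent.N999.PF.orb` of helper999.
-/

set_option autoImplicit false
set_option linter.all false

open Polynomial IsDedekindDomain Matrix NumberField
open scoped Classical

namespace Pool.Agent.Helper91.AV

open Pool.Agent.N783.PF
open Pool.Agent.N352.PJ (Mt Typ dd)
open Pool.Agent.N783.PQ (chp form Dist Gap Mid Deep eA eB eU uu)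
open Pool.Agent.N530.PQ (op_act chp_act symm_act form_act Ix mem_ix)
open Pool.Agent.N999.PF

section box

variable {F : Type} [Field F] [NumberField F] {g : ℕ}

/-- Without primes the set `Xset` is the box. -/
theorem xset_box {N c : ℕ} {w : Fin (2 * g + 1) → ℤ} {A B : Mt g (𝓞 F)} (h : Box g N c w A B) :
    Xset g N c w ∅ (fun _ => ⊥) (fun _ => 0) A B where
  box := h
  con := fun q hq => absurd hq (Finset.notMem_empty q)
  dist := fun q hq => absurd hq (Finset.notMem_empty q)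

theorem xset_iff {N c : ℕ} {w : Fin (2 * g + 1) → ℤ} {𝔮 : ℕ → Ideal (𝓞 F)} {P : ℕ → (𝓞 F)[X]}
    {A B : Mt g (𝓞 F)} : Xset g N c w ∅ 𝔮 P A B ↔ Box g N c w A B :=
  ⟨fun h => h.box, fun h => ⟨h, fun q hq => absurd hq (Finset.notMem_empty q),
    fun q hq => absurd hq (Finset.notMem_empty q)⟩⟩

end box

theorem orba (hP : S_PTS) : S_ORBA := by
  intro F _ _ g
  obtain ⟨-, C0, hC0, hC, -⟩ := hP F
  refine ⟨2 * (2 * g + 1), ⌈C0⌉₊ ^ Fintype.card (Ix g), ?_⟩
  intro c N w hw hfin ι _ A A' hB hirr hneq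
  have hcard := card_par (F := F) (C := ⌈C0⌉₊) (fun R hR => (hC R hR).2.trans
    (mul_le_mul_of_nonneg_right (Nat.le_ceil C0) (Nat.cast_nonneg _))) hw
  have hκ : (2 * g + 1) ^ 2 ≤ 2 ^ (2 * (2 * g + 1)) := by
    rw [mul_comm 2 (2 * g + 1), pow_mul]
    exact Nat.pow_le_pow_left (Nat.lt_two_pow_self).le 2
  obtain ⟨κ, hκe⟩ : ∃ κ, κ = 2 * (2 * g + 1) := ⟨_, rfl⟩
  rw [← hκe] at hκ hfin ⊢
  have hfin' : Finite {p : Mt g (𝓞 F) × Mt g (𝓞 F) | Box g (N + κ) (c + κ) w p.1 p.2} :=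
    hfin.to_subtype
  refine (Nat.mul_le_mul_left _ hcard).trans ?_
  rw [Nat.mul_left_comm]
  refine Nat.mul_le_mul_left _ ?_
  rw [← Nat.card_prod, ← Nat.card_coe_set_eq]
  refine Nat.card_le_card_of_injective
    (fun z : ι × Par F g w => (⟨((mat z.2)ᵀ * A z.1 * mat z.2, (mat z.2)ᵀ * A' z.1 * mat z.2),
      (X_act hκ (xset_box (hB z.1)) (mat_uni z.2)).box⟩ :
      {p : Mt g (𝓞 F) × Mt g (𝓞 F) | Box g (N + κ) (c + κ) w p.1 p.2})) ?_
  rintro ⟨i, u⟩ ⟨j, u'⟩ he
  have h0 : ((mat u)ᵀ * A i * mat u, (mat u)ᵀ * A' i * mat u) =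
      ((mat u')ᵀ * A j * mat u', (mat u')ᵀ * A' j * mat u') := congrArg Subtype.val he
  have h4 : (mat u)ᵀ * A i * mat u = (mat u')ᵀ * A j * mat u' := congrArg Prod.fst h0
  have h5 : (mat u)ᵀ * A' i * mat u = (mat u')ᵀ * A' j * mat u' := congrArg Prod.snd h0
  have h6 : i = j := by
    by_contra hij
    refine hneq i j hij ⟨mF (mat u) * (mF (mat u'))⁻¹, ?_, ?_, ?_⟩
    · have e1 : IsUnit (mF (mat u)).det := map_unit _ (mat_uni u).det
      have e2 : IsUnit (mF (mat u')).det := map_unit _ (mat_uni u').det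
      rw [Matrix.det_mul, Matrix.det_nonsing_inv]
      exact mul_ne_zero e1.ne_zero (by simpa using e2.ne_zero)
    · have e2 : IsUnit (mF (mat u')).det := map_unit _ (mat_uni u').det
      have e3 : (mF (mat u))ᵀ * mF (A i) * mF (mat u) =
          (mF (mat u'))ᵀ * mF (A j) * mF (mat u') := by
        rw [← map_act, ← map_act, h4]
      calc (mF (mat u) * (mF (mat u'))⁻¹)ᵀ * mF (A i) * (mF (mat u) * (mF (mat u'))⁻¹)
          = ((mF (mat u'))⁻¹)ᵀ * ((mF (mat u))ᵀ * mF (A i) * mF (mat u)) * (mF (mat u'))⁻¹ := by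
            rw [Matrix.transpose_mul]
            simp only [Matrix.mul_assoc]
        _ = ((mF (mat u'))⁻¹)ᵀ * ((mF (mat u'))ᵀ * mF (A j) * mF (mat u')) *
              (mF (mat u'))⁻¹ := by rw [e3]
        _ = (mF (mat u') * (mF (mat u'))⁻¹)ᵀ * mF (A j) * (mF (mat u') * (mF (mat u'))⁻¹) := by
            rw [Matrix.transpose_mul]
            simp only [Matrix.mul_assoc]
        _ = mF (A j) := by
            rw [Matrix.mul_nonsing_inv _ e2, Matrix.transpose_one, Matrix.one_mul, Matrix.mul_one]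
    · have e2 : IsUnit (mF (mat u')).det := map_unit _ (mat_uni u').det
      have e3 : (mF (mat u))ᵀ * mF (A' i) * mF (mat u) =
          (mF (mat u'))ᵀ * mF (A' j) * mF (mat u') := by
        rw [← map_act, ← map_act, h5]
      calc (mF (mat u) * (mF (mat u'))⁻¹)ᵀ * mF (A' i) * (mF (mat u) * (mF (mat u'))⁻¹)
          = ((mF (mat u'))⁻¹)ᵀ * ((mF (mat u))ᵀ * mF (A' i) * mF (mat u)) * (mF (mat u'))⁻¹ := by
            rw [Matrix.transpose_mul]
            simp only [Matrix.mul_assoc]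
        _ = ((mF (mat u'))⁻¹)ᵀ * ((mF (mat u'))ᵀ * mF (A' j) * mF (mat u')) *
              (mF (mat u'))⁻¹ := by rw [e3]
        _ = (mF (mat u') * (mF (mat u'))⁻¹)ᵀ * mF (A' j) * (mF (mat u') * (mF (mat u'))⁻¹) := by
            rw [Matrix.transpose_mul]
            simp only [Matrix.mul_assoc]
        _ = mF (A' j) := by
            rw [Matrix.mul_nonsing_inv _ e2, Matrix.transpose_one, Matrix.one_mul, Matrix.mul_one]
  subst h6
  have h7 := free (A := A i) (B := A' i) (hirr i) (mat_uni u) (mat_uni u') h4 h5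
  rw [mat_inj h7]

end Pool.Agent.Helper91.AV
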