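import Pool.Agent.Helper91.AV.Fam

/-!
# Project AV: the reducible polynomials, quadratic twists, and the sum of the numbers `2 ^ rank`
-/

set_option autoImplicit false
set_option linter.all false

open Polynomial IsDedekindDomain NumberField
open scoped Classical

namespace Pool.Agent.Helper91.AV

open Pool.Agent.N783.PF
open Pool.Agent.N874.PP (sW)

section

variable {F : Type} [Field F] [NumberField F]

theorem irr3_iff (p : 𝓞 F × 𝓞 F) :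
    ¬ Irr3 p ↔ ∃ r : F, r ^ 3 + (p.1 : F) * r + (p.2 : F) = 0 := by
  unfold Irr3
  have hdeg : (X ^ 3 + C (p.1 : F) * X + C (p.2 : F) : F[X]).natDegree = 3 := by compute_degree!
  have hmon : (X ^ 3 + C (p.1 : F) * X + C (p.2 : F) : F[X]).Monic := by monicity!
  rw [hmon.irreducible_iff_roots_eq_zero_of_degree_le_three (by omega) (by omega),
    Multiset.eq_zero_iff_forall_notMem]
  push Not
  constructor
  · rintro ⟨r, hr⟩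
    refine ⟨r, ?_⟩
    have := (mem_roots hmon.ne_zero).1 hr
    simpa [IsRoot] using this
  · rintro ⟨r, hr⟩
    refine ⟨r, (mem_roots hmon.ne_zero).2 ?_⟩
    simpa [IsRoot] using hr

/-- A root of the polynomial. -/
theorem root_bd {x a b : ℂ} {B : ℝ} (hB : 0 ≤ B) (ha : ‖a‖ ≤ B ^ 2) (hb : ‖b‖ ≤ B ^ 3)
    (h : x ^ 3 + a * x + b = 0) : ‖x‖ ≤ 2 * B := by
  by_contra hcon
  rw [not_le] at hcon
  have h1 : ‖x‖ ^ 3 ≤ B ^ 2 * ‖x‖ + B ^ 3 := by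
    calc ‖x‖ ^ 3 = ‖x ^ 3‖ := (norm_pow _ _).symm
      _ = ‖-(a * x + b)‖ := by congr 1; linear_combination h
      _ = ‖a * x + b‖ := norm_neg _
      _ ≤ ‖a * x‖ + ‖b‖ := norm_add_le _ _
      _ = ‖a‖ * ‖x‖ + ‖b‖ := by rw [norm_mul]
      _ ≤ B ^ 2 * ‖x‖ + B ^ 3 := by gcongr
  have hx : 0 < ‖x‖ := lt_of_le_of_lt (by positivity) hcon
  have h2 : B ≤ ‖x‖ / 2 := by linarith
  have h3 : B ^ 2 ≤ (‖x‖ / 2) ^ 2 := pow_le_pow_left₀ hB h2 2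
  have h4 : B ^ 3 ≤ (‖x‖ / 2) ^ 3 := pow_le_pow_left₀ hB h2 3
  have h5 : 0 < ‖x‖ ^ 3 := by positivity
  nlinarith

/-- The number of the reducible polynomials. -/
theorem red_count (hPTS : S_PTS) : ∃ C : ℝ, 0 < C ∧ ∀ B : ℕ, 1 ≤ B → ∀ U : Finset (𝓞 F × 𝓞 F),
    (∀ p ∈ U, Bd (p.1 : F) ((B : ℝ) ^ 2) ∧ Bd (p.2 : F) ((B : ℝ) ^ 3) ∧ ¬ Irr3 p) →
    (U.card : ℝ) ≤ C * (B : ℝ) ^ (3 * Module.finrank ℚ F) := by
  obtain ⟨-, C, hC, -, h2⟩ := hPTS F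
  obtain ⟨d, hd⟩ : ∃ d, d = Module.finrank ℚ F := ⟨_, rfl⟩
  rw [← hd] at h2 ⊢
  refine ⟨4 * C ^ 2 * 2 ^ d, by positivity, fun B hB U hU => ?_⟩
  have hB1 : (1 : ℝ) ≤ B := by exact_mod_cast hB
  obtain ⟨f1, n1⟩ := h2 ⊤ 0 ((B : ℝ) ^ 2) top_ne_bot (by positivity)
  obtain ⟨f2, n2⟩ := h2 ⊤ 0 (2 * (B : ℝ)) top_ne_bot (by positivity)
  rw [Ideal.absNorm_top, Nat.cast_one, div_one] at n1 n2
  have hroot : ∀ p ∈ U, ∃ r : 𝓞 F, r ^ 3 + p.1 * r + p.2 = 0 ∧ Bd (r : F) (2 * (B : ℝ)) := by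
    intro p hp
    obtain ⟨h3, h4, h5⟩ := hU p hp
    obtain ⟨r, hr⟩ := (irr3_iff p).1 h5
    have hint : IsIntegral (𝓞 F) r := by
      refine ⟨X ^ 3 + Polynomial.C p.1 * X + Polynomial.C p.2, by monicity!, ?_⟩
      simp only [eval₂_add, eval₂_mul, eval₂_pow, eval₂_X, eval₂_C]
      exact hr
    obtain ⟨r', hr'⟩ := IsIntegrallyClosed.isIntegral_iff.1 hint
    refine ⟨r', ?_, ?_⟩
    · apply RingOfIntegers.coe_injective
      have e : (algebraMap (𝓞 F) F) r' ^ 3 + (p.1 : F) * (algebraMap (𝓞 F) F) r' + (p.2 : F) = 0 := by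
        rw [hr']; exact hr
      simpa only [map_add, map_mul, map_pow, map_zero] using e
    · intro σ
      have e := congrArg σ hr
      rw [map_add, map_add, map_mul, map_pow, map_zero] at e
      have e2 := root_bd (by positivity) (h3 σ) (h4 σ) e
      rw [← hr'] at e2
      exact e2
  choose! ρ hρ using hroot
  have hinj : Set.InjOn (fun p : 𝓞 F × 𝓞 F => (p.1, ρ p)) (U : Set (𝓞 F × 𝓞 F)) := by
    intro p hp q hq h
    simp only [Prod.mk.injEq] at h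
    refine Prod.ext h.1 ?_
    have e1 := (hρ p hp).1
    have e2 := (hρ q hq).1
    rw [← h.1, ← h.2] at e2
    exact add_left_cancel (e1.trans e2.symm)
  have h3 := Set.ncard_le_ncard_of_injOn (fun p : 𝓞 F × 𝓞 F => (p.1, ρ p))
    (s := (U : Set (𝓞 F × 𝓞 F)))
    (t := {a : 𝓞 F | a - 0 ∈ (⊤ : Ideal (𝓞 F)) ∧ Bd (a : F) ((B : ℝ) ^ 2)} ×ˢ
        {a : 𝓞 F | a - 0 ∈ (⊤ : Ideal (𝓞 F)) ∧ Bd (a : F) (2 * (B : ℝ))})
    (fun p hp => Set.mem_prod.mpr ⟨⟨Submodule.mem_top, (hU p hp).1⟩,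
      ⟨Submodule.mem_top, (hρ p hp).2⟩⟩) hinj (f1.prod f2)
  rw [Set.ncard_prod, Set.ncard_coe_finset] at h3
  have h4 : (U.card : ℝ) ≤
      ({a : 𝓞 F | a - 0 ∈ (⊤ : Ideal (𝓞 F)) ∧ Bd (a : F) ((B : ℝ) ^ 2)}.ncard : ℝ) *
        ({a : 𝓞 F | a - 0 ∈ (⊤ : Ideal (𝓞 F)) ∧ Bd (a : F) (2 * (B : ℝ))}.ncard : ℝ) := by
    exact_mod_cast h3
  have h5 : ((B : ℝ) ^ 2) ^ d + 1 ≤ 2 * ((B : ℝ) ^ 2) ^ d := by
    have := one_le_pow₀ (one_le_pow₀ hB1 (n := 2)) (n := d); linarith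
  have h6 : (2 * (B : ℝ)) ^ d + 1 ≤ 2 * (2 * (B : ℝ)) ^ d := by
    have := one_le_pow₀ (show (1 : ℝ) ≤ 2 * B by linarith) (n := d); linarith
  calc (U.card : ℝ) ≤ _ := h4
    _ ≤ (C * (((B : ℝ) ^ 2) ^ d + 1)) * (C * ((2 * (B : ℝ)) ^ d + 1)) :=
        mul_le_mul n1 n2 (Nat.cast_nonneg _) (by positivity)
    _ ≤ (C * (2 * ((B : ℝ) ^ 2) ^ d)) * (C * (2 * (2 * (B : ℝ)) ^ d)) := by gcongr
    _ = _ := by
        rw [← pow_mul, mul_pow, show 3 * d = 2 * d + d by ring, pow_add]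
        ring

/-- The sum of the indices of `2 E(F)` in `E(F)` over all curves in a box. -/
theorem sum_idx (hAVG : S_AVG) (hRB : S_RB) (hPTS : S_PTS) : ∃ C : ℝ, 0 ≤ C ∧
    ∀ B : ℕ, 1 ≤ B → ∀ U : Finset (𝓞 F × 𝓞 F),
    (∀ p ∈ U, Bd (p.1 : F) ((B : ℝ) ^ 2) ∧ Bd (p.2 : F) ((B : ℝ) ^ 3) ∧
      4 * p.1 ^ 3 + 27 * p.2 ^ 2 ≠ 0) →
    ∑ p ∈ U, (idx2 (EPt (p.1 : F) (p.2 : F)) : ℝ) ≤ C * (B : ℝ) ^ (5 * Module.finrank ℚ F) := by
  obtain ⟨C₀, h0⟩ := sum_sel (F := F) hAVG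
  obtain ⟨C₁, hC₁, h1⟩ := red_count (F := F) hPTS
  obtain ⟨K, hK⟩ := hRB F 12
  obtain ⟨d, hd⟩ : ∃ d, d = Module.finrank ℚ F := ⟨_, rfl⟩
  rw [← hd] at h0 h1 hK ⊢
  refine ⟨C₀ + C₁ * (K + 1), by positivity, fun B hB U hU => ?_⟩
  have hB1 : (1 : ℝ) ≤ B := by exact_mod_cast hB
  rw [← Finset.sum_filter_add_sum_filter_not U (fun p => Irr3 p)]
  have hA : ∑ p ∈ U.filter (fun p => Irr3 p), (idx2 (EPt (p.1 : F) (p.2 : F)) : ℝ) ≤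
      C₀ * (B : ℝ) ^ (5 * d) := by
    have h2 := h0 B hB (U.filter fun p => Irr3 p) (fun p hp => by
      obtain ⟨hp1, hp2⟩ := Finset.mem_filter.1 hp
      exact ⟨(hU p hp1).1, (hU p hp1).2.1, hp2⟩)
    have h2' : ∑ p ∈ U.filter (fun p => Irr3 p), (Nat.card (Sel2F (sW (p.1 : F) (p.2 : F))) : ℝ) ≤
        C₀ * (B : ℝ) ^ (5 * d) := by exact_mod_cast h2
    refine le_trans (Finset.sum_le_sum fun p hp => ?_) h2'
    obtain ⟨hp1, hp2⟩ := Finset.mem_filter.1 hp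
    have hd' := Pool.Agent.N61.PF.disc_ne hp2
    have hfin := sel_finite hAVG p hp2
    obtain ⟨hs, -, h3, -⟩ := rank_sel hd' hfin
    have h4 : 1 ≤ Nat.card (Sha2 (sW (p.1 : F) (p.2 : F))) := by
      haveI : Nonempty (Sha2 (sW (p.1 : F) (p.2 : F))) := by
        refine ⟨Quotient.mk _ ⟨fun σ => 0, ⟨?_, ?_, ⟨0, fun σ => by rw [map_zero]; simp⟩⟩⟩⟩
        · refine ⟨IsLocallyConstant.const _, fun σ τ => ?_⟩
          rw [map_zero, add_zero]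
        · have := Pool.Agent.N713.QM.isLoc_cob (sW (p.1 : F) (p.2 : F)) 0
          simpa only [map_zero, sub_zero] using this
      exact Nat.card_pos
    have h5 : idx2 (EPt (p.1 : F) (p.2 : F)) ≤ Nat.card (Sel2F (sW (p.1 : F) (p.2 : F))) :=
      (Nat.le_mul_of_pos_right _ h4).trans h3
    exact_mod_cast h5
  have hB' : ∑ p ∈ U.filter (fun p => ¬ Irr3 p), (idx2 (EPt (p.1 : F) (p.2 : F)) : ℝ) ≤
      C₁ * (K + 1) * (B : ℝ) ^ (5 * d) := by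
    have h2 := h1 B hB (U.filter fun p => ¬ Irr3 p) (fun p hp => by
      obtain ⟨hp1, hp2⟩ := Finset.mem_filter.1 hp
      exact ⟨(hU p hp1).1, (hU p hp1).2.1, hp2⟩)
    have h3 : ∀ p ∈ U.filter (fun p => ¬ Irr3 p), (idx2 (EPt (p.1 : F) (p.2 : F)) : ℝ) ≤
        (K + 1) * (B : ℝ) ^ d := by
      intro p hp
      obtain ⟨hp1, hp2⟩ := Finset.mem_filter.1 hp
      obtain ⟨-, h4⟩ := hK B p.1 p.2 hB (hU p hp1).1 (hU p hp1).2.1 (hU p hp1).2.2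
        ((irr3_iff p).1 hp2)
      have h5 : ((idx2 (EPt (p.1 : F) (p.2 : F)) : ℝ)) ^ 12 ≤ ((K + 1) * (B : ℝ) ^ d) ^ 12 := by
        calc ((idx2 (EPt (p.1 : F) (p.2 : F)) : ℝ)) ^ 12 ≤ K * (B : ℝ) ^ (12 * d) := by
              exact_mod_cast h4
          _ ≤ (K + 1) ^ 12 * (B : ℝ) ^ (12 * d) := by
              gcongr
              have : (K : ℝ) + 1 ≤ ((K : ℝ) + 1) ^ 12 := le_self_pow₀ (by
                have : (0 : ℝ) ≤ K := Nat.cast_nonneg K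
                linarith) (by norm_num)
              linarith
          _ = _ := by rw [mul_pow, ← pow_mul]; ring_nf
      exact le_of_pow_le_pow_left₀ (by norm_num) (by positivity) h5
    calc ∑ p ∈ U.filter (fun p => ¬ Irr3 p), (idx2 (EPt (p.1 : F) (p.2 : F)) : ℝ)
        ≤ ∑ p ∈ U.filter (fun p => ¬ Irr3 p), (K + 1) * (B : ℝ) ^ d := Finset.sum_le_sum h3
      _ = ((U.filter fun p => ¬ Irr3 p).card : ℝ) * ((K + 1) * (B : ℝ) ^ d) := by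
          rw [Finset.sum_const, nsmul_eq_mul]
      _ ≤ (C₁ * (B : ℝ) ^ (3 * d)) * ((K + 1) * (B : ℝ) ^ d) :=
          mul_le_mul_of_nonneg_right h2 (by positivity)
      _ = C₁ * (K + 1) * (B : ℝ) ^ (4 * d) := by
          rw [show 4 * d = 3 * d + d by ring, pow_add]; ring
      _ ≤ C₁ * (K + 1) * (B : ℝ) ^ (5 * d) := by
          gcongr
          · norm_num
  calc _ ≤ C₀ * (B : ℝ) ^ (5 * d) + C₁ * (K + 1) * (B : ℝ) ^ (5 * d) := add_le_add hA hB'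
    _ = _ := by ring

/-- The quadratic twists. -/
theorem sum_tw (v : 𝓞 F × 𝓞 F → ℝ) (C : ℝ) (hC : 0 ≤ C)
    (h : ∀ B : ℕ, 1 ≤ B → ∀ U : Finset (𝓞 F × 𝓞 F),
      (∀ p ∈ U, Bd (p.1 : F) ((B : ℝ) ^ 2) ∧ Bd (p.2 : F) ((B : ℝ) ^ 3) ∧
        4 * p.1 ^ 3 + 27 * p.2 ^ 2 ≠ 0) →
      ∑ p ∈ U, v p ≤ C * (B : ℝ) ^ (5 * Module.finrank ℚ F)) (e : 𝓞 F) (he : e ≠ 0) :
    ∃ C' : ℝ, 0 ≤ C' ∧ ∀ B : ℕ, 1 ≤ B → ∀ U : Finset (𝓞 F × 𝓞 F),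
      (∀ p ∈ U, Bd (p.1 : F) ((B : ℝ) ^ 2) ∧ Bd (p.2 : F) ((B : ℝ) ^ 3) ∧
        4 * p.1 ^ 3 + 27 * p.2 ^ 2 ≠ 0) →
      ∑ p ∈ U, v (e ^ 2 * p.1, e ^ 3 * p.2) ≤ C' * (B : ℝ) ^ (5 * Module.finrank ℚ F) := by
  obtain ⟨R, hR⟩ := exists_bd (e : F)
  refine ⟨C * ((R : ℝ) + 1) ^ (5 * Module.finrank ℚ F), by positivity, fun B hB U hU => ?_⟩
  have hinj : Set.InjOn (fun p : 𝓞 F × 𝓞 F => (e ^ 2 * p.1, e ^ 3 * p.2))
      (U : Set (𝓞 F × 𝓞 F)) := by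
    intro p _ q _ h
    simp only [Prod.mk.injEq] at h
    exact Prod.ext (mul_left_cancel₀ (pow_ne_zero 2 he) h.1)
      (mul_left_cancel₀ (pow_ne_zero 3 he) h.2)
  have h1 := h ((R + 1) * B) (Nat.mul_pos (by omega) hB)
    (U.image fun p => (e ^ 2 * p.1, e ^ 3 * p.2)) (by
      intro q hq
      obtain ⟨p, hp, rfl⟩ := Finset.mem_image.1 hq
      obtain ⟨h2, h3, h4⟩ := hU p hp
      have hR' : ∀ σ : F →+* ℂ, ‖σ (e : F)‖ ≤ (R : ℝ) + 1 := fun σ => (hR σ).trans (by linarith)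
      refine ⟨fun σ => ?_, fun σ => ?_, ?_⟩
      · show ‖σ ((e ^ 2 * p.1 : 𝓞 F) : F)‖ ≤ _
        push_cast
        rw [map_mul, map_pow, norm_mul, norm_pow, mul_pow]
        exact mul_le_mul (pow_le_pow_left₀ (norm_nonneg _) (hR' σ) 2) (h2 σ) (norm_nonneg _)
          (by positivity)
      · show ‖σ ((e ^ 3 * p.2 : 𝓞 F) : F)‖ ≤ _
        push_cast
        rw [map_mul, map_pow, norm_mul, norm_pow, mul_pow]
        exact mul_le_mul (pow_le_pow_left₀ (norm_nonneg _) (hR' σ) 3) (h3 σ) (norm_nonneg _)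
          (by positivity)
      · show 4 * (e ^ 2 * p.1) ^ 3 + 27 * (e ^ 3 * p.2) ^ 2 ≠ 0
        have : 4 * (e ^ 2 * p.1) ^ 3 + 27 * (e ^ 3 * p.2) ^ 2 =
            e ^ 6 * (4 * p.1 ^ 3 + 27 * p.2 ^ 2) := by ring
        rw [this]
        exact mul_ne_zero (pow_ne_zero 6 he) h4)
  rw [Finset.sum_image hinj] at h1
  refine h1.trans (le_of_eq ?_)
  push_cast
  rw [mul_pow]
  ring

end

end Pool.Agent.Helper91.AV
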