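import Pool.Agent.Helper91.AV.Law2

/-!
# Project AV: the standard height on the isomorphism classes

The standard height of an elliptic curve `E` over `F` is the minimum of
`N(𝔡) ^ (-12) ∏_σ max(|σ A| ^ 3, |σ B| ^ 2)` over the equations `y ^ 2 = x ^ 3 + A x + B` of `E` with integers
`A`, `B` and the nonzero ideals `𝔡` with `𝔡 ^ 4 ∣ A`, `𝔡 ^ 6 ∣ B`.
-/

set_option autoImplicit false
set_option linter.all false

open Polynomial IsDedekindDomain NumberField Filter Topology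
open scoped Classical nonZeroDivisors

namespace Pool.Agent.Helper91.AV

open Pool.Agent.N783.PF

section

variable {F : Type} [Field F] [NumberField F]

/-- The isomorphism classes of height at most `X`: there are an equation with integers `A`, `B` and a
nonzero ideal `𝔡` with `𝔡 ^ 4 ∣ A` and `𝔡 ^ 6 ∣ B` such that
`∏_σ max(|σ A| ^ 3, |σ B| ^ 2) ≤ X * N(𝔡) ^ 12`. -/
def ClsHt (F : Type) [Field F] [NumberField F] (X : ℝ) : Set (Cls F) :=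
  {c | ∃ (p : {p : 𝓞 F × 𝓞 F // 4 * p.1 ^ 3 + 27 * p.2 ^ 2 ≠ 0}) (𝔡 : Ideal (𝓞 F)),
    Quotient.mk (clsS F) p = c ∧ 𝔡 ≠ ⊥ ∧ p.1.1 ∈ 𝔡 ^ 4 ∧ p.1.2 ∈ 𝔡 ^ 6 ∧
      prodHt p.1 ≤ X * (Ideal.absNorm 𝔡 : ℝ) ^ 12}

theorem clsLe_sub (X : ℝ) : ClsLe F X ⊆ ClsHt F X := by
  rintro c ⟨p, hp, hX⟩
  refine ⟨p, ⊤, hp, top_ne_bot, ?_, ?_, ?_⟩
  · have e : (⊤ : Ideal (𝓞 F)) ^ 4 = ⊤ := by rw [← Ideal.one_eq_top, one_pow]
    rw [e]; exact Submodule.mem_top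
  · have e : (⊤ : Ideal (𝓞 F)) ^ 6 = ⊤ := by rw [← Ideal.one_eq_top, one_pow]
    rw [e]; exact Submodule.mem_top
  · rw [Ideal.absNorm_top, Nat.cast_one, one_pow, mul_one]; exact hX

theorem prod_emb (a : F) : ∏ σ : F →+* ℂ, ‖σ a‖ = |(Algebra.norm ℚ a : ℚ)| := by
  have h1 : (Algebra.norm ℚ a : ℂ) = ∏ σ : F →ₐ[ℚ] ℂ, σ a := by
    have := Algebra.norm_eq_prod_embeddings ℚ ℂ a
    simpa using this
  have h2 : ∏ σ : F →+* ℂ, σ a = ∏ σ : F →ₐ[ℚ] ℂ, σ a :=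
    Fintype.prod_equiv (RingHom.equivRatAlgHom F ℂ) (fun σ => σ a) (fun σ => σ a) (fun σ => rfl)
  rw [← norm_prod, h2, ← h1, Complex.norm_ratCast]
  push_cast
  rfl

/-- A small element of the inverse of an ideal. -/
theorem exists_inv (F : Type) [Field F] [NumberField F] : ∃ M : ℝ, 1 ≤ M ∧
    ∀ 𝔡 : Ideal (𝓞 F), 𝔡 ≠ ⊥ → ∃ l : F, l ≠ 0 ∧
      (∀ (x : 𝓞 F) (k : ℕ), x ∈ 𝔡 ^ k → ∃ y : 𝓞 F, (y : F) = l ^ k * (x : F)) ∧
      (∏ σ : F →+* ℂ, ‖σ l‖) * (Ideal.absNorm 𝔡 : ℝ) ≤ M := by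
  obtain ⟨M₀, hM₀⟩ : ∃ M₀ : ℝ, M₀ = (4 / Real.pi) ^ InfinitePlace.nrComplexPlaces F *
        (Module.finrank ℚ F).factorial / (Module.finrank ℚ F) ^ (Module.finrank ℚ F) *
          Real.sqrt |discr F| := ⟨_, rfl⟩
  refine ⟨max M₀ 1, le_max_right _ _, fun 𝔡 h𝔡 => ?_⟩
  have hne : (𝔡 : FractionalIdeal (𝓞 F)⁰ F) ≠ 0 := by
    rw [Ne, FractionalIdeal.coeIdeal_eq_zero]
    exact h𝔡
  obtain ⟨l, hl1, hl2, hl3⟩ := NumberField.exists_ne_zero_mem_ideal_of_norm_le_mul_sqrt_discr F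
    (Units.mk0 (𝔡 : FractionalIdeal (𝓞 F)⁰ F) hne)⁻¹
  rw [Units.val_inv_eq_inv_val, Units.val_mk0] at hl1
  have hN0 : (0 : ℝ) < (Ideal.absNorm 𝔡 : ℝ) := by
    exact_mod_cast Nat.pos_of_ne_zero (by rw [Ne, Ideal.absNorm_eq_zero_iff]; exact h𝔡)
  refine ⟨l, hl2, ?_, ?_⟩
  · have key : ∀ k : ℕ, ∀ x : F, x ∈ ((𝔡 ^ k : Ideal (𝓞 F)) : FractionalIdeal (𝓞 F)⁰ F) →
        l ^ k * x ∈ (1 : FractionalIdeal (𝓞 F)⁰ F) := by
      intro k x hx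
      have h1 : l ^ k * x ∈ ((𝔡 : FractionalIdeal (𝓞 F)⁰ F)⁻¹) ^ k *
          ((𝔡 ^ k : Ideal (𝓞 F)) : FractionalIdeal (𝓞 F)⁰ F) :=
        FractionalIdeal.mul_mem_mul (by
          have : ∀ k : ℕ, l ^ k ∈ ((𝔡 : FractionalIdeal (𝓞 F)⁰ F)⁻¹) ^ k := by
            intro k
            induction k with
            | zero => rw [pow_zero, pow_zero]; exact FractionalIdeal.one_mem_one _
            | succ k ih => rw [pow_succ, pow_succ]; exact FractionalIdeal.mul_mem_mul ih hl1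
          exact this k) hx
      rw [FractionalIdeal.coeIdeal_pow, ← mul_pow, inv_mul_cancel₀ hne, one_pow] at h1
      exact h1
    intro x k hx
    have h2 := key k (x : F) (FractionalIdeal.mem_coeIdeal_of_mem _ hx)
    rw [FractionalIdeal.mem_one_iff] at h2
    obtain ⟨y, hy⟩ := h2
    exact ⟨y, hy⟩
  · rw [prod_emb]
    have e : FractionalIdeal.absNorm ((Units.mk0 (𝔡 : FractionalIdeal (𝓞 F)⁰ F) hne)⁻¹).1 =
        ((Ideal.absNorm 𝔡 : ℚ))⁻¹ := by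
      rw [Units.val_inv_eq_inv_val, Units.val_mk0, map_inv₀, FractionalIdeal.coeIdeal_absNorm]
    rw [e] at hl3
    have h3 : ((|(Algebra.norm ℚ l : ℚ)| : ℚ) : ℝ) ≤ (Ideal.absNorm 𝔡 : ℝ)⁻¹ * M₀ := by
      rw [hM₀]
      refine hl3.trans (le_of_eq ?_)
      push_cast
      ring
    calc ((|(Algebra.norm ℚ l : ℚ)| : ℚ) : ℝ) * (Ideal.absNorm 𝔡 : ℝ)
        ≤ (Ideal.absNorm 𝔡 : ℝ)⁻¹ * M₀ * (Ideal.absNorm 𝔡 : ℝ) :=
          mul_le_mul_of_nonneg_right h3 hN0.le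
      _ = M₀ := by field_simp
      _ ≤ _ := le_max_left _ _

/-- The comparison of the two heights. -/
theorem sub_clsLe (F : Type) [Field F] [NumberField F] : ∃ K : ℕ, 1 ≤ K ∧
    ∀ X : ℝ, ClsHt F X ⊆ ClsLe F ((K : ℝ) * X) := by
  obtain ⟨M, hM, h⟩ := exists_inv F
  obtain ⟨K, hK⟩ := exists_nat_ge (M ^ 12)
  have hM12 : 1 ≤ M ^ 12 := one_le_pow₀ hM
  refine ⟨K, by
    have : (1 : ℝ) ≤ K := hM12.trans hK
    exact_mod_cast this, fun X => ?_⟩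
  rintro c ⟨p, 𝔡, hp, h𝔡, h1, h2, h3⟩
  obtain ⟨l, hl, hint, hl2⟩ := h 𝔡 h𝔡
  obtain ⟨a, ha⟩ := hint _ 4 h1
  obtain ⟨b, hb⟩ := hint _ 6 h2
  have hiso : IsoRel p.1 (a, b) := ⟨l, hl, ha, hb⟩
  refine ⟨⟨(a, b), disc_iso hiso p.2⟩, ?_, ?_⟩
  · rw [← hp]
    exact (Quotient.sound (show IsoRel p.1 (a, b) from hiso)).symm
  · have hN0 : (0 : ℝ) < (Ideal.absNorm 𝔡 : ℝ) := by
      exact_mod_cast Nat.pos_of_ne_zero (by rw [Ne, Ideal.absNorm_eq_zero_iff]; exact h𝔡)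
    have hP0 : 0 ≤ ∏ σ : F →+* ℂ, ‖σ l‖ := Finset.prod_nonneg fun σ _ => norm_nonneg _
    have hX : 0 ≤ X := by
      by_contra hcon
      rw [not_le] at hcon
      have h4 : 0 ≤ prodHt p.1 := Finset.prod_nonneg fun σ _ => by positivity
      have h5 : X * (Ideal.absNorm 𝔡 : ℝ) ^ 12 < 0 := mul_neg_of_neg_of_pos hcon (by positivity)
      linarith
    have e : prodHt (a, b) = (∏ σ : F →+* ℂ, ‖σ l‖) ^ 12 * prodHt p.1 := by
      unfold prodHt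
      rw [← Finset.prod_pow, ← Finset.prod_mul_distrib]
      refine Finset.prod_congr rfl fun σ _ => ?_
      show max (‖σ (a : F)‖ ^ 3) (‖σ (b : F)‖ ^ 2) = _
      rw [ha, hb, map_mul, map_mul, map_pow, map_pow, norm_mul, norm_mul, norm_pow, norm_pow,
        mul_max_of_nonneg _ _ (by positivity)]
      congr 1 <;> ring
    show prodHt (a, b) ≤ _
    rw [e]
    calc (∏ σ : F →+* ℂ, ‖σ l‖) ^ 12 * prodHt p.1
        ≤ (∏ σ : F →+* ℂ, ‖σ l‖) ^ 12 * (X * (Ideal.absNorm 𝔡 : ℝ) ^ 12) := by gcongr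
      _ = ((∏ σ : F →+* ℂ, ‖σ l‖) * (Ideal.absNorm 𝔡 : ℝ)) ^ 12 * X := by ring
      _ ≤ M ^ 12 * X := by gcongr
      _ ≤ _ := by gcongr

/-- **Averages over the isomorphism classes ordered by the standard height.** -/
theorem ht_avg {v : 𝓞 F × 𝓞 F → ℝ} (hv : BoxAvg v) : ∃ C : ℝ, 0 < C ∧ ∀ X : ℝ,
    (ClsHt F X).Finite ∧ ∀ T : Finset (Cls F), (∀ c ∈ T, c ∈ ClsHt F X) →
      ∑ c ∈ T, v c.rep ≤ C * ((ClsHt F X).ncard : ℝ) := by
  obtain ⟨K, hK, hsub⟩ := sub_clsLe F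
  obtain ⟨C, hC, hup⟩ := cls_upper (F := F) Pool.Agent.N490.PF.pts unitT hv
  obtain ⟨c, hc, B₀, hB₀, hlow⟩ := cls_lower (F := F) Pool.Agent.N490.PF.pts main
  have hd0 : 0 < Module.finrank ℚ F := Module.finrank_pos
  obtain ⟨d, hd⟩ : ∃ d, d = Module.finrank ℚ F := ⟨_, rfl⟩
  rw [← hd] at hup hlow hd0
  have hB₀r : (1 : ℝ) ≤ B₀ := by exact_mod_cast hB₀
  have hKr : (1 : ℝ) ≤ K := by exact_mod_cast hK
  have hKB : ∀ (B : ℕ) (X : ℝ), X ≤ (B : ℝ) ^ (6 * d) → (K : ℝ) * X ≤ ((K * B : ℕ) : ℝ) ^ (6 * d) := by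
    intro B X hX
    have h1 : (K : ℝ) ≤ (K : ℝ) ^ (6 * d) := le_self_pow₀ hKr (by omega)
    have h2 : (0 : ℝ) ≤ (B : ℝ) ^ (6 * d) := by positivity
    push_cast
    rw [mul_pow]
    calc (K : ℝ) * X ≤ (K : ℝ) * (B : ℝ) ^ (6 * d) := by gcongr
      _ ≤ _ := by gcongr
  refine ⟨C * (K * 2) ^ (5 * d) / c + C * (K * (B₀ : ℝ)) ^ (5 * d) + 1, by positivity, fun X => ?_⟩
  rcases lt_or_ge X ((B₀ : ℝ) ^ (6 * d)) with hX | hX
  · obtain ⟨f0, s0⟩ := hup (K * B₀) (Nat.mul_pos hK hB₀)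
    have hs : ClsHt F X ⊆ ClsLe F (((K * B₀ : ℕ) : ℝ) ^ (6 * d)) :=
      (hsub X).trans (clsLe_mono (hKB B₀ X hX.le))
    have hfin := f0.subset hs
    refine ⟨hfin, fun T hT => ?_⟩
    rcases T.eq_empty_or_nonempty with hT0 | ⟨q, hq⟩
    · rw [hT0, Finset.sum_empty]
      positivity
    · have h1 := s0 T (fun c hc => hs (hT c hc))
      push_cast at h1
      have h2 : 1 ≤ ((ClsHt F X).ncard : ℝ) := by
        exact_mod_cast (Set.ncard_pos hfin).2 ⟨q, hT q hq⟩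
      have h3 : 0 ≤ C * (K * 2) ^ (5 * d) / c := by positivity
      have h4 : 0 ≤ C * (K * (B₀ : ℝ)) ^ (5 * d) := by positivity
      nlinarith
  · obtain ⟨B, hB, hBX, hXB⟩ := exists_B' (6 * d) (by omega) B₀ X hB₀ hX
    have hB1 : 1 ≤ B := hB₀.trans hB
    have hBr : (1 : ℝ) ≤ B := by exact_mod_cast hB1
    have hX2 : X ≤ ((2 * B : ℕ) : ℝ) ^ (6 * d) := by
      refine hXB.le.trans (pow_le_pow_left₀ (by positivity) ?_ _)
      push_cast; linarith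
    obtain ⟨f1, s1⟩ := hup (K * (2 * B)) (Nat.mul_pos hK (by omega))
    have hs : ClsHt F X ⊆ ClsLe F (((K * (2 * B) : ℕ) : ℝ) ^ (6 * d)) :=
      (hsub X).trans (clsLe_mono (hKB (2 * B) X hX2))
    have hfin := f1.subset hs
    refine ⟨hfin, fun T hT => ?_⟩
    have h1 := s1 T (fun c hc => hs (hT c hc))
    have h2 := hlow B hB X hBX (hfin.subset (clsLe_sub X))
    have h2' : ((ClsLe F X).ncard : ℝ) ≤ ((ClsHt F X).ncard : ℝ) := by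
      exact_mod_cast Set.ncard_le_ncard (clsLe_sub X) hfin
    have h3 : C * ((K * (2 * B) : ℕ) : ℝ) ^ (5 * d) =
        C * (K * 2) ^ (5 * d) / c * (c * (B : ℝ) ^ (5 * d)) := by
      push_cast
      rw [show (K : ℝ) * (2 * (B : ℝ)) = (K * 2) * B by ring, mul_pow]; field_simp
    have h4 : C * (K * 2) ^ (5 * d) / c * (c * (B : ℝ) ^ (5 * d)) ≤
        C * (K * 2) ^ (5 * d) / c * ((ClsHt F X).ncard : ℝ) :=
      mul_le_mul_of_nonneg_left (h2.trans h2') (by positivity)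
    have h5 : 0 ≤ (C * (K * (B₀ : ℝ)) ^ (5 * d) + 1) * ((ClsHt F X).ncard : ℝ) := by positivity
    rw [h3] at h1
    linarith

/-- The number of the classes. -/
theorem ht_le : ∃ C : ℝ, 0 < C ∧ ∀ X : ℝ, (ClsHt F X).Finite ∧
    ∀ᶠ Y : ℝ in atTop, ((ClsHt F Y).ncard : ℝ) ≤ C * ((ClsLe F Y).ncard : ℝ) := by
  obtain ⟨K, hK, hsub⟩ := sub_clsLe F
  obtain ⟨C, hC, hup⟩ := cls_upper (F := F) Pool.Agent.N490.PF.pts unitT box_one
  obtain ⟨c, hc, B₀, hB₀, hlow⟩ := cls_lower (F := F) Pool.Agent.N490.PF.pts main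
  obtain ⟨C₁, hC₁, havg⟩ := ht_avg (F := F) box_one
  have hd0 : 0 < Module.finrank ℚ F := Module.finrank_pos
  obtain ⟨d, hd⟩ : ∃ d, d = Module.finrank ℚ F := ⟨_, rfl⟩
  rw [← hd] at hup hlow hd0
  have hKr : (1 : ℝ) ≤ K := by exact_mod_cast hK
  refine ⟨C * (K * 2) ^ (5 * d) / c + 1, by positivity, fun X => ⟨(havg X).1, ?_⟩⟩
  filter_upwards [eventually_ge_atTop ((B₀ : ℝ) ^ (6 * d))] with Y hY
  obtain ⟨B, hB, hBX, hXB⟩ := exists_B' (6 * d) (by omega) B₀ Y hB₀ hY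
  have hB1 : 1 ≤ B := hB₀.trans hB
  have hBr : (1 : ℝ) ≤ B := by exact_mod_cast hB1
  have hX2 : Y ≤ ((2 * B : ℕ) : ℝ) ^ (6 * d) := by
    refine hXB.le.trans (pow_le_pow_left₀ (by positivity) ?_ _)
    push_cast; linarith
  have hKB : (K : ℝ) * Y ≤ ((K * (2 * B) : ℕ) : ℝ) ^ (6 * d) := by
    have h1 : (K : ℝ) ≤ (K : ℝ) ^ (6 * d) := le_self_pow₀ hKr (by omega)
    rw [Nat.cast_mul, mul_pow]
    calc (K : ℝ) * Y ≤ (K : ℝ) * ((2 * B : ℕ) : ℝ) ^ (6 * d) := by gcongr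
      _ ≤ _ := by gcongr
  obtain ⟨f1, s1⟩ := hup (K * (2 * B)) (Nat.mul_pos hK (by omega))
  have hs : ClsHt F Y ⊆ ClsLe F (((K * (2 * B) : ℕ) : ℝ) ^ (6 * d)) :=
    (hsub Y).trans (clsLe_mono hKB)
  have hfin := f1.subset hs
  have h1 := s1 hfin.toFinset (fun c hc => hs (hfin.mem_toFinset.1 hc))
  have h7 : ∑ c ∈ hfin.toFinset, (1 : ℝ) = ((ClsHt F Y).ncard : ℝ) := by
    rw [Set.ncard_eq_toFinset_card _ hfin]
    simp
  rw [h7] at h1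
  have h2 := hlow B hB Y hBX (hfin.subset (clsLe_sub Y))
  have h3 : C * ((K * (2 * B) : ℕ) : ℝ) ^ (5 * d) =
      C * (K * 2) ^ (5 * d) / c * (c * (B : ℝ) ^ (5 * d)) := by
    push_cast
    rw [show (K : ℝ) * (2 * (B : ℝ)) = (K * 2) * B by ring, mul_pow]; field_simp
  have h4 : C * (K * 2) ^ (5 * d) / c * (c * (B : ℝ) ^ (5 * d)) ≤
      C * (K * 2) ^ (5 * d) / c * ((ClsLe F Y).ncard : ℝ) :=
    mul_le_mul_of_nonneg_left h2 (by positivity)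
  have h5 : (0 : ℝ) ≤ ((ClsLe F Y).ncard : ℝ) := Nat.cast_nonneg _
  rw [h3] at h1
  linarith

/-- A positive proportion of the isomorphism classes has trivial 2-Selmer group. -/
theorem ht_pos : ∃ c : ℝ, 0 < c ∧ ∀ᶠ X : ℝ in atTop, 0 < (ClsHt F X).ncard ∧
    c * ((ClsHt F X).ncard : ℝ) ≤
      ({q ∈ ClsHt F X | Nat.card (Selmer (crvP q.rep) 2) = 1}.ncard : ℝ) := by
  obtain ⟨c, hc, hev⟩ := cls_pos (F := F)
  obtain ⟨C, hC, h⟩ := ht_le (F := F)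
  refine ⟨c / C, by positivity, ?_⟩
  filter_upwards [hev, (h 0).2] with X h1 h2
  have hfin := (h X).1
  have h3 : (ClsLe F X).ncard ≤ (ClsHt F X).ncard := Set.ncard_le_ncard (clsLe_sub X) hfin
  refine ⟨lt_of_lt_of_le h1.1 h3, ?_⟩
  have h4 := Set.ncard_le_ncard
    (s := {q ∈ ClsLe F X | Nat.card (Selmer (crvP q.rep) 2) = 1})
    (t := {q ∈ ClsHt F X | Nat.card (Selmer (crvP q.rep) 2) = 1})
    (fun q hq => ⟨clsLe_sub X hq.1, hq.2⟩) (hfin.subset fun q hq => hq.1)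
  have h5 : c * ((ClsLe F X).ncard : ℝ) ≤
      ({q ∈ ClsHt F X | Nat.card (Selmer (crvP q.rep) 2) = 1}.ncard : ℝ) :=
    h1.2.trans (by exact_mod_cast h4)
  calc c / C * ((ClsHt F X).ncard : ℝ) ≤ c / C * (C * ((ClsLe F X).ncard : ℝ)) := by gcongr
    _ = c * ((ClsLe F X).ncard : ℝ) := by field_simp
    _ ≤ _ := h5

theorem law_ht (hSRB : S_SRB) (F : Type) [Field F] [NumberField F] :
    ∃ C : ℝ, Law (ClsHt F) (fun c => selRank (crvP c.rep)) C := by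
  obtain ⟨C, hC, h1⟩ := ht_avg (F := F) (box_selA hSRB)
  have hfin : ∀ X : ℝ, (ClsHt F X).Finite := fun X => (h1 X).1
  refine ⟨C, law_of hC.le hfin (fun X => ?_) ?_⟩
  · have h2 := (h1 X).2 (hfin X).toFinset fun p hp => (hfin X).mem_toFinset.1 hp
    refine le_trans (le_of_eq (Finset.sum_congr rfl fun c hc => ?_)) h2
    rw [selRank_eq _ (selmer_finA hSRB c.rep (rep_disc c))]
    push_cast
    rfl
  · obtain ⟨c, hc, hev⟩ := ht_pos (F := F)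
    refine ⟨c, hc, hev.mono fun X hX => ⟨hX.1, hX.2.trans ?_⟩⟩
    have h4 := Set.ncard_le_ncard
      (s := {q ∈ ClsHt F X | Nat.card (Selmer (crvP q.rep) 2) = 1})
      (t := {q ∈ ClsHt F X | selRank (crvP q.rep) = 0})
      (fun p hp => ⟨hp.1, selRank_zero hp.2⟩) ((hfin X).subset fun p hp => hp.1)
    exact_mod_cast h4

theorem law_htr (F : Type) [Field F] [NumberField F] :
    ∃ C : ℝ, Law (ClsHt F) (fun c => Module.finrank ℤ (EPt (c.rep.1 : F) (c.rep.2 : F))) C := by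
  obtain ⟨C, hC, h1⟩ := ht_avg (F := F) box_rank
  have hfin : ∀ X : ℝ, (ClsHt F X).Finite := fun X => (h1 X).1
  refine ⟨C, law_of hC.le hfin (fun X => ?_) ?_⟩
  · exact (h1 X).2 (hfin X).toFinset fun p hp => (hfin X).mem_toFinset.1 hp
  · obtain ⟨c, hc, hev⟩ := ht_pos (F := F)
    refine ⟨c, hc, hev.mono fun X hX => ⟨hX.1, hX.2.trans ?_⟩⟩
    have h4 := Set.ncard_le_ncard
      (s := {q ∈ ClsHt F X | Nat.card (Selmer (crvP q.rep) 2) = 1})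
      (t := {q ∈ ClsHt F X | Module.finrank ℤ (EPt (q.rep.1 : F) (q.rep.2 : F)) = 0})
      (fun p hp => ⟨hp.1, rank_zero_of _ (rep_disc p) hp.2⟩) ((hfin X).subset fun p hp => hp.1)
    exact_mod_cast h4

end

end Pool.Agent.Helper91.AV
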