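import Pool.Agent.Helper91.AV.Icl
import Pool.Agent.Helper91.AV.Def7
import Pool.Agent.Helper45.AV.Cmp2
import Pool.Agent.Helper28.AV.Kum
import Pool.Agent.Helper45.AV.Cmp

/-!
# Project AV: trivial 2-Selmer groups
-/

set_option autoImplicit false
set_option linter.all false

open Polynomial IsDedekindDomain NumberField Filter Topology
open scoped Classical

namespace Pool.Agent.Helper91.AV

open Pool.Agent.N783.PF
open Pool.Agent.N874.PP (sW)
open Pool.Agent.TH115.GD (Pt act rs IsCoc LocTriv Comp Sep)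

section

variable {F : Type} [Field F] [NumberField F]

theorem sW_eq (a b : F) : sW a b = (⟨0, 0, 0, a, b⟩ : WeierstrassCurve F) := rfl

/-- The 2-Selmer group in the sense of cocycles over the separable closure is zero. -/
theorem selC_of (p : 𝓞 F × 𝓞 F) (hp : Irr3 p) (h : SelZero (Pool.Agent.N61.PF.pol p.1 p.2)) :
    Pool.Agent.N874.QM.SelC (sW (p.1 : F) (p.2 : F)) := by
  refine Pool.Agent.N783.PF.selc F _ _ (Pool.Agent.N61.PF.disc_ne hp) hp ?_
  have e : fF (Pool.Agent.N61.PF.pol p.1 p.2) =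
      (X ^ 3 + C (p.1 : F) * X + C (p.2 : F) : F[X]) := by
    unfold Pool.Agent.N61.PF.pol fF
    simp
  rw [← e]
  exact h

theorem selmer_one {W : WeierstrassCurve F} (h : Pool.Agent.N874.QM.SelC W) :
    Nat.card (Selmer W 2) = 1 := by
  obtain ⟨Φ, h1, h2⟩ := Pool.Agent.Helper45.AV.cmp2 F W
  have key : ∀ x : Selmer W 2, x = 0 := by
    intro x
    obtain ⟨f, rfl⟩ := QuotientAddGroup.mk_surjective x
    have hf := h1 f.1 f.2
    have h0 := h1 0 (selCoc W 2).zero_mem
    obtain ⟨T, hT, e1⟩ := h _ hf.coc hf.two hf.loc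
    obtain ⟨T0, hT0, e0⟩ := h _ h0.coc h0.two h0.loc
    have h3 := h2 f.1 0 ⟨T - T0, by rw [smul_sub, hT, hT0, sub_zero], fun σ => by
      rw [e1 σ, e0 σ, map_sub]; abel⟩
    rw [sub_zero] at h3
    refine (QuotientAddGroup.eq_zero_iff (N := (cobTor W 2).addSubgroupOf (selCoc W 2)) f).2 ?_
    rw [AddSubgroup.mem_addSubgroupOf]
    exact h3
  have : Subsingleton (Selmer W 2) := ⟨fun x y => (key x).trans (key y).symm⟩
  exact Nat.card_eq_one_iff_unique.2 ⟨this, ⟨0⟩⟩

theorem selmer_triv (p : 𝓞 F × 𝓞 F) (hp : Irr3 p)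
    (h : SelZero (Pool.Agent.N61.PF.pol p.1 p.2)) : Nat.card (Selmer (crvP p) 2) = 1 :=
  selmer_one (selC_of p hp h)

end

end Pool.Agent.Helper91.AV
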