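import Pool.Agent.Helper91.AV.Red
import Pool.Agent.Helper91.AV.ClsDef

/-!
# Project AV: many pairwise non-isomorphic curves in a box
-/

set_option autoImplicit false
set_option linter.all false

open Polynomial IsDedekindDomain NumberField
open scoped Classical

namespace Pool.Agent.Helper91.AV

open Pool.Agent.N783.PF
open Pool.Agent.N61.PF (crv_finite crv_upper ht_lower crv_of_ht exists_B eq_pol)

section

variable {F : Type} [Field F] [NumberField F]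

/-- The equation is minimal. -/
def MinP (p : 𝓞 F × 𝓞 F) : Prop :=
  ∀ 𝔭 : Ideal (𝓞 F), 𝔭.IsPrime → 𝔭 ≠ ⊥ → ¬ (p.1 ∈ 𝔭 ^ 4 ∧ p.2 ∈ 𝔭 ^ 6)

theorem slab (hPTS : S_PTS) : ∃ C : ℝ, 0 < C ∧ ∀ (k : ℕ) (R : ℝ) (σ₀ : F →+* ℂ), 1 ≤ k →
    4 * (k : ℝ) ≤ R →
    {a : 𝓞 F | Bd (a : F) R ∧ ‖σ₀ (a : F)‖ < R / (4 * k)}.Finite ∧
    (k : ℝ) * ({a : 𝓞 F | Bd (a : F) R ∧ ‖σ₀ (a : F)‖ < R / (4 * k)}.ncard : ℝ) ≤
      C * R ^ Module.finrank ℚ F := by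
  obtain ⟨-, C, hC, -, h2⟩ := hPTS F
  obtain ⟨d, hd⟩ : ∃ d, d = Module.finrank ℚ F := ⟨_, rfl⟩
  rw [← hd] at h2 ⊢
  refine ⟨2 * C * 2 ^ d, by positivity, fun k R σ₀ hk hR => ?_⟩
  have hk1 : (1 : ℝ) ≤ k := by exact_mod_cast hk
  have hk0 : (0 : ℝ) < k := by linarith
  have hR0 : 0 < R := by linarith
  have hR1 : 1 ≤ R := by linarith
  obtain ⟨f1, n1⟩ := h2 ⊤ 0 (2 * R) top_ne_bot (by positivity)
  rw [Ideal.absNorm_top, Nat.cast_one, div_one] at n1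
  have hsub : {a : 𝓞 F | Bd (a : F) R ∧ ‖σ₀ (a : F)‖ < R / (4 * k)} ⊆
      {a : 𝓞 F | a - 0 ∈ (⊤ : Ideal (𝓞 F)) ∧ Bd (a : F) (2 * R)} := fun a ha =>
    ⟨Submodule.mem_top, fun σ => (ha.1 σ).trans (by linarith)⟩
  have hfin := f1.subset hsub
  refine ⟨hfin, ?_⟩
  obtain ⟨m, hm⟩ : ∃ m : ℕ, m = ⌈R / (2 * k)⌉₊ := ⟨_, rfl⟩
  have hm1 : R / (2 * k) ≤ m := by rw [hm]; exact Nat.le_ceil _
  have hm2 : (m : ℝ) ≤ R / k := by
    have h3 : (m : ℝ) < R / (2 * k) + 1 := by rw [hm]; exact Nat.ceil_lt_add_one (by positivity)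
    have h4 : 1 ≤ R / (2 * k) := by
      rw [le_div_iff₀ (by positivity)]; linarith
    have h5 : R / k = R / (2 * k) + R / (2 * k) := by field_simp; ring
    linarith
  have h3 := Set.ncard_le_ncard_of_injOn (fun q : 𝓞 F × Fin k => q.1 + (((q.2 : ℕ) * m : ℕ) : 𝓞 F))
    (s := {a : 𝓞 F | Bd (a : F) R ∧ ‖σ₀ (a : F)‖ < R / (4 * k)} ×ˢ (Set.univ : Set (Fin k)))
    (t := {a : 𝓞 F | a - 0 ∈ (⊤ : Ideal (𝓞 F)) ∧ Bd (a : F) (2 * R)})
    (by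
      rintro ⟨a, j⟩ ⟨⟨ha, -⟩, -⟩
      refine ⟨Submodule.mem_top, fun σ => ?_⟩
      show ‖σ ((a + (((j : ℕ) * m : ℕ) : 𝓞 F) : 𝓞 F) : F)‖ ≤ 2 * R
      have e : ((a + (((j : ℕ) * m : ℕ) : 𝓞 F) : 𝓞 F) : F) = (a : F) + (((j : ℕ) * m : ℕ) : F) := by
        push_cast; rfl
      rw [e, map_add, map_natCast]
      refine (norm_add_le _ _).trans ?_
      have h4 : ‖((((j : ℕ) * m : ℕ) : ℂ))‖ ≤ R := by
        rw [Complex.norm_natCast]
        push_cast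
        have h5 : ((j : ℕ) : ℝ) ≤ k := by exact_mod_cast j.2.le
        calc ((j : ℕ) : ℝ) * m ≤ k * (R / k) := mul_le_mul h5 hm2 (Nat.cast_nonneg _) hk0.le
          _ = R := by field_simp
      linarith [ha σ])
    (by
      rintro ⟨a, i⟩ ⟨⟨-, ha⟩, -⟩ ⟨b, j⟩ ⟨⟨-, hb⟩, -⟩ h
      simp only at h ha hb
      have key : ∀ (a b : 𝓞 F) (i j : Fin k), ‖σ₀ (a : F)‖ < R / (4 * k) →
          ‖σ₀ (b : F)‖ < R / (4 * k) →
          a + (((i : ℕ) * m : ℕ) : 𝓞 F) = b + (((j : ℕ) * m : ℕ) : 𝓞 F) → i ≤ j → i = j := by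
        intro a b i j ha hb h hij
        by_contra hne
        have hlt : (i : ℕ) + 1 ≤ (j : ℕ) := by
          have : i < j := lt_of_le_of_ne hij hne
          exact this
        have e1 : (a : F) + (((i : ℕ) * m : ℕ) : F) = (b : F) + (((j : ℕ) * m : ℕ) : F) := by
          have := congrArg (algebraMap (𝓞 F) F) h
          simpa only [map_add, map_natCast] using this
        have e2 := congrArg σ₀ e1
        rw [map_add, map_add, map_natCast, map_natCast] at e2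
        push_cast at e2
        have e3 : (((j : ℕ) : ℂ) - ((i : ℕ) : ℂ)) * (m : ℂ) = σ₀ (a : F) - σ₀ (b : F) := by
          linear_combination -e2
        have e4 : ‖(((j : ℕ) : ℂ) - ((i : ℕ) : ℂ)) * (m : ℂ)‖ ≥ m := by
          have e5 : (((j : ℕ) : ℂ) - ((i : ℕ) : ℂ)) = (((j : ℕ) - (i : ℕ) : ℕ) : ℂ) := by
            rw [Nat.cast_sub (by omega)]
          rw [e5, norm_mul, Complex.norm_natCast, Complex.norm_natCast]
          have e6 : (1 : ℝ) ≤ (((j : ℕ) - (i : ℕ) : ℕ) : ℝ) := by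
            exact_mod_cast (by omega : 1 ≤ (j : ℕ) - (i : ℕ))
          nlinarith [Nat.cast_nonneg (α := ℝ) m]
        rw [e3] at e4
        have e7 : ‖σ₀ (a : F) - σ₀ (b : F)‖ < R / (4 * k) + R / (4 * k) :=
          (norm_sub_le _ _).trans_lt (by linarith)
        have e8 : R / (4 * k) + R / (4 * k) = R / (2 * k) := by field_simp; ring
        linarith
      rcases le_total i j with hij | hij
      · have e := key a b i j ha hb h hij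
        subst e
        exact Prod.ext (add_right_cancel h) rfl
      · have e := key b a j i hb ha h.symm hij
        subst e
        exact Prod.ext (add_right_cancel h) rfl) f1
  rw [Set.ncard_prod, Set.ncard_univ, Nat.card_eq_fintype_card, Fintype.card_fin] at h3
  have h4 : ((2 * R) ^ d + 1) ≤ 2 * (2 * R) ^ d := by
    have := one_le_pow₀ (show (1 : ℝ) ≤ 2 * R by linarith) (n := d); linarith
  calc (k : ℝ) * ({a : 𝓞 F | Bd (a : F) R ∧ ‖σ₀ (a : F)‖ < R / (4 * k)}.ncard : ℝ)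
      = ({a : 𝓞 F | Bd (a : F) R ∧ ‖σ₀ (a : F)‖ < R / (4 * k)}.ncard : ℝ) * k := mul_comm _ _
    _ ≤ ({a : 𝓞 F | a - 0 ∈ (⊤ : Ideal (𝓞 F)) ∧ Bd (a : F) (2 * R)}.ncard : ℝ) := by
        exact_mod_cast h3
    _ ≤ C * ((2 * R) ^ d + 1) := n1
    _ ≤ C * (2 * (2 * R) ^ d) := by gcongr
    _ = _ := by rw [mul_pow]; ring

/-- The equivalence relation. -/
def isoS (F : Type) [Field F] [NumberField F] : Setoid (𝓞 F × 𝓞 F) where
  r := IsoRel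
  iseqv := ⟨IsoRel.refl, IsoRel.symm, IsoRel.trans⟩

/-- Representatives. -/
theorem reps {α : Type} (s : Setoid α) (V : Finset α) (M : ℕ)
    (h : ∀ p ∈ V, (V.filter fun q => s.r p q).card ≤ M) :
    ∃ U ⊆ V, (∀ p ∈ U, ∀ q ∈ U, s.r p q → p = q) ∧ V.card ≤ M * U.card := by
  let Q := V.image (Quotient.mk s)
  have hg : ∀ c : Quotient s, c ∈ Q → ∃ p ∈ V, Quotient.mk s p = c := fun c hc =>
    Finset.mem_image.1 hc
  obtain ⟨g, hgg⟩ : ∃ g : Quotient s → α, ∀ c ∈ Q, g c ∈ V ∧ Quotient.mk s (g c) = c := by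
    refine ⟨fun c => if h : ∃ p ∈ V, Quotient.mk s p = c then h.choose else Quotient.out c, ?_⟩
    intro c hc
    have h' := hg c hc
    simp only [dif_pos h']
    exact h'.choose_spec
  have hgV : ∀ c ∈ Q, g c ∈ V := fun c hc => (hgg c hc).1
  have hg : ∀ c ∈ Q, Quotient.mk s (g c) = c := fun c hc => (hgg c hc).2
  refine ⟨Q.image g, ?_, ?_, ?_⟩
  · intro p hp
    obtain ⟨c, hc, rfl⟩ := Finset.mem_image.1 hp
    exact hgV c hc
  · intro p hp q hq hpq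
    obtain ⟨c, hc, rfl⟩ := Finset.mem_image.1 hp
    obtain ⟨c', hc', rfl⟩ := Finset.mem_image.1 hq
    have h1 : Quotient.mk s (g c) = Quotient.mk s (g c') := Quotient.sound hpq
    rw [hg c hc, hg c' hc'] at h1
    rw [h1]
  · have hcard : (Q.image g).card = Q.card := by
      refine Finset.card_image_of_injOn ?_
      intro c hc c' hc' h1
      rw [← hg c hc, ← hg c' hc', h1]
    rw [hcard]
    refine Finset.card_le_mul_card_image V M ?_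
    intro c hc
    obtain ⟨p, hp, rfl⟩ := Finset.mem_image.1 hc
    refine (Finset.card_le_card ?_).trans (h p hp)
    intro q hq
    obtain ⟨hq1, hq2⟩ := Finset.mem_filter.1 hq
    exact Finset.mem_filter.2 ⟨hq1, Setoid.symm' s (Quotient.exact hq2)⟩

/-- A scaling between two minimal equations is a unit. -/
theorem unit_of_min {p q : 𝓞 F × 𝓞 F} (hp : MinP p) (hq : MinP q) {l : F} (hl : l ≠ 0)
    (h1 : (q.1 : F) = l ^ 4 * (p.1 : F)) (h2 : (q.2 : F) = l ^ 6 * (p.2 : F)) :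
    ∃ u : 𝓞 F, (u : F) = l := by
  have hv : ∀ v : HeightOneSpectrum (𝓞 F), v.valuation F l ≤ 1 := by
    intro v
    by_contra hcon
    rw [not_le] at hcon
    -- then `p` is not minimal
    have hv0 : v.valuation F l ≠ 0 := (Valuation.ne_zero_iff _).2 hl
    have hle : v.valuation F l⁻¹ ≤ WithZero.exp (-1 : ℤ) := by
      rw [map_inv₀]
      obtain ⟨n, hn⟩ := WithZero.ne_zero_iff_exists.1 hv0
      rw [← hn] at hcon ⊢
      have h3 : (1 : Multiplicative ℤ) < n := by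
        rw [← WithZero.coe_one] at hcon
        exact WithZero.coe_lt_coe.1 hcon
      have h4 : (1 : ℤ) ≤ Multiplicative.toAdd n := by
        have : (0 : ℤ) < Multiplicative.toAdd n := h3
        omega
      rw [← WithZero.coe_inv]
      refine WithZero.coe_le_coe.2 ?_
      show -(Multiplicative.toAdd n) ≤ (-1 : ℤ)
      omega
    have hmem : ∀ (x y : 𝓞 F) (k : ℕ), (y : F) = l ^ k * (x : F) → x ∈ v.asIdeal ^ k := by
      intro x y k hxy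
      rw [← v.intValuation_le_pow_iff_mem, ← v.valuation_of_algebraMap (K := F)]
      change v.valuation F (x : F) ≤ _
      have e : (x : F) = (l⁻¹) ^ k * (y : F) := by
        rw [hxy, ← mul_assoc, ← mul_pow, inv_mul_cancel₀ hl, one_pow, one_mul]
      rw [e, map_mul, map_pow]
      have h5 : v.valuation F (y : F) ≤ 1 := v.valuation_le_one y
      calc v.valuation F l⁻¹ ^ k * v.valuation F (y : F) ≤ (WithZero.exp (-1 : ℤ)) ^ k * 1 :=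
            mul_le_mul' (pow_le_pow_left' hle k) h5
        _ = WithZero.exp (-(k : ℤ)) := by
            rw [mul_one, ← WithZero.exp_nsmul]
            congr 1
            simp
    exact hp v.asIdeal v.isPrime v.ne_bot ⟨hmem _ _ 4 h1, hmem _ _ 6 h2⟩
  obtain ⟨u, hu⟩ := HeightOneSpectrum.mem_integers_of_valuation_le_one F l hv
  exact ⟨u, hu⟩

/-- Many pairwise non-isomorphic curves. -/
theorem thick0 (hPTS : S_PTS) (hMAIN : S_MAIN) : ∃ c : ℝ, 0 < c ∧ ∃ B₀ : ℕ, 1 ≤ B₀ ∧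
    ∀ B : ℕ, B₀ ≤ B → ∃ U : Finset (𝓞 F × 𝓞 F),
      (∀ p ∈ U, Bd (p.1 : F) ((B : ℝ) ^ 2) ∧ Bd (p.2 : F) ((B : ℝ) ^ 3) ∧ Irr3 p ∧ MinP p ∧
        SelZero (Pool.Agent.N61.PF.pol p.1 p.2)) ∧
      (∀ p ∈ U, ∀ q ∈ U, IsoRel p q → p = q) ∧
      c * (B : ℝ) ^ (5 * Module.finrank ℚ F) ≤ (U.card : ℝ) := by
  obtain ⟨Cs, hCs, hslab⟩ := slab (F := F) hPTS
  have hPTS' := hPTS F
  obtain ⟨-, C, hC, hlow, hup⟩ := hPTS F
  obtain ⟨c, hc, B₀, hmain⟩ := hMAIN 1 F le_rfl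
  obtain ⟨d, hd⟩ : ∃ d, d = Module.finrank ℚ F := ⟨_, rfl⟩
  have hht := fun (B : ℕ) (hB : 1 ≤ B) hfin => ht_lower (F := F) hC hlow (B := B) hB hfin
  rw [← hd] at hslab hup hlow hht ⊢
  -- the number of the embeddings
  obtain ⟨n, hn⟩ : ∃ n : ℕ, n = Fintype.card (F →+* ℂ) := ⟨_, rfl⟩
  -- the constant `k`
  obtain ⟨k₀, hk₀⟩ := exists_nat_ge ((n : ℝ) * Cs * (2 * C) / (c / (2 * C ^ 2)))
  obtain ⟨k, hk⟩ : ∃ k, k = k₀ + 1 := ⟨_, rfl⟩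
  have hk1 : 1 ≤ k := by omega
  have hkr : (1 : ℝ) ≤ k := by exact_mod_cast hk1
  have hkk : (n : ℝ) * Cs * (2 * C) ≤ k * (c / (2 * C ^ 2)) := by
    rw [div_le_iff₀ (by positivity)] at hk₀
    refine hk₀.trans (mul_le_mul_of_nonneg_right ?_ (by positivity))
    rw [hk]; push_cast; linarith
  -- the units of bounded size
  obtain ⟨fM, -⟩ := hup ⊤ 0 (4 * (k : ℝ)) top_ne_bot (by positivity)
  obtain ⟨M, hM⟩ : ∃ M, M = ({a : 𝓞 F | a - 0 ∈ (⊤ : Ideal (𝓞 F)) ∧ Bd (a : F) (4 * (k : ℝ))}).ncard :=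
    ⟨_, rfl⟩
  refine ⟨c / (2 * C ^ 2) / (M + 1), by positivity, max (max B₀ 1) (4 * k),
    (le_max_right B₀ 1).trans (le_max_left _ _), fun B hB => ?_⟩
  have hB0 : B₀ ≤ B := (le_max_left B₀ 1).trans ((le_max_left _ _).trans hB)
  have hB1 : 1 ≤ B := (le_max_right B₀ 1).trans ((le_max_left _ _).trans hB)
  have hBk : 4 * k ≤ B := (le_max_right _ _).trans hB
  have hBr : (1 : ℝ) ≤ B := by exact_mod_cast hB1
  have hBkr : 4 * (k : ℝ) ≤ (B : ℝ) ^ 2 := by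
    have h1 : 4 * (k : ℝ) ≤ B := by exact_mod_cast hBk
    have h2 : (B : ℝ) ≤ (B : ℝ) ^ 2 := le_self_pow₀ hBr (by norm_num)
    linarith
  obtain ⟨hfinH, hprop⟩ := hmain B hB0
  have hl := hht B hB1 hfinH
  -- the set of the minimal pairs
  obtain ⟨fa, na⟩ := hup ⊤ 0 ((B : ℝ) ^ 2) top_ne_bot (by positivity)
  obtain ⟨fb, nb⟩ := hup ⊤ 0 ((B : ℝ) ^ 3) top_ne_bot (by positivity)
  rw [Ideal.absNorm_top, Nat.cast_one, div_one] at nb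
  have hsub : {p : 𝓞 F × 𝓞 F | Bd (p.1 : F) ((B : ℝ) ^ 2) ∧ Bd (p.2 : F) ((B : ℝ) ^ 3) ∧ Irr3 p ∧
      MinP p ∧ SelZero (Pool.Agent.N61.PF.pol p.1 p.2)} ⊆ {a : 𝓞 F | a - 0 ∈ (⊤ : Ideal (𝓞 F)) ∧ Bd (a : F) ((B : ℝ) ^ 2)} ×ˢ
      {a : 𝓞 F | a - 0 ∈ (⊤ : Ideal (𝓞 F)) ∧ Bd (a : F) ((B : ℝ) ^ 3)} := fun p hp =>
    Set.mem_prod.2 ⟨⟨Submodule.mem_top, hp.1⟩, ⟨Submodule.mem_top, hp.2.1⟩⟩
  have hfin := (fa.prod fb).subset hsub
  obtain ⟨W, hW⟩ : ∃ W : Finset (𝓞 F × 𝓞 F), W = hfin.toFinset := ⟨_, rfl⟩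
  have hWm : ∀ p, p ∈ W ↔ Bd (p.1 : F) ((B : ℝ) ^ 2) ∧ Bd (p.2 : F) ((B : ℝ) ^ 3) ∧ Irr3 p ∧
      MinP p ∧ SelZero (Pool.Agent.N61.PF.pol p.1 p.2) := fun p => by rw [hW, Set.Finite.mem_toFinset]; rfl
  have hWc : c / C ^ 2 * (B : ℝ) ^ (5 * d) ≤ (W.card : ℝ) := by
    have h6 := Set.ncard_le_ncard_of_injOn (fun f : (𝓞 F)[X] => (f.coeff 1, f.coeff 0))
      (s := {f : (𝓞 F)[X] | Ht 1 B f ∧ Irreducible (fF f) ∧ SelZero f ∧ Min 1 f})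
      (t := (W : Set (𝓞 F × 𝓞 F)))
      (fun f hf => by
        refine Finset.mem_coe.2 ((hWm _).2 ⟨hf.1.ht 1 (by norm_num), hf.1.ht 0 (by norm_num), ?_, ?_, ?_⟩)
        · have h7 := hf.2.1
          rw [Pool.Agent.N61.PF.fF_eq hf.1] at h7
          exact h7
        · have h8 := crv_of_ht hf.1 hf.2.1 hf.2.2.2 (le_refl (27 * (B : ℝ) ^ 6))
          exact h8.min
        · have h9 := hf.2.2.1
          rw [eq_pol hf.1] at h9
          exact h9)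
      (by
        intro f hf f' hf' h
        have e := Prod.mk.injEq .. ▸ h
        rw [eq_pol hf.1, eq_pol hf'.1, e.1, e.2])
      W.finite_toSet
    rw [Set.ncard_coe_finset] at h6
    calc c / C ^ 2 * (B : ℝ) ^ (5 * d)
        ≤ c / C ^ 2 * (C ^ 2 * ({f : (𝓞 F)[X] | Ht 1 B f}.ncard : ℝ)) :=
          mul_le_mul_of_nonneg_left hl (by positivity)
      _ = c * ({f : (𝓞 F)[X] | Ht 1 B f}.ncard : ℝ) := by field_simp
      _ ≤ ({f : (𝓞 F)[X] | Ht 1 B f ∧ Irreducible (fF f) ∧ SelZero f ∧ Min 1 f}.ncard : ℝ) := hprop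
      _ ≤ _ := by exact_mod_cast h6
  -- the thin pairs
  obtain ⟨V, hV⟩ : ∃ V : Finset (𝓞 F × 𝓞 F), V = W.filter fun p => ∀ σ : F →+* ℂ,
      (B : ℝ) ^ 2 / (4 * k) ≤ ‖σ (p.1 : F)‖ := ⟨_, rfl⟩
  have hthin : ((W.filter fun p => ¬ ∀ σ : F →+* ℂ, (B : ℝ) ^ 2 / (4 * k) ≤ ‖σ (p.1 : F)‖).card : ℝ) ≤
      c / (2 * C ^ 2) * (B : ℝ) ^ (5 * d) := by
    have hcover : (W.filter fun p => ¬ ∀ σ : F →+* ℂ, (B : ℝ) ^ 2 / (4 * k) ≤ ‖σ (p.1 : F)‖) ⊆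
        (Finset.univ : Finset (F →+* ℂ)).biUnion fun σ =>
          W.filter fun p => ‖σ (p.1 : F)‖ < (B : ℝ) ^ 2 / (4 * k) := by
      intro p hp
      obtain ⟨hp1, hp2⟩ := Finset.mem_filter.1 hp
      push Not at hp2
      obtain ⟨σ, hσ⟩ := hp2
      exact Finset.mem_biUnion.2 ⟨σ, Finset.mem_univ _, Finset.mem_filter.2 ⟨hp1, hσ⟩⟩
    have hone : ∀ σ : F →+* ℂ, (k : ℝ) *
        ((W.filter fun p => ‖σ (p.1 : F)‖ < (B : ℝ) ^ 2 / (4 * k)).card : ℝ) ≤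
        Cs * (2 * C) * (B : ℝ) ^ (5 * d) := by
      intro σ
      obtain ⟨fs, ns⟩ := hslab k ((B : ℝ) ^ 2) σ hk1 hBkr
      have h7 : ((W.filter fun p => ‖σ (p.1 : F)‖ < (B : ℝ) ^ 2 / (4 * k) : Finset _) :
          Set (𝓞 F × 𝓞 F)) ⊆
          {a : 𝓞 F | Bd (a : F) ((B : ℝ) ^ 2) ∧ ‖σ (a : F)‖ < (B : ℝ) ^ 2 / (4 * k)} ×ˢ
          {a : 𝓞 F | a - 0 ∈ (⊤ : Ideal (𝓞 F)) ∧ Bd (a : F) ((B : ℝ) ^ 3)} := by
        intro p hp
        obtain ⟨hp1, hp2⟩ := Finset.mem_filter.1 (Finset.mem_coe.1 hp)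
        obtain ⟨h8, h9, -⟩ := (hWm p).1 hp1
        exact Set.mem_prod.2 ⟨⟨h8, hp2⟩, ⟨Submodule.mem_top, h9⟩⟩
      have h8 := Set.ncard_le_ncard h7 (fs.prod fb)
      rw [Set.ncard_prod, Set.ncard_coe_finset] at h8
      have h9 : ((B : ℝ) ^ 3) ^ d + 1 ≤ 2 * ((B : ℝ) ^ 3) ^ d := by
        have := one_le_pow₀ (one_le_pow₀ hBr (n := 3)) (n := d); linarith
      calc (k : ℝ) * ((W.filter fun p => ‖σ (p.1 : F)‖ < (B : ℝ) ^ 2 / (4 * k)).card : ℝ)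
          ≤ (k : ℝ) * (({a : 𝓞 F | Bd (a : F) ((B : ℝ) ^ 2) ∧
              ‖σ (a : F)‖ < (B : ℝ) ^ 2 / (4 * k)}.ncard : ℝ) *
            ({a : 𝓞 F | a - 0 ∈ (⊤ : Ideal (𝓞 F)) ∧ Bd (a : F) ((B : ℝ) ^ 3)}.ncard : ℝ)) := by
            gcongr
            exact_mod_cast h8
        _ = ((k : ℝ) * ({a : 𝓞 F | Bd (a : F) ((B : ℝ) ^ 2) ∧
              ‖σ (a : F)‖ < (B : ℝ) ^ 2 / (4 * k)}.ncard : ℝ)) *
            ({a : 𝓞 F | a - 0 ∈ (⊤ : Ideal (𝓞 F)) ∧ Bd (a : F) ((B : ℝ) ^ 3)}.ncard : ℝ) := by ring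
        _ ≤ (Cs * ((B : ℝ) ^ 2) ^ d) * (C * (2 * ((B : ℝ) ^ 3) ^ d)) :=
            mul_le_mul ns (nb.trans (by gcongr)) (Nat.cast_nonneg _) (by positivity)
        _ = _ := by
            rw [← pow_mul, ← pow_mul, show 5 * d = 2 * d + 3 * d by ring, pow_add]
            ring
    have h10 : ((W.filter fun p => ¬ ∀ σ : F →+* ℂ, (B : ℝ) ^ 2 / (4 * k) ≤ ‖σ (p.1 : F)‖).card : ℝ) ≤
        ∑ σ : F →+* ℂ, ((W.filter fun p => ‖σ (p.1 : F)‖ < (B : ℝ) ^ 2 / (4 * k)).card : ℝ) := by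
      exact_mod_cast (Finset.card_le_card hcover).trans Finset.card_biUnion_le
    have hk0 : (0 : ℝ) < k := by linarith
    refine le_of_mul_le_mul_left ?_ hk0
    calc (k : ℝ) * ((W.filter fun p => ¬ ∀ σ : F →+* ℂ,
          (B : ℝ) ^ 2 / (4 * k) ≤ ‖σ (p.1 : F)‖).card : ℝ)
        ≤ (k : ℝ) * ∑ σ : F →+* ℂ,
          ((W.filter fun p => ‖σ (p.1 : F)‖ < (B : ℝ) ^ 2 / (4 * k)).card : ℝ) :=
          mul_le_mul_of_nonneg_left h10 hk0.le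
      _ = ∑ σ : F →+* ℂ, (k : ℝ) *
          ((W.filter fun p => ‖σ (p.1 : F)‖ < (B : ℝ) ^ 2 / (4 * k)).card : ℝ) :=
          Finset.mul_sum _ _ _
      _ ≤ ∑ σ : F →+* ℂ, Cs * (2 * C) * (B : ℝ) ^ (5 * d) := Finset.sum_le_sum fun σ _ => hone σ
      _ = (n : ℝ) * Cs * (2 * C) * (B : ℝ) ^ (5 * d) := by
          rw [Finset.sum_const, Finset.card_univ, ← hn, nsmul_eq_mul]; ring
      _ ≤ k * (c / (2 * C ^ 2)) * (B : ℝ) ^ (5 * d) :=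
          mul_le_mul_of_nonneg_right hkk (by positivity)
      _ = _ := by ring
  have hVc : c / (2 * C ^ 2) * (B : ℝ) ^ (5 * d) ≤ (V.card : ℝ) := by
    have h11 := Finset.card_filter_add_card_filter_not (s := W) (fun p => ∀ σ : F →+* ℂ,
      (B : ℝ) ^ 2 / (4 * k) ≤ ‖σ (p.1 : F)‖)
    rw [← hV] at h11
    have h12 : (V.card : ℝ) + ((W.filter fun p => ¬ ∀ σ : F →+* ℂ,
        (B : ℝ) ^ 2 / (4 * k) ≤ ‖σ (p.1 : F)‖).card : ℝ) = W.card := by exact_mod_cast h11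
    have h13 : c / C ^ 2 * (B : ℝ) ^ (5 * d) = c / (2 * C ^ 2) * (B : ℝ) ^ (5 * d) +
        c / (2 * C ^ 2) * (B : ℝ) ^ (5 * d) := by field_simp; ring
    linarith
  -- representatives
  obtain ⟨U, hUV, hU1, hU2⟩ := reps (isoS F) V M (by
    intro p hp
    rw [hV] at hp
    obtain ⟨hp1, hp2⟩ := Finset.mem_filter.1 hp
    obtain ⟨hpa, hpb, hpi, hpm, -⟩ := (hWm p).1 hp1
    have hex : ∀ q ∈ V.filter (fun q => (isoS F).r p q), ∃ u : 𝓞 F, Bd (u : F) (4 * (k : ℝ)) ∧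
        (q.1 : F) = (u : F) ^ 4 * (p.1 : F) ∧ (q.2 : F) = (u : F) ^ 6 * (p.2 : F) := by
      intro q hq
      obtain ⟨hq1, l, hl0, h1, h2⟩ := Finset.mem_filter.1 hq
      rw [hV] at hq1
      obtain ⟨hqa, hqb, hqi, hqm, -⟩ := (hWm q).1 (Finset.mem_filter.1 hq1).1
      obtain ⟨u, hu⟩ := unit_of_min hpm hqm hl0 h1 h2
      refine ⟨u, fun σ => ?_, by rw [hu]; exact h1, by rw [hu]; exact h2⟩
      rw [hu]
      have h3 : ‖σ (q.1 : F)‖ = ‖σ l‖ ^ 4 * ‖σ (p.1 : F)‖ := by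
        rw [h1, map_mul, map_pow, norm_mul, norm_pow]
      have h4 := hqa σ
      have h5 := hp2 σ
      have hB2 : 0 < (B : ℝ) ^ 2 := by positivity
      have h6 : ‖σ l‖ ^ 4 * ((B : ℝ) ^ 2 / (4 * k)) ≤ (B : ℝ) ^ 2 := by
        calc ‖σ l‖ ^ 4 * ((B : ℝ) ^ 2 / (4 * k)) ≤ ‖σ l‖ ^ 4 * ‖σ (p.1 : F)‖ := by gcongr
          _ = ‖σ (q.1 : F)‖ := h3.symm
          _ ≤ _ := h4
      have h7 : ‖σ l‖ ^ 4 ≤ 4 * k := by
        have h8 : ‖σ l‖ ^ 4 * ((B : ℝ) ^ 2 / (4 * k)) = (‖σ l‖ ^ 4 / (4 * k)) * (B : ℝ) ^ 2 := by ring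
        rw [h8] at h6
        have h9 : ‖σ l‖ ^ 4 / (4 * k) ≤ 1 := by
          by_contra hcon
          rw [not_le] at hcon
          nlinarith
        rwa [div_le_one (by positivity)] at h9
      by_contra hcon
      rw [not_le] at hcon
      have h8 : 1 ≤ ‖σ l‖ := by linarith
      have h9 : ‖σ l‖ ≤ ‖σ l‖ ^ 4 := le_self_pow₀ h8 (by norm_num)
      linarith
    choose! ρ hρ using hex
    have h14 := Set.ncard_le_ncard_of_injOn ρ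
      (s := ((V.filter (fun q => (isoS F).r p q) : Finset _) : Set (𝓞 F × 𝓞 F)))
      (t := {a : 𝓞 F | a - 0 ∈ (⊤ : Ideal (𝓞 F)) ∧ Bd (a : F) (4 * (k : ℝ))})
      (fun q hq => ⟨Submodule.mem_top, (hρ q (Finset.mem_coe.1 hq)).1⟩)
      (by
        intro q hq q' hq' h
        obtain ⟨-, e1, e2⟩ := hρ q (Finset.mem_coe.1 hq)
        obtain ⟨-, e3, e4⟩ := hρ q' (Finset.mem_coe.1 hq')
        rw [h, ← e3] at e1
        rw [h, ← e4] at e2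
        exact Prod.ext (RingOfIntegers.coe_injective e1) (RingOfIntegers.coe_injective e2))
      fM
    rw [Set.ncard_coe_finset, ← hM] at h14
    exact h14)
  refine ⟨U, fun p hp => ?_, hU1, ?_⟩
  · have h1 := hUV hp
    rw [hV] at h1
    exact (hWm p).1 (Finset.mem_filter.1 h1).1
  · have h2 : (V.card : ℝ) ≤ (M + 1) * U.card := by
      have h3 : (V.card : ℝ) ≤ M * U.card := by exact_mod_cast hU2
      have h4 : (0 : ℝ) ≤ U.card := Nat.cast_nonneg _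
      linarith
    rw [div_mul_eq_mul_div, div_le_iff₀ (by positivity)]
    linarith

/-- Many pairwise non-isomorphic curves. -/
theorem thick (hPTS : S_PTS) (hMAIN : S_MAIN) : ∃ c : ℝ, 0 < c ∧ ∃ B₀ : ℕ, 1 ≤ B₀ ∧
    ∀ B : ℕ, B₀ ≤ B → ∃ U : Finset (𝓞 F × 𝓞 F),
      (∀ p ∈ U, Bd (p.1 : F) ((B : ℝ) ^ 2) ∧ Bd (p.2 : F) ((B : ℝ) ^ 3) ∧ Irr3 p ∧ MinP p) ∧
      (∀ p ∈ U, ∀ q ∈ U, IsoRel p q → p = q) ∧
      c * (B : ℝ) ^ (5 * Module.finrank ℚ F) ≤ (U.card : ℝ) := by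
  obtain ⟨c, hc, B₀, hB₀, h⟩ := thick0 (F := F) hPTS hMAIN
  refine ⟨c, hc, B₀, hB₀, fun B hB => ?_⟩
  obtain ⟨U, h1, h2, h3⟩ := h B hB
  exact ⟨U, fun p hp => ⟨(h1 p hp).1, (h1 p hp).2.1, (h1 p hp).2.2.1, (h1 p hp).2.2.2.1⟩, h2, h3⟩

end

end Pool.Agent.Helper91.AV
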