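import Pool.Agent.Helper91.AV.Fin
import Pool.Agent.Helper91.AV.Lim
import Pool.Agent.Helper91.AV.Def4
import Pool.Agent.Helper60.AV.Rb

/-!
# Project AV: the ranks over multiquadratic extensions
-/

set_option autoImplicit false
set_option linter.all false

open Polynomial IsDedekindDomain NumberField
open scoped Classical

namespace Pool.Agent.Helper91.AV

open Pool.Agent.N783.PF

/-- The twists over the family. -/
theorem fam_tw (F : Type) [Field F] [NumberField F] (e : 𝓞 F) (he : e ≠ 0) :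
    ∃ C : ℝ, 0 < C ∧ ∀ (Y : ℝ) (U : Finset (𝓞 F × 𝓞 F)), (∀ p ∈ U, Crv Y p) →
      ∑ p ∈ U, (idx2 (EPt ((e ^ 2 * p.1 : 𝓞 F) : F) ((e ^ 3 * p.2 : 𝓞 F) : F)) : ℝ) ≤
        C * ({p : 𝓞 F × 𝓞 F | Crv Y p}.ncard : ℝ) := by
  obtain ⟨C₀, hC₀, h⟩ := sum_idx (F := F) avgT Pool.Agent.Helper60.AV.rb Pool.Agent.N490.PF.pts
  obtain ⟨C', hC', h'⟩ := sum_tw (F := F) (fun p => (idx2 (EPt (p.1 : F) (p.2 : F)) : ℝ)) C₀ hC₀ h e he
  obtain ⟨C, hC, h1⟩ := fam_of_box (F := F) Pool.Agent.N490.PF.pts main (fun _ => True)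
    (fun p => (idx2 (EPt ((e ^ 2 * p.1 : 𝓞 F) : F) ((e ^ 3 * p.2 : 𝓞 F) : F)) : ℝ))
    (fun p => Nat.cast_nonneg _) C' hC'
    (fun B hB U hU => h' B hB U fun p hp => ⟨(hU p hp).1, (hU p hp).2.1, (hU p hp).2.2.1⟩)
  exact ⟨C, hC, fun Y U hU => h1 Y U fun p hp => ⟨hU p hp, trivial⟩⟩

/-- The ranks over a multiquadratic extension. -/
theorem fam_mq (hMQ : S_MQ) (F M : Type) [Field F] [NumberField F] [Field M] [NumberField M]
    [Algebra F M] (k : ℕ) (d : Fin k → 𝓞 F) (δ : Fin k → M) (hd : ∀ i, d i ≠ 0)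
    (hδ : ∀ i, δ i ^ 2 = algebraMap F M (d i : F))
    (hgen : IntermediateField.adjoin F (Set.range δ) = ⊤) :
    ∃ C : ℝ, 0 < C ∧ ∀ (Y : ℝ) (U : Finset (𝓞 F × 𝓞 F)), (∀ p ∈ U, Crv Y p) →
      ∑ p ∈ U, (2 : ℝ) ^ ((Module.finrank ℤ (EPt (algebraMap F M (p.1 : F))
        (algebraMap F M (p.2 : F))) : ℝ) / 2 ^ k) ≤ C * ({p : 𝓞 F × 𝓞 F | Crv Y p}.ncard : ℝ) := by
  have hprod : ∀ I : Finset (Fin k), ∏ i ∈ I, d i ≠ 0 := fun I =>
    Finset.prod_ne_zero_iff.2 fun i _ => hd i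
  choose C hC h using fun I : Finset (Fin k) => fam_tw F (∏ i ∈ I, d i) (hprod I)
  refine ⟨∑ I, C I, Finset.sum_pos (fun I _ => hC I) ⟨∅, Finset.mem_univ _⟩, fun Y U hU => ?_⟩
  have hone : ∀ p ∈ U, (2 : ℝ) ^ ((Module.finrank ℤ (EPt (algebraMap F M (p.1 : F))
        (algebraMap F M (p.2 : F))) : ℝ) / 2 ^ k) ≤
      ∑ I : Finset (Fin k), (idx2 (EPt (((∏ i ∈ I, d i) ^ 2 * p.1 : 𝓞 F) : F)
        (((∏ i ∈ I, d i) ^ 3 * p.2 : 𝓞 F) : F)) : ℝ) := by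
    intro p hp
    have hdisc := (hU p hp).disc
    have h1 := hMQ F M k d δ hd hδ hgen p.1 p.2 hdisc
    -- the largest of the ranks
    obtain ⟨J, -, hJ⟩ := Finset.exists_max_image (Finset.univ : Finset (Finset (Fin k)))
      (fun I => Module.finrank ℤ (EPt (((∏ i ∈ I, d i) ^ 2 * p.1 : 𝓞 F) : F)
        (((∏ i ∈ I, d i) ^ 3 * p.2 : 𝓞 F) : F))) ⟨∅, Finset.mem_univ _⟩
    obtain ⟨m, hm⟩ : ∃ m, m = Module.finrank ℤ (EPt (((∏ i ∈ J, d i) ^ 2 * p.1 : 𝓞 F) : F)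
        (((∏ i ∈ J, d i) ^ 3 * p.2 : 𝓞 F) : F)) := ⟨_, rfl⟩
    have h2 : Module.finrank ℤ (EPt (algebraMap F M (p.1 : F)) (algebraMap F M (p.2 : F))) ≤
        2 ^ k * m := by
      refine h1.trans ((Finset.sum_le_card_nsmul _ _ m fun I _ => ?_).trans (le_of_eq ?_))
      · rw [hm]; exact hJ I (Finset.mem_univ _)
      · rw [Finset.card_univ, Fintype.card_finset, Fintype.card_fin, smul_eq_mul]
    have h3 : (2 : ℝ) ^ ((Module.finrank ℤ (EPt (algebraMap F M (p.1 : F))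
        (algebraMap F M (p.2 : F))) : ℝ) / 2 ^ k) ≤ 2 ^ m := by
      rw [show (2 : ℝ) ^ m = (2 : ℝ) ^ ((m : ℕ) : ℝ) from (Real.rpow_natCast 2 m).symm]
      refine Real.rpow_le_rpow_of_exponent_le (x := (2 : ℝ)) (by norm_num) ?_
      rw [div_le_iff₀ (by positivity)]
      have : ((Module.finrank ℤ (EPt (algebraMap F M (p.1 : F)) (algebraMap F M (p.2 : F))) : ℕ) : ℝ) ≤
          ((2 ^ k * m : ℕ) : ℝ) := by exact_mod_cast h2
      push_cast at this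
      linarith
    refine h3.trans ?_
    have hdJ : 4 * (((∏ i ∈ J, d i) ^ 2 * p.1 : 𝓞 F) : F) ^ 3 +
        27 * (((∏ i ∈ J, d i) ^ 3 * p.2 : 𝓞 F) : F) ^ 2 ≠ 0 := by
      intro h0
      have h4 : 4 * ((∏ i ∈ J, d i) ^ 2 * p.1) ^ 3 + 27 * ((∏ i ∈ J, d i) ^ 3 * p.2) ^ 2 = 0 := by
        apply RingOfIntegers.coe_injective
        have e : (algebraMap (𝓞 F) F) (4 * ((∏ i ∈ J, d i) ^ 2 * p.1) ^ 3 +
            27 * ((∏ i ∈ J, d i) ^ 3 * p.2) ^ 2) =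
            4 * (((∏ i ∈ J, d i) ^ 2 * p.1 : 𝓞 F) : F) ^ 3 +
              27 * (((∏ i ∈ J, d i) ^ 3 * p.2 : 𝓞 F) : F) ^ 2 := by
          rw [map_add, map_mul, map_mul, map_pow, map_pow, map_ofNat, map_ofNat]
        exact e.trans (h0.trans (map_zero _).symm)
      have h5 : 4 * ((∏ i ∈ J, d i) ^ 2 * p.1) ^ 3 + 27 * ((∏ i ∈ J, d i) ^ 3 * p.2) ^ 2 =
          (∏ i ∈ J, d i) ^ 6 * (4 * p.1 ^ 3 + 27 * p.2 ^ 2) := by ring
      rw [h5] at h4
      exact mul_ne_zero (pow_ne_zero 6 (hprod J)) hdisc h4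
    have h6 := rank_idx (ept_fg hdJ)
    rw [← hm] at h6
    calc (2 : ℝ) ^ m ≤ (idx2 (EPt (((∏ i ∈ J, d i) ^ 2 * p.1 : 𝓞 F) : F)
        (((∏ i ∈ J, d i) ^ 3 * p.2 : 𝓞 F) : F)) : ℝ) := by exact_mod_cast h6
      _ ≤ _ := Finset.single_le_sum (f := fun I : Finset (Fin k) =>
          (idx2 (EPt (((∏ i ∈ I, d i) ^ 2 * p.1 : 𝓞 F) : F)
          (((∏ i ∈ I, d i) ^ 3 * p.2 : 𝓞 F) : F)) : ℝ)) (fun _ _ => Nat.cast_nonneg _)
          (Finset.mem_univ J)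
  calc _ ≤ ∑ p ∈ U, ∑ I : Finset (Fin k), (idx2 (EPt (((∏ i ∈ I, d i) ^ 2 * p.1 : 𝓞 F) : F)
        (((∏ i ∈ I, d i) ^ 3 * p.2 : 𝓞 F) : F)) : ℝ) := Finset.sum_le_sum hone
    _ = ∑ I : Finset (Fin k), ∑ p ∈ U, (idx2 (EPt (((∏ i ∈ I, d i) ^ 2 * p.1 : 𝓞 F) : F)
        (((∏ i ∈ I, d i) ^ 3 * p.2 : 𝓞 F) : F)) : ℝ) := Finset.sum_comm
    _ ≤ ∑ I : Finset (Fin k), C I * ({p : 𝓞 F × 𝓞 F | Crv Y p}.ncard : ℝ) :=
        Finset.sum_le_sum fun I _ => h I Y U hU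
    _ = _ := (Finset.sum_mul _ _ _).symm

/-- Generators whose squares are integers. -/
theorem int_gen (F M : Type) [Field F] [NumberField F] [Field M] [NumberField M] [Algebra F M]
    (k : ℕ) (δ : Fin k → M) (e : Fin k → F) (hδ : ∀ i, δ i ^ 2 = algebraMap F M (e i))
    (hgen : IntermediateField.adjoin F (Set.range δ) = ⊤) :
    ∃ (d : Fin k → 𝓞 F) (δ' : Fin k → M), (∀ i, d i ≠ 0) ∧
      (∀ i, δ' i ^ 2 = algebraMap F M (d i : F)) ∧
      IntermediateField.adjoin F (Set.range δ') = ⊤ := by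
  have hone : ∀ i, ∃ (d : 𝓞 F) (δ' : M), d ≠ 0 ∧ δ' ^ 2 = algebraMap F M (d : F) ∧
      δ i ∈ IntermediateField.adjoin F {δ'} := by
    intro i
    by_cases h0 : e i = 0
    · refine ⟨1, 1, one_ne_zero, by simp, ?_⟩
      have : δ i = 0 := by
        have := hδ i
        rw [h0, map_zero] at this
        exact pow_eq_zero_iff (by norm_num) |>.1 this
      rw [this]
      exact zero_mem _
    · obtain ⟨a, b, hb, hab⟩ := IsFractionRing.div_surjective (A := 𝓞 F) (e i)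
      have hb0 : b ≠ 0 := nonZeroDivisors.ne_zero hb
      have hbF : (b : F) ≠ 0 := fun h => hb0 (RingOfIntegers.coe_injective (h.trans (map_zero _).symm))
      have ha0 : a ≠ 0 := by
        rintro rfl
        rw [map_zero, zero_div] at hab
        exact h0 hab.symm
      refine ⟨a * b, algebraMap F M (b : F) * δ i, mul_ne_zero ha0 hb0, ?_, ?_⟩
      · rw [mul_pow, hδ i, ← map_pow, ← map_mul]
        congr 1
        rw [← hab]
        have : ((a * b : 𝓞 F) : F) = (a : F) * (b : F) := map_mul _ _ _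
        rw [this]
        field_simp
      · have h1 : δ i = algebraMap F M (b : F)⁻¹ * (algebraMap F M (b : F) * δ i) := by
          rw [← mul_assoc, ← map_mul, inv_mul_cancel₀ hbF, map_one, one_mul]
        have h4 : algebraMap F M (b : F)⁻¹ * (algebraMap F M (b : F) * δ i) ∈
            IntermediateField.adjoin F {algebraMap F M (b : F) * δ i} :=
          mul_mem (IntermediateField.algebraMap_mem _ _)
            (IntermediateField.mem_adjoin_simple_self F _)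
        rwa [← h1] at h4
  choose d δ' h1 h2 h3 using hone
  refine ⟨d, δ', h1, h2, ?_⟩
  rw [eq_top_iff, ← hgen, IntermediateField.adjoin_le_iff]
  rintro _ ⟨i, rfl⟩
  refine (IntermediateField.adjoin.mono F {δ' i} (Set.range δ') ?_) (h3 i)
  exact Set.singleton_subset_iff.2 ⟨i, rfl⟩

end Pool.Agent.Helper91.AV
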